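import Mathlib

set_option autoImplicit false

/-!
# Cantor schemes in mixed radix and their dimension
-/

namespace Pool.Agent.Q43.LC

open Filter Topology Finset
open scoped ENNReal NNReal

/-- products of the numbers of children -/
def QQ (K : ℕ → ℕ) (i : ℕ) : ℕ := ∏ j ∈ range i, K j

lemma QQ_zero (K : ℕ → ℕ) : QQ K 0 = 1 := rfl

lemma QQ_succ (K : ℕ → ℕ) (i : ℕ) : QQ K (i + 1) = QQ K i * K i := Finset.prod_range_succ _ _

/-- a scheme of nested intervals, `K i` children at the stage `i`, separated by `lam i` -/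
structure Sch (K : ℕ → ℕ) (lo hi : ℕ → ℕ → ℝ) (lam : ℕ → ℝ) : Prop where
  two : ∀ i, 2 ≤ K i
  pos : ∀ i, 0 < lam i
  le : ∀ i a, a < QQ K i → lo i a ≤ hi i a
  nlo : ∀ i a k, a < QQ K i → k < K i → lo i a ≤ lo (i + 1) (a * K i + k)
  nhi : ∀ i a k, a < QQ K i → k < K i → hi (i + 1) (a * K i + k) ≤ hi i a
  sep : ∀ i a k k', a < QQ K i → k < k' → k' < K i →
    hi (i + 1) (a * K i + k) + ((k' : ℝ) - k) * lam i ≤ lo (i + 1) (a * K i + k')

/-- the index of the node of the stage `i` -/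
noncomputable def dg (K : ℕ → ℕ) (i : ℕ) (u : ℝ) : ℕ := ⌊u * QQ K i⌋₊

/-- the point with the address `u` -/
noncomputable def pt (K : ℕ → ℕ) (lo : ℕ → ℕ → ℝ) (u : ℝ) : ℝ := ⨆ i, lo i (dg K i u)

variable {K : ℕ → ℕ} {lo hi : ℕ → ℕ → ℝ} {lam : ℕ → ℝ}

lemma QQ_pos (h : ∀ i, 2 ≤ K i) (i : ℕ) : 0 < QQ K i := by
  unfold QQ
  exact Finset.prod_pos fun j _ => by have := h j; omega

lemma two_pow_le (h : ∀ i, 2 ≤ K i) (i : ℕ) : 2 ^ i ≤ QQ K i := by
  induction i with
  | zero => simp [QQ_zero]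
  | succ i ih =>
    rw [QQ_succ, pow_succ]
    exact Nat.mul_le_mul ih (h i)

lemma dg_zero {u : ℝ} (_ : 0 ≤ u) (h1 : u < 1) : dg K 0 u = 0 := by
  unfold dg
  rw [QQ_zero, Nat.floor_eq_zero]
  simpa using h1

lemma dg_div (h : ∀ i, 2 ≤ K i) (i : ℕ) (u : ℝ) : dg K (i + 1) u / K i = dg K i u := by
  have hK : (K i : ℝ) ≠ 0 := by
    have := h i
    exact_mod_cast (by omega : K i ≠ 0)
  unfold dg
  rw [← Nat.floor_div_natCast, QQ_succ]
  congr 1
  push_cast
  field_simp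

lemma dg_lt (h : ∀ i, 2 ≤ K i) {u : ℝ} (h0 : 0 ≤ u) (h1 : u < 1) (i : ℕ) : dg K i u < QQ K i := by
  unfold dg
  have hQ : (0 : ℝ) < QQ K i := by exact_mod_cast QQ_pos h i
  rw [Nat.floor_lt (by positivity)]
  nlinarith

lemma dg_eq (h : ∀ i, 2 ≤ K i) (i : ℕ) (u : ℝ) :
    dg K (i + 1) u = dg K i u * K i + dg K (i + 1) u % K i := by
  rw [← dg_div h i u, mul_comm]
  exact (Nat.div_add_mod _ _).symm

lemma mod_lt' (h : ∀ i, 2 ≤ K i) (i : ℕ) (u : ℝ) : dg K (i + 1) u % K i < K i :=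
  Nat.mod_lt _ (by have := h i; omega)

lemma lo_mono (S : Sch K lo hi lam) {u : ℝ} (h0 : 0 ≤ u) (h1 : u < 1) :
    Monotone fun i => lo i (dg K i u) := by
  refine monotone_nat_of_le_succ fun i => ?_
  have h := S.nlo i (dg K i u) _ (dg_lt S.two h0 h1 i) (mod_lt' S.two i u)
  rwa [← dg_eq S.two i u] at h

lemma hi_anti (S : Sch K lo hi lam) {u : ℝ} (h0 : 0 ≤ u) (h1 : u < 1) :
    Antitone fun i => hi i (dg K i u) := by
  refine antitone_nat_of_succ_le fun i => ?_
  have h := S.nhi i (dg K i u) _ (dg_lt S.two h0 h1 i) (mod_lt' S.two i u)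
  rwa [← dg_eq S.two i u] at h

lemma lo_le_hi (S : Sch K lo hi lam) {u : ℝ} (h0 : 0 ≤ u) (h1 : u < 1) (i j : ℕ) :
    lo i (dg K i u) ≤ hi j (dg K j u) := by
  rcases le_total i j with h | h
  · exact (lo_mono S h0 h1 h).trans (S.le j _ (dg_lt S.two h0 h1 j))
  · exact (S.le i _ (dg_lt S.two h0 h1 i)).trans (hi_anti S h0 h1 h)

lemma pt_mem (S : Sch K lo hi lam) {u : ℝ} (h0 : 0 ≤ u) (h1 : u < 1) (i : ℕ) :
    lo i (dg K i u) ≤ pt K lo u ∧ pt K lo u ≤ hi i (dg K i u) := by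
  constructor
  · exact le_ciSup (f := fun i => lo i (dg K i u)) ⟨hi 0 (dg K 0 u), by
      rintro x ⟨j, rfl⟩
      exact lo_le_hi S h0 h1 j 0⟩ i
  · exact ciSup_le fun j => lo_le_hi S h0 h1 j i

/-- two addresses first differ at some stage -/
lemma first_diff (h : ∀ i, 2 ≤ K i) {u v : ℝ} (h0 : 0 ≤ u) (huv : u < v) (h1 : v < 1) :
    ∃ i, dg K i u = dg K i v ∧ dg K (i + 1) u < dg K (i + 1) v := by
  classical
  have hex : ∃ i, dg K i u ≠ dg K i v := by
    obtain ⟨n, hn⟩ := pow_unbounded_of_one_lt (1 / (v - u)) (one_lt_two (α := ℝ))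
    refine ⟨n, fun he => ?_⟩
    have hpos : 0 < v - u := by linarith
    rw [div_lt_iff₀ hpos] at hn
    have hQ : (2 : ℝ) ^ n ≤ QQ K n := by exact_mod_cast two_pow_le h n
    have hQ0 : (0 : ℝ) ≤ QQ K n := Nat.cast_nonneg _
    have e1 := Nat.lt_floor_add_one (v * QQ K n)
    have e2 := Nat.floor_le (show 0 ≤ u * QQ K n by positivity)
    unfold dg at he
    rw [← he] at e1
    have : (2 : ℝ) ^ n * (v - u) ≤ QQ K n * (v - u) := by gcongr
    nlinarith
  set n := Nat.find hex with hn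
  have hne : dg K n u ≠ dg K n v := Nat.find_spec hex
  have hn0 : n ≠ 0 := by
    intro h2
    rw [h2, dg_zero h0 (by linarith), dg_zero (by linarith) h1] at hne
    exact hne rfl
  obtain ⟨i, hi⟩ := Nat.exists_eq_succ_of_ne_zero hn0
  refine ⟨i, ?_, ?_⟩
  · by_contra hc
    have := Nat.find_min' hex hc
    omega
  · have h2 : dg K (i + 1) u ≠ dg K (i + 1) v := by
      rw [hi] at hne
      exact hne
    have h3 : dg K (i + 1) u ≤ dg K (i + 1) v := by
      unfold dg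
      apply Nat.floor_le_floor
      gcongr
    omega

/-- distances of addresses and of points -/
lemma key (S : Sch K lo hi lam) {s C : ℝ} (hs : 0 < s) (hs1 : s ≤ 1) (hC : 0 < C)
    (hg : ∀ i, 2 ≤ C * (K i * lam i) ^ s * QQ K i) {u v : ℝ} (h0 : 0 ≤ u) (huv : u < v) (h1 : v < 1) :
    pt K lo u < pt K lo v ∧ v - u ≤ C * (pt K lo v - pt K lo u) ^ s := by
  obtain ⟨i, e1, e2⟩ := first_diff S.two h0 huv h1
  have hu1 : u < 1 := huv.trans h1
  have hv0 : 0 ≤ v := h0.trans huv.le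
  set a := dg K i u with ha
  have hu := dg_eq S.two i u
  have hv := dg_eq S.two i v
  rw [← e1] at hv
  rw [← ha] at hu
  set k := dg K (i + 1) u % K i with hk
  set k' := dg K (i + 1) v % K i with hk'
  have hkk : k < k' := by omega
  have hk'K : k' < K i := mod_lt' S.two i v
  have haQ : a < QQ K i := dg_lt S.two h0 hu1 i
  have hsep := S.sep i a k k' haQ hkk hk'K
  rw [← hu, ← hv] at hsep
  have m1 := (pt_mem S h0 hu1 (i + 1)).2
  have m2 := (pt_mem S hv0 h1 (i + 1)).1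
  set j : ℝ := (k' : ℝ) - k with hj
  have hj1 : 1 ≤ j := by
    have : (k : ℝ) + 1 ≤ k' := by exact_mod_cast hkk
    linarith
  have hjK : j ≤ K i := by
    have h2 : (k' : ℝ) ≤ K i := by exact_mod_cast hk'K.le
    have h3 : (0 : ℝ) ≤ k := Nat.cast_nonneg k
    linarith
  have hlam := S.pos i
  have hd : j * lam i ≤ pt K lo v - pt K lo u := by linarith
  have hjl : 0 < j * lam i := by positivity
  refine ⟨by linarith, ?_⟩
  have hK0 : (0 : ℝ) < K i := by
    have := S.two i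
    exact_mod_cast (by omega : 0 < K i)
  have hQ0 : (0 : ℝ) < QQ K i := by exact_mod_cast QQ_pos S.two i
  have hQ : (QQ K (i + 1) : ℝ) = QQ K i * K i := by rw [QQ_succ]; push_cast; ring
  -- distance of the addresses
  have f1 : v * QQ K (i + 1) < dg K (i + 1) v + 1 := Nat.lt_floor_add_one _
  have f2 : (dg K (i + 1) u : ℝ) ≤ u * QQ K (i + 1) := Nat.floor_le (by positivity)
  have f3 : (dg K (i + 1) v : ℝ) - dg K (i + 1) u = j := by
    rw [hu, hv]
    push_cast
    rw [hj]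
    ring
  have f4 : (v - u) * (QQ K i * K i) ≤ 2 * j := by
    rw [← hQ]
    linarith
  have f5 : v - u ≤ 2 / QQ K i * (j / K i) := by
    rw [div_mul_div_comm, le_div_iff₀ (by positivity)]
    exact f4
  have f6 : j / K i ≤ (j / K i) ^ s := by
    have h2 : j / K i ≤ 1 := by rw [div_le_one hK0]; exact hjK
    have h3 : 0 < j / K i := by positivity
    calc j / K i = (j / K i) ^ (1 : ℝ) := (Real.rpow_one _).symm
      _ ≤ _ := Real.rpow_le_rpow_of_exponent_ge h3 h2 hs1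
  have f7 : 2 / QQ K i ≤ C * (K i * lam i) ^ s := by
    rw [div_le_iff₀ hQ0]
    exact hg i
  calc v - u ≤ 2 / QQ K i * (j / K i) := f5
    _ ≤ (C * (K i * lam i) ^ s) * (j / K i) ^ s := by gcongr
    _ = C * (j * lam i) ^ s := by
      rw [mul_assoc, ← Real.mul_rpow (by positivity) (by positivity)]
      congr 2
      field_simp
    _ ≤ C * (pt K lo v - pt K lo u) ^ s := by gcongr

/-- **Dimension of a Cantor scheme.** -/
theorem dim (S : Sch K lo hi lam) {s C : ℝ} (hs : 0 < s) (hs1 : s ≤ 1) (hC : 0 < C)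
    (hg : ∀ i, 2 ≤ C * (K i * lam i) ^ s * QQ K i) :
    ENNReal.ofReal s ≤ dimH (pt K lo '' Set.Ico 0 1) := by
  have hinj : Set.InjOn (pt K lo) (Set.Ico 0 1) := by
    intro u hu v hv he
    by_contra hne
    rcases lt_or_gt_of_ne hne with h | h
    · exact (key S hs hs1 hC hg hu.1 h hv.2).1.ne he
    · exact (key S hs hs1 hC hg hv.1 h hu.2).1.ne he.symm
  set g : ℝ → ℝ := Function.invFunOn (pt K lo) (Set.Ico 0 1) with hgd
  have hgp : ∀ u ∈ Set.Ico (0 : ℝ) 1, g (pt K lo u) = u := by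
    intro u hu
    exact hinj.leftInvOn_invFunOn hu
  set s' : ℝ≥0 := ⟨s, hs.le⟩ with hs'
  set C' : ℝ≥0 := ⟨C, hC.le⟩ with hC'
  have hH : HolderOnWith C' s' g (pt K lo '' Set.Ico 0 1) := by
    rintro _ ⟨u, hu, rfl⟩ _ ⟨v, hv, rfl⟩
    rw [hgp u hu, hgp v hv, edist_dist, edist_dist, Real.dist_eq, Real.dist_eq]
    have hmain : |u - v| ≤ C * |pt K lo u - pt K lo v| ^ s := by
      rcases lt_trichotomy u v with h | h | h
      · obtain ⟨h2, h3⟩ := key S hs hs1 hC hg hu.1 h hv.2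
        rw [abs_sub_comm, abs_of_pos (by linarith), abs_sub_comm, abs_of_pos (by linarith)]
        exact h3
      · rw [h]
        simp [Real.zero_rpow hs.ne']
      · obtain ⟨h2, h3⟩ := key S hs hs1 hC hg hv.1 h hu.2
        rw [abs_of_pos (by linarith), abs_of_pos (by linarith)]
        exact h3
    have e1 : (C' : ℝ≥0∞) * ENNReal.ofReal |pt K lo u - pt K lo v| ^ (s' : ℝ) =
        ENNReal.ofReal (C * |pt K lo u - pt K lo v| ^ s) := by
      rw [ENNReal.ofReal_mul hC.le, ← ENNReal.ofReal_rpow_of_nonneg (abs_nonneg _) hs.le]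
      congr 1
      rw [hC']
      exact (ENNReal.ofReal_eq_coe_nnreal hC.le).symm
    rw [e1]
    exact ENNReal.ofReal_le_ofReal hmain
  have hs0 : 0 < s' := hs
  have h2 := hH.dimH_image_le hs0
  have himg : g '' (pt K lo '' Set.Ico 0 1) = Set.Ico 0 1 := by
    rw [Set.image_image]
    ext u
    constructor
    · rintro ⟨v, hv, rfl⟩
      show g (pt K lo v) ∈ _
      rw [hgp v hv]
      exact hv
    · intro hu
      exact ⟨u, hu, hgp u hu⟩
  rw [himg, Real.dimH_of_nonempty_interior (by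
    rw [interior_Ico]
    exact Set.nonempty_Ioo.2 one_pos)] at h2
  have h3 : (s' : ℝ≥0∞) ≠ 0 := by exact_mod_cast hs0.ne'
  rw [Module.finrank_self, Nat.cast_one, ENNReal.le_div_iff_mul_le (Or.inl h3)
    (Or.inl ENNReal.coe_ne_top), one_mul] at h2
  refine le_trans (le_of_eq ?_) h2
  rw [hs']
  exact ENNReal.ofReal_eq_coe_nnreal hs.le

end Pool.Agent.Q43.LC
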