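import Mathlib
import Pool.Agent.H295R3.Hoheisel

set_option autoImplicit false

/-!
# Primes among the integer parts of `exp (y t)`, `t` in a short interval
-/

namespace Pool.Agent.Q43.LC

open Filter Topology Finset

/-- `y` is close to `m t`, with derivative close to `m` -/
structure Lc (a0 a1 D : ℝ) (m : ℕ) (y y' : ℝ → ℝ) : Prop where
  near : ∀ t ∈ Set.Icc a0 a1, |y t - m * t| ≤ D
  der : ∀ t ∈ Set.Icc a0 a1, HasDerivAt y (y' t) t
  slope : ∀ t ∈ Set.Icc a0 a1, |y' t - m| ≤ D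

lemma Lc.mono {a0 a1 D b0 b1 : ℝ} {m : ℕ} {y y' : ℝ → ℝ} (h : Lc a0 a1 D m y y') (h0 : a0 ≤ b0)
    (h1 : b1 ≤ a1) : Lc b0 b1 D m y y' :=
  ⟨fun t ht => h.near t ⟨h0.trans ht.1, ht.2.trans h1⟩, fun t ht => h.der t ⟨h0.trans ht.1, ht.2.trans h1⟩,
    fun t ht => h.slope t ⟨h0.trans ht.1, ht.2.trans h1⟩⟩

lemma Lc.cont {a0 a1 D : ℝ} {m : ℕ} {y y' : ℝ → ℝ} (h : Lc a0 a1 D m y y') :
    ContinuousOn y (Set.Icc a0 a1) := fun t ht => (h.der t ht).continuousAt.continuousWithinAt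

/-- the mean value theorem -/
lemma Lc.mvt {a0 a1 D : ℝ} {m : ℕ} {y y' : ℝ → ℝ} (h : Lc a0 a1 D m y y') {s t : ℝ} (hs : a0 ≤ s)
    (hst : s ≤ t) (ht : t ≤ a1) : (m - D) * (t - s) ≤ y t - y s ∧ y t - y s ≤ (m + D) * (t - s) := by
  have hder : ∀ x ∈ interior (Set.Icc s t), HasDerivAt y (y' x) x := by
    intro x hx
    rw [interior_Icc] at hx
    exact h.der x ⟨hs.trans hx.1.le, hx.2.le.trans ht⟩
  have hcont : ContinuousOn y (Set.Icc s t) := h.cont.mono fun x hx => ⟨hs.trans hx.1, hx.2.trans ht⟩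
  have hdiff : DifferentiableOn ℝ y (interior (Set.Icc s t)) := fun x hx =>
    (hder x hx).differentiableAt.differentiableWithinAt
  have hsl : ∀ x ∈ interior (Set.Icc s t), (m : ℝ) - D ≤ deriv y x ∧ deriv y x ≤ m + D := by
    intro x hx
    rw [(hder x hx).deriv]
    rw [interior_Icc] at hx
    have := abs_le.1 (h.slope x ⟨hs.trans hx.1.le, hx.2.le.trans ht⟩)
    constructor <;> linarith
  constructor
  · exact Convex.mul_sub_le_image_sub_of_le_deriv (convex_Icc s t) hcont hdiff (fun x hx => (hsl x hx).1)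
      s ⟨le_rfl, hst⟩ t ⟨hst, le_rfl⟩ hst
  · exact Convex.image_sub_le_mul_sub_of_deriv_le (convex_Icc s t) hcont hdiff (fun x hx => (hsl x hx).2)
      s ⟨le_rfl, hst⟩ t ⟨hst, le_rfl⟩ hst

/-- many primes in short intervals, in increasing order -/
lemma many {δ η : ℝ} {X₀ : ℕ} (hH : ∀ X Y : ℕ, X₀ ≤ X → (X : ℝ) ^ (1 - δ) ≤ Y → Y ≤ X →
    η * Y / Real.log X ≤ (((Ioc X (X + Y)).filter Nat.Prime).card : ℝ)) {X Y K : ℕ} (h0 : X₀ ≤ X)
    (h1 : (X : ℝ) ^ (1 - δ) ≤ Y) (h2 : Y ≤ X) (hK : (K : ℝ) ≤ η * Y / Real.log X) :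
    ∃ r : ℕ → ℕ, (∀ k < K, (r k).Prime ∧ X < r k ∧ r k ≤ X + Y) ∧
      ∀ k k', k < k' → k' < K → r k < r k' := by
  set S := (Ioc X (X + Y)).filter Nat.Prime with hS
  have hc : K ≤ S.card := by
    have := hK.trans (hH X Y h0 h1 h2)
    exact_mod_cast this
  refine ⟨fun k => if h : k < K then S.orderEmbOfCardLe hc ⟨k, h⟩ else 0, fun k hk => ?_,
    fun k k' hkk hk' => ?_⟩
  · simp only
    rw [dif_pos hk]
    have hm := S.orderEmbOfCardLe_mem hc ⟨k, hk⟩
    have hm2 := mem_filter.1 (show _ ∈ (Ioc X (X + Y)).filter Nat.Prime from hm)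
    have hm3 := mem_Ioc.1 hm2.1
    exact ⟨hm2.2, hm3.1, hm3.2⟩
  · simp only
    rw [dif_pos (hkk.trans hk'), dif_pos hk']
    exact (S.orderEmbOfCardLe hc).strictMono (by exact hkk)

/-- odd primes are at distance two -/
lemma dist_two {K : ℕ} {r : ℕ → ℕ} (hp : ∀ k < K, (r k).Prime ∧ 2 < r k)
    (hm : ∀ k k', k < k' → k' < K → r k < r k') (k j : ℕ) (h : k + j < K) : r k + 2 * j ≤ r (k + j) := by
  induction j with
  | zero => simp
  | succ j ih =>
    have h1 := ih (by omega)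
    have h2 := hm (k + j) (k + (j + 1)) (by omega) h
    obtain ⟨p1, q1⟩ := hp (k + j) (by omega)
    obtain ⟨p2, q2⟩ := hp (k + (j + 1)) h
    have o1 := p1.odd_of_ne_two (by omega)
    have o2 := p2.odd_of_ne_two (by omega)
    obtain ⟨a, ha⟩ := o1
    obtain ⟨b, hb⟩ := o2
    omega

/-- **The children of an interval.** -/
theorem step {δ η : ℝ} {X₀ : ℕ} (hH : ∀ X Y : ℕ, X₀ ≤ X → (X : ℝ) ^ (1 - δ) ≤ Y → Y ≤ X →
    η * Y / Real.log X ≤ (((Ioc X (X + Y)).filter Nat.Prime).card : ℝ)) (hδ : 0 < δ) (hδ1 : δ < 1)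
    (hη : 0 < η) {t0 t1 D : ℝ} (hD : 0 ≤ D) {m K : ℕ} {y y' : ℝ → ℝ}
    (hy : Lc t0 t1 D m y y') (hmD : D < m) {κ : ℝ} (hκ0 : 0 < κ) (hκ1 : κ ≤ 1)
    (hbig : (X₀ : ℝ) + 3 ≤ Real.exp (m * t0 - D)) (hκ : 8 * Real.exp (-(δ * (m * t0 - D))) ≤ κ)
    (hK : (K : ℝ) ≤ η * κ * Real.exp (m * t0 - D) / (4 * (m * t1 + D + 1)))
    {l h : ℝ} (hl : t0 ≤ l) (hlh : l ≤ h) (hh : h ≤ t1) (hlen : κ ≤ (m - D) * (h - l)) :
    ∃ lo' hi' : ℕ → ℝ, (∀ k < K, l ≤ lo' k ∧ lo' k ≤ hi' k ∧ hi' k ≤ h ∧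
      Real.exp (-(m * t1 + D)) / (3 * (m + D)) ≤ hi' k - lo' k ∧
      ∀ t ∈ Set.Icc (lo' k) (hi' k), (⌊Real.exp (y t)⌋₊).Prime) ∧
      ∀ k k', k < k' → k' < K →
        hi' k + ((k' : ℝ) - k) * (Real.exp (-(m * t1 + D)) / (m + D)) ≤ lo' k' := by
  have hm0 : 0 < (m : ℝ) := by linarith
  have hmp : 0 < (m : ℝ) + D := by linarith
  have hmm : 0 < (m : ℝ) - D := by linarith
  have hlt1 : l ≤ t1 := hlh.trans hh
  have ht01 : t0 ≤ t1 := hl.trans hlt1
  have near := fun t (ht : t ∈ Set.Icc t0 t1) => abs_le.1 (hy.near t ht)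
  have hylo : m * t0 - D ≤ y l := by
    have h1 := (near l ⟨hl, hlt1⟩).1
    have h2 : m * t0 ≤ m * l := mul_le_mul_of_nonneg_left hl hm0.le
    linarith
  have hyup : ∀ t ∈ Set.Icc t0 t1, y t ≤ m * t1 + D := by
    intro t ht
    have h1 := (near t ht).2
    have h2 : m * t ≤ m * t1 := mul_le_mul_of_nonneg_left ht.2 hm0.le
    linarith
  set E := Real.exp (y l) with hE
  have hE0 : 0 < E := Real.exp_pos _
  have hElo : Real.exp (m * t0 - D) ≤ E := Real.exp_le_exp.2 hylo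
  have hE3 : (X₀ : ℝ) + 3 ≤ E := hbig.trans hElo
  have hX00 : (0 : ℝ) ≤ X₀ := Nat.cast_nonneg _
  have hE3' : 3 ≤ E := by linarith
  -- the length of the range
  have hκE : 8 * E ^ (1 - δ) ≤ κ * E := by
    have h1 : 8 * Real.exp (-(δ * y l)) ≤ κ := by
      refine le_trans ?_ hκ
      have h2 : δ * (m * t0 - D) ≤ δ * y l := mul_le_mul_of_nonneg_left hylo hδ.le
      have := Real.exp_le_exp.2 (neg_le_neg h2)
      linarith
    have h2 : E ^ (1 - δ) = Real.exp (-(δ * y l)) * E := by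
      rw [hE, ← Real.exp_mul, ← Real.exp_add]
      congr 1
      ring
    rw [h2]
    calc 8 * (Real.exp (-(δ * y l)) * E) = (8 * Real.exp (-(δ * y l))) * E := by ring
      _ ≤ κ * E := by gcongr
  have hE1 : 1 ≤ E ^ (1 - δ) := Real.one_le_rpow (by linarith) (by linarith)
  have hκE8 : 8 ≤ κ * E := by linarith
  set X := ⌈E⌉₊ with hX
  have hX1 : E ≤ X := Nat.le_ceil _
  have hX2 : (X : ℝ) < E + 1 := Nat.ceil_lt_add_one hE0.le
  set Y := ⌊κ * E / 2⌋₊ with hY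
  have hY1 : (Y : ℝ) ≤ κ * E / 2 := Nat.floor_le (by positivity)
  have hY2 : κ * E / 2 < Y + 1 := Nat.lt_floor_add_one _
  have hYX : Y ≤ X := by
    have : (Y : ℝ) ≤ X := by nlinarith
    exact_mod_cast this
  have hXE : (X : ℝ) ≤ 2 * E := by linarith
  have hY4 : κ * E / 4 ≤ Y := by linarith
  have hpow : (X : ℝ) ^ (1 - δ) ≤ Y := by
    have h1 : (X : ℝ) ^ (1 - δ) ≤ (2 * E) ^ (1 - δ) :=
      Real.rpow_le_rpow (Nat.cast_nonneg _) hXE (by linarith)
    have h2 : (2 * E) ^ (1 - δ) ≤ 2 * E ^ (1 - δ) := by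
      rw [Real.mul_rpow (by norm_num) hE0.le]
      have h3 : (2 : ℝ) ^ (1 - δ) ≤ 2 := by
        calc (2 : ℝ) ^ (1 - δ) ≤ 2 ^ (1 : ℝ) := Real.rpow_le_rpow_of_exponent_le (by norm_num) (by linarith)
          _ = 2 := Real.rpow_one _
      gcongr
    linarith
  have hlogX : Real.log X ≤ m * t1 + D + 1 := by
    have h1 : Real.log X ≤ Real.log (2 * E) := Real.log_le_log (by linarith) hXE
    rw [Real.log_mul (by norm_num) hE0.ne', hE, Real.log_exp] at h1
    have h2 := hyup l ⟨hl, hlt1⟩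
    have h3 : Real.log 2 ≤ 1 := by
      have := Real.log_two_lt_d9
      linarith
    linarith
  have hlogX0 : 0 < Real.log X := Real.log_pos (by linarith)
  have hKY : (K : ℝ) ≤ η * Y / Real.log X := by
    refine hK.trans ?_
    have hden : 0 < m * t1 + D + 1 := hlogX0.trans_le hlogX
    calc η * κ * Real.exp (m * t0 - D) / (4 * (m * t1 + D + 1)) ≤
          η * κ * E / (4 * (m * t1 + D + 1)) := by gcongr
      _ = η * (κ * E / 4) / (m * t1 + D + 1) := by field_simp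
      _ ≤ η * Y / (m * t1 + D + 1) := by gcongr
      _ ≤ η * Y / Real.log X := by gcongr
  have hX0X : X₀ ≤ X := by
    have : (X₀ : ℝ) ≤ X := by linarith
    exact_mod_cast this
  obtain ⟨r, hr1, hr2⟩ := many hH hX0X hpow hYX hKY
  have hr3 : ∀ k < K, (r k).Prime ∧ 2 < r k := by
    intro k hk
    obtain ⟨g1, g2, _⟩ := hr1 k hk
    refine ⟨g1, ?_⟩
    have : (3 : ℝ) ≤ X := hE3'.trans hX1
    have : 3 ≤ X := by exact_mod_cast this
    omega
  -- the end point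
  have hend : E * (1 + κ) ≤ Real.exp (y h) := by
    have h1 := (hy.mvt hl hlh hh).1
    have h2 : y l + κ ≤ y h := by linarith
    calc E * (1 + κ) ≤ E * Real.exp κ := by
          gcongr
          linarith [Real.add_one_le_exp κ]
      _ = Real.exp (y l + κ) := by rw [hE, Real.exp_add]
      _ ≤ _ := Real.exp_le_exp.2 h2
  have hcontlh : ContinuousOn y (Set.Icc l h) := hy.cont.mono fun x hx => ⟨hl.trans hx.1, hx.2.trans hh⟩
  have hex : ∀ v : ℝ, E ≤ v → v ≤ E * (1 + κ) → ∃ t ∈ Set.Icc l h, Real.exp (y t) = v := by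
    intro v hv1 hv2
    have hv0 : 0 < v := by linarith
    have h1 : Real.log v ∈ Set.Icc (y l) (y h) := by
      constructor
      · rw [Real.le_log_iff_exp_le hv0]; exact hv1
      · rw [Real.log_le_iff_le_exp hv0]; exact hv2.trans hend
    obtain ⟨t, ht, hty⟩ := intermediate_value_Icc hlh hcontlh h1
    exact ⟨t, ht, by rw [hty, Real.exp_log hv0]⟩
  have hbd : ∀ k < K, E ≤ r k ∧ ((r k : ℝ) + 1 / 2) ≤ E * (1 + κ) := by
    intro k hk
    obtain ⟨_, g2, g3⟩ := hr1 k hk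
    have g2' : (X : ℝ) < r k := by exact_mod_cast g2
    have g3' : (r k : ℝ) ≤ X + Y := by exact_mod_cast g3
    constructor
    · linarith
    · have e : E * (1 + κ) = E + κ * E := by ring
      rw [e]
      linarith
  have hch : ∀ k, ∃ s t : ℝ, k < K → s ∈ Set.Icc l h ∧ t ∈ Set.Icc l h ∧
      Real.exp (y s) = r k ∧ Real.exp (y t) = r k + 1 / 2 := by
    intro k
    by_cases hk : k < K
    · obtain ⟨b1, b2⟩ := hbd k hk
      obtain ⟨s, hs, hs2⟩ := hex (r k) b1 (by linarith)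
      obtain ⟨t, ht, ht2⟩ := hex (r k + 1 / 2) (by linarith) b2
      exact ⟨s, t, fun _ => ⟨hs, ht, hs2, ht2⟩⟩
    · exact ⟨0, 0, fun h => absurd h hk⟩
  choose lo' hi' hlh' using hch
  -- monotonicity
  have hmono : ∀ s ∈ Set.Icc l h, ∀ t ∈ Set.Icc l h, s ≤ t → y s ≤ y t := by
    intro s hs t ht hst
    have h1 := (hy.mvt (hl.trans hs.1) hst (ht.2.trans hh)).1
    have h2 : 0 ≤ (m - D) * (t - s) := mul_nonneg hmm.le (by linarith)
    linarith
  have hle_of : ∀ s ∈ Set.Icc l h, ∀ t ∈ Set.Icc l h, y s < y t → s ≤ t := by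
    intro s hs t ht hst
    by_contra hc
    have := hmono t ht s hs (not_le.1 hc).le
    linarith
  -- lengths
  have hlen2 : ∀ s ∈ Set.Icc l h, ∀ t ∈ Set.Icc l h, ∀ a b : ℝ, 0 < a → a < b → Real.exp (y s) = a →
      Real.exp (y t) = b → b ≤ Real.exp (m * t1 + D) → (b - a) * (Real.exp (-(m * t1 + D)) / (m + D)) ≤ t - s := by
    intro s hs t ht a b ha hab hsa htb hb
    have hylt : y s < y t := by
      rw [← Real.exp_lt_exp, hsa, htb]
      exact hab
    have hst := hle_of s hs t ht hylt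
    have h1 := (hy.mvt (hl.trans hs.1) hst (ht.2.trans hh)).2
    have h2 : y t - y s = Real.log b - Real.log a := by
      rw [← hsa, ← htb, Real.log_exp, Real.log_exp]
    have hb0 : 0 < b := ha.trans hab
    have h3 : (b - a) / b ≤ Real.log b - Real.log a := by
      have h4 := Real.log_le_sub_one_of_pos (show 0 < a / b by positivity)
      rw [Real.log_div ha.ne' hb0.ne'] at h4
      have h5 : (b - a) / b = 1 - a / b := by field_simp
      linarith
    have h4 : (b - a) * Real.exp (-(m * t1 + D)) ≤ (b - a) / b := by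
      rw [Real.exp_neg, div_eq_mul_inv]
      have : (Real.exp (m * t1 + D))⁻¹ ≤ b⁻¹ := by gcongr
      exact mul_le_mul_of_nonneg_left this (by linarith)
    rw [← mul_div_assoc, div_le_iff₀ hmp]
    linarith
  have hup2 : ∀ k < K, (r k : ℝ) + 1 / 2 ≤ Real.exp (m * t1 + D) := by
    intro k hk
    obtain ⟨_, g2, _, g4⟩ := hlh' k hk
    rw [← g4]
    exact Real.exp_le_exp.2 (hyup _ ⟨hl.trans g2.1, g2.2.trans hh⟩)
  refine ⟨lo', hi', fun k hk => ?_, fun k k' hkk hk' => ?_⟩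
  · obtain ⟨g1, g2, g3, g4⟩ := hlh' k hk
    have hr0 : (0 : ℝ) < r k := by exact_mod_cast (hr3 k hk).1.pos
    have hL := hlen2 _ g1 _ g2 (r k) (r k + 1 / 2) hr0 (by linarith) g3 g4 (hup2 k hk)
    have hpos : 0 < Real.exp (-(m * t1 + D)) / (m + D) := by positivity
    refine ⟨g1.1, by nlinarith, g2.2, ?_, fun t ht => ?_⟩
    · refine le_trans ?_ hL
      rw [div_mul_eq_div_div_swap]
      nlinarith
    · have htI : t ∈ Set.Icc l h := ⟨g1.1.trans ht.1, ht.2.trans g2.2⟩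
      have e1 : (r k : ℝ) ≤ Real.exp (y t) := by
        rw [← g3]
        exact Real.exp_le_exp.2 (hmono _ g1 _ htI ht.1)
      have e2 : Real.exp (y t) ≤ r k + 1 / 2 := by
        rw [← g4]
        exact Real.exp_le_exp.2 (hmono _ htI _ g2 ht.2)
      have e3 : ⌊Real.exp (y t)⌋₊ = r k := by
        rw [Nat.floor_eq_iff (Real.exp_pos _).le]
        exact ⟨e1, by linarith⟩
      rw [e3]
      exact (hr3 k hk).1
  · have hkK : k < K := hkk.trans hk'
    obtain ⟨g1, g2, g3, g4⟩ := hlh' k hkK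
    obtain ⟨i1, i2, i3, i4⟩ := hlh' k' hk'
    obtain ⟨j, rfl⟩ := Nat.exists_eq_add_of_lt hkk
    have hdt := dist_two hr3 hr2 k (j + 1) (by omega)
    have hdt' : (r k : ℝ) + 2 * (j + 1) ≤ r (k + j + 1) := by
      have : k + (j + 1) = k + j + 1 := by ring
      rw [this] at hdt
      exact_mod_cast hdt
    have hj0 : (0 : ℝ) ≤ j := Nat.cast_nonneg j
    have hr0 : (0 : ℝ) < r k := by exact_mod_cast (hr3 k hkK).1.pos
    have hL := hlen2 _ g2 _ i1 (r k + 1 / 2) (r (k + j + 1)) (by linarith) (by linarith) g4 i3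
      (by linarith [hup2 _ hk'])
    have hpos : 0 < Real.exp (-(m * t1 + D)) / (m + D) := by positivity
    have e : (((k + j + 1 : ℕ) : ℝ) - k) = j + 1 := by push_cast; ring
    rw [e]
    have : ((j : ℝ) + 1) * (Real.exp (-(m * t1 + D)) / (m + D)) ≤
        ((r (k + j + 1) : ℝ) - (r k + 1 / 2)) * (Real.exp (-(m * t1 + D)) / (m + D)) := by
      refine mul_le_mul_of_nonneg_right ?_ hpos.le
      linarith
    linarith

end Pool.Agent.Q43.LC
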