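import Mathlib
import Pool.Agent.Q43.LC.Cantor
import Pool.Agent.Q43.LC.Step

set_option autoImplicit false

/-!
# Primes at all indices of a sequence with large bounded ratios
-/

namespace Pool.Agent.Q43.LC

open Filter Topology Finset
open scoped ENNReal NNReal

/-- the preceding index -/
def pv (n : ℕ → ℕ) : ℕ → ℕ
  | 0 => 0
  | i + 1 => n i

/-- the nodes -/
noncomputable def nodes (cl ch : ℕ → ℝ → ℝ → ℕ → ℝ) (t0 t1 : ℝ) (K : ℕ → ℕ) : ℕ → ℕ → ℝ × ℝ
  | 0, _ => (t0, t1)
  | i + 1, a => (cl i (nodes cl ch t0 t1 K i (a / K i)).1 (nodes cl ch t0 t1 K i (a / K i)).2 (a % K i),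
      ch i (nodes cl ch t0 t1 K i (a / K i)).1 (nodes cl ch t0 t1 K i (a / K i)).2 (a % K i))

/-- an abstract form of the construction -/
theorem build {K : ℕ → ℕ} {lam : ℕ → ℝ} {t0 t1 : ℝ} {V : ℕ → ℝ → ℝ → Prop} {G : ℕ → Set ℝ}
    (hK : ∀ i, 2 ≤ K i) (hlam : ∀ i, 0 < lam i) (hV0 : V 0 t0 t1)
    (hVle : ∀ i l h, V i l h → t0 ≤ l ∧ l ≤ h ∧ h ≤ t1)
    (hstep : ∀ i l h, V i l h → ∃ lo' hi' : ℕ → ℝ, (∀ k < K i, l ≤ lo' k ∧ hi' k ≤ h ∧
      V (i + 1) (lo' k) (hi' k) ∧ ∀ t ∈ Set.Icc (lo' k) (hi' k), t ∈ G i) ∧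
      ∀ k k', k < k' → k' < K i → hi' k + ((k' : ℝ) - k) * lam i ≤ lo' k')
    {s C : ℝ} (hs : 0 < s) (hs1 : s ≤ 1) (hC : 0 < C)
    (hg : ∀ i, 2 ≤ C * (K i * lam i) ^ s * QQ K i) :
    ENNReal.ofReal s ≤ dimH {t ∈ Set.Icc t0 t1 | ∀ i, t ∈ G i} := by
  have hex : ∀ i l h, ∃ lo' hi' : ℕ → ℝ, V i l h → (∀ k < K i, l ≤ lo' k ∧ hi' k ≤ h ∧
      V (i + 1) (lo' k) (hi' k) ∧ ∀ t ∈ Set.Icc (lo' k) (hi' k), t ∈ G i) ∧
      ∀ k k', k < k' → k' < K i → hi' k + ((k' : ℝ) - k) * lam i ≤ lo' k' := by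
    intro i l h
    by_cases hv : V i l h
    · obtain ⟨a, b, hab⟩ := hstep i l h hv
      exact ⟨a, b, fun _ => hab⟩
    · exact ⟨fun _ => 0, fun _ => 0, fun h' => absurd h' hv⟩
  choose cl ch hc using hex
  set nd := nodes cl ch t0 t1 K with hnd
  have hmod : ∀ i a, a % K i < K i := fun i a => Nat.mod_lt _ (by have := hK i; omega)
  have hval : ∀ i a, V i (nd i a).1 (nd i a).2 := by
    intro i
    induction i with
    | zero => intro a; exact hV0
    | succ i ih =>
      intro a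
      exact ((hc i _ _ (ih (a / K i))).1 (a % K i) (hmod i a)).2.2.1
  have e1 : ∀ i a k, k < K i → (a * K i + k) / K i = a := by
    intro i a k hk
    rw [mul_comm, Nat.mul_add_div (by omega), Nat.div_eq_of_lt hk, add_zero]
  have e2 : ∀ i a k, k < K i → (a * K i + k) % K i = k := by
    intro i a k hk
    rw [mul_comm, Nat.mul_add_mod, Nat.mod_eq_of_lt hk]
  have hS : Sch K (fun i a => (nd i a).1) (fun i a => (nd i a).2) lam := by
    refine ⟨hK, hlam, fun i a _ => (hVle i _ _ (hval i a)).2.1, fun i a k _ hk => ?_, fun i a k _ hk => ?_,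
      fun i a k k' _ hkk hk' => ?_⟩
    · show (nd i a).1 ≤ cl i (nd i ((a * K i + k) / K i)).1 (nd i ((a * K i + k) / K i)).2
        ((a * K i + k) % K i)
      rw [e1 i a k hk, e2 i a k hk]
      exact ((hc i _ _ (hval i a)).1 k hk).1
    · show ch i (nd i ((a * K i + k) / K i)).1 (nd i ((a * K i + k) / K i)).2
        ((a * K i + k) % K i) ≤ (nd i a).2
      rw [e1 i a k hk, e2 i a k hk]
      exact ((hc i _ _ (hval i a)).1 k hk).2.1
    · show ch i (nd i ((a * K i + k) / K i)).1 (nd i ((a * K i + k) / K i)).2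
        ((a * K i + k) % K i) + ((k' : ℝ) - k) * lam i ≤
        cl i (nd i ((a * K i + k') / K i)).1 (nd i ((a * K i + k') / K i)).2 ((a * K i + k') % K i)
      rw [e1 i a k (hkk.trans hk'), e2 i a k (hkk.trans hk'), e1 i a k' hk', e2 i a k' hk']
      exact (hc i _ _ (hval i a)).2 k k' hkk hk'
  refine (dim hS hs hs1 hC hg).trans (dimH_mono ?_)
  rintro _ ⟨u, ⟨hu0, hu1⟩, rfl⟩
  refine ⟨?_, fun i => ?_⟩
  · exact pt_mem hS hu0 hu1 0
  · have h1 := pt_mem hS hu0 hu1 (i + 1)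
    set a := dg K (i + 1) u
    exact ((hc i _ _ (hval i (a / K i))).1 (a % K i) (hmod i a)).2.2.2 _ h1

/-- **Primes at all indices of a sequence.** -/
theorem seq {δ η : ℝ} {X₀ : ℕ} (hH : ∀ X Y : ℕ, X₀ ≤ X → (X : ℝ) ^ (1 - δ) ≤ Y → Y ≤ X →
    η * Y / Real.log X ≤ (((Ioc X (X + Y)).filter Nat.Prime).card : ℝ)) (hδ : 0 < δ) (hδ1 : δ < 1)
    (hη : 0 < η) {C0 : ℕ} (hC0 : 4 / δ ≤ C0) (h8 : 8 ≤ C0) (C1 : ℕ) {t0 t1 D : ℝ} (ht0 : 0 < t0)
    (h01 : t0 < t1) (h2 : t1 ≤ 2 * t0) (hD : 0 ≤ D) {s ε : ℝ} (hs : 0 < s) (hs1 : s ≤ 1) (hε : 0 < ε)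
    (hε8 : ε ≤ t0 / 8)
    (hbr : 0 ≤ t0 - (2 * (t1 - t0) + 2 * ε) - s * (C1 * (t1 - t0) + t1 + 2 * ε * C1)) :
    ∃ N : ℕ, ∀ (n : ℕ → ℕ) (y y' : ℕ → ℝ → ℝ), N ≤ n 0 → (∀ i, C0 * n i ≤ n (i + 1)) →
      (∀ i, n (i + 1) ≤ C1 * n i) → (∀ i, Lc t0 t1 D (n i) (y i) (y' i)) →
      ENNReal.ofReal s ≤ dimH {t ∈ Set.Icc t0 t1 | ∀ i, (⌊Real.exp (y i t)⌋₊).Prime} := by
  have ht1 : 0 < t1 := ht0.trans h01
  have hτ : 0 < t1 - t0 := by linarith
  -- the conditions on large indices
  have hlin : ∀ c : ℝ, 0 < c → Tendsto (fun n : ℕ => c * (n : ℝ)) atTop atTop := fun c hc =>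
    tendsto_natCast_atTop_atTop.const_mul_atTop hc
  have hsmall : ∀ A B c : ℝ, 0 < c → ∀ᶠ n : ℕ in atTop, (A * n + B) * Real.exp (-(c * n)) ≤ 1 := by
    intro A B c hc
    have l0 := (Real.tendsto_pow_mul_exp_neg_atTop_nhds_zero 0).comp (hlin c hc)
    have l1 := (Real.tendsto_pow_mul_exp_neg_atTop_nhds_zero 1).comp (hlin c hc)
    have l2 : Tendsto (fun n : ℕ => (A * n + B) * Real.exp (-(c * n))) atTop (𝓝 0) := by
      have := (l1.const_mul (A / c)).add (l0.const_mul B)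
      simp only [mul_zero, add_zero] at this
      refine this.congr fun n => ?_
      simp only [Function.comp, pow_one, pow_zero, one_mul]
      field_simp
    exact (l2.eventually_lt_const one_pos).mono fun n hn => hn.le
  have g1 := hsmall (8 * t1 * Real.exp (2 * D) / η) (8 * (D + 1) * Real.exp (2 * D) / η) ε hε
  have g2 := hsmall (Real.exp D) (D * Real.exp D) ε hε
  have g3 := (hlin (δ * t0 / 2) (by positivity)).eventually_ge_atTop (3 + D + δ * D)
  have g4 := (Real.tendsto_exp_atTop.comp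
    (tendsto_atTop_add_const_right _ (-D) (hlin t0 ht0))).eventually_ge_atTop ((X₀ : ℝ) + 3)
  have g5 := (hlin (t0 / 2) (by positivity)).eventually_ge_atTop 2
  have g6 := (tendsto_natCast_atTop_atTop (R := ℝ)).eventually_ge_atTop (4 * D + 1 + 1 / (t1 - t0))
  obtain ⟨N, hN⟩ := eventually_atTop.1 (g1.and (g2.and (g3.and (g4.and (g5.and g6)))))
  refine ⟨N + 1, fun n y y' hn0 hn1 hn2 hy => ?_⟩
  have hnN : ∀ i, N + 1 ≤ n i := by
    intro i
    induction i with
    | zero => exact hn0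
    | succ i ih =>
      have h3 : 1 * n i ≤ C0 * n i := Nat.mul_le_mul_right _ (by omega)
      have := hn1 i
      omega
  have hC00 : (8 : ℝ) ≤ C0 := by exact_mod_cast h8
  -- the preceding index
  have hpv : ∀ i, (C0 : ℝ) * pv n i ≤ n i := by
    intro i
    cases i with
    | zero => simp [pv]
    | succ i =>
      show (C0 : ℝ) * n i ≤ n (i + 1)
      exact_mod_cast hn1 i
  have hpv0 : ∀ i, (0 : ℝ) ≤ pv n i := fun i => Nat.cast_nonneg _
  have hpv8 : ∀ i, 8 * (pv n i : ℝ) ≤ n i := fun i =>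
    (mul_le_mul_of_nonneg_right hC00 (hpv0 i)).trans (hpv i)
  have hpvt : ∀ i, (pv n i : ℝ) * t1 ≤ δ * t0 / 2 * n i := by
    intro i
    have h3 : 4 / δ * pv n i ≤ n i := (mul_le_mul_of_nonneg_right hC0 (hpv0 i)).trans (hpv i)
    have h4 : (pv n i : ℝ) ≤ δ / 4 * n i := by
      have : (pv n i : ℝ) = δ / 4 * (4 / δ * pv n i) := by field_simp
      rw [this]
      gcongr
    have h5 : (0 : ℝ) ≤ n i := Nat.cast_nonneg _
    calc (pv n i : ℝ) * t1 ≤ (δ / 4 * n i) * (2 * t0) := by gcongr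
      _ = _ := by ring
  -- the parameters
  set κ : ℕ → ℝ := fun i => Real.exp (-(pv n i * t1 + D)) with hκ
  set A : ℕ → ℝ := fun i => η * κ i * Real.exp (n i * t0 - D) / (4 * (n i * t1 + D + 1)) with hA
  set K : ℕ → ℕ := fun i => ⌊A i⌋₊ with hK
  set lam : ℕ → ℝ := fun i => Real.exp (-(n i * t1 + D)) / (n i + D) with hlam
  have hn00 : ∀ i, (0 : ℝ) < n i := fun i => by
    have := hnN i
    exact_mod_cast (by omega : 0 < n i)
  have hden : ∀ i, 0 < (n i : ℝ) * t1 + D + 1 := fun i => by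
    have := hn00 i
    positivity
  have hA0 : ∀ i, 0 ≤ A i := fun i => by
    have := hden i
    simp only [hA, hκ]
    positivity
  have hA2 : ∀ i, 2 * Real.exp (n i * t0 - pv n i * t1 - ε * n i) ≤ A i := by
    intro i
    obtain ⟨f1, _⟩ := hN (n i) (by have := hnN i; omega)
    have hd := hden i
    simp only [hA, hκ]
    rw [le_div_iff₀ (by positivity)]
    have e1 : η * Real.exp (-(pv n i * t1 + D)) * Real.exp (n i * t0 - D) =
        η * Real.exp (-(2 * D)) * Real.exp (n i * t0 - pv n i * t1) := by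
      rw [mul_assoc, mul_assoc, ← Real.exp_add, ← Real.exp_add]
      congr 2
      ring
    have e2 : 2 * Real.exp (n i * t0 - pv n i * t1 - ε * n i) * (4 * (n i * t1 + D + 1)) =
        Real.exp (n i * t0 - pv n i * t1) * (η * Real.exp (-(2 * D)) *
          ((8 * t1 * Real.exp (2 * D) / η * n i + 8 * (D + 1) * Real.exp (2 * D) / η) *
            Real.exp (-(ε * n i)))) := by
      have e3 : Real.exp (n i * t0 - pv n i * t1 - ε * n i) =
          Real.exp (n i * t0 - pv n i * t1) * Real.exp (-(ε * n i)) := by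
        rw [← Real.exp_add]
        congr 1
      rw [e3]
      have e4 : Real.exp (-(2 * D)) * Real.exp (2 * D) = 1 := by
        rw [← Real.exp_add]
        simp
      calc _ = Real.exp (n i * t0 - pv n i * t1) * Real.exp (-(ε * n i)) *
            (8 * (n i * t1 + D + 1)) * 1 := by ring
        _ = Real.exp (n i * t0 - pv n i * t1) * Real.exp (-(ε * n i)) *
            (8 * (n i * t1 + D + 1)) * (Real.exp (-(2 * D)) * Real.exp (2 * D)) := by rw [e4]
        _ = _ := by
          field_simp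
          ring
    rw [e1, e2]
    have h5 : 0 < Real.exp (n i * t0 - pv n i * t1) := Real.exp_pos _
    calc Real.exp (n i * t0 - pv n i * t1) * (η * Real.exp (-(2 * D)) *
          ((8 * t1 * Real.exp (2 * D) / η * n i + 8 * (D + 1) * Real.exp (2 * D) / η) *
            Real.exp (-(ε * n i)))) ≤ Real.exp (n i * t0 - pv n i * t1) * (η * Real.exp (-(2 * D)) * 1) := by
          gcongr
      _ = _ := by ring
  have hbig : ∀ i, 2 ≤ Real.exp (n i * t0 - pv n i * t1 - ε * n i) := by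
    intro i
    obtain ⟨_, _, _, _, f5, _⟩ := hN (n i) (by have := hnN i; omega)
    have h3 : (pv n i : ℝ) * t1 ≤ n i * t0 / 4 := by
      have := hpv8 i
      have h4 : (pv n i : ℝ) * t1 ≤ pv n i * (2 * t0) := mul_le_mul_of_nonneg_left h2 (hpv0 i)
      nlinarith
    have h4 : ε * n i ≤ n i * t0 / 8 := by
      have := hn00 i
      nlinarith
    have h5 : 2 ≤ n i * t0 - pv n i * t1 - ε * n i := by
      have := hn00 i
      nlinarith
    calc (2 : ℝ) ≤ 2 + 1 := by norm_num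
      _ ≤ Real.exp 2 := Real.add_one_le_exp 2
      _ ≤ _ := Real.exp_le_exp.2 h5
  have hKlo : ∀ i, Real.exp (n i * t0 - pv n i * t1 - ε * n i) ≤ K i := by
    intro i
    have h3 := hA2 i
    have h4 := hbig i
    have h5 := Nat.lt_floor_add_one (A i)
    have h6 : A i < (K i : ℝ) + 1 := h5
    linarith
  have hK2 : ∀ i, 2 ≤ K i := by
    intro i
    have := (hbig i).trans (hKlo i)
    exact_mod_cast this
  have hlam0 : ∀ i, 0 < lam i := fun i => by
    have := hn00 i
    simp only [hlam]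
    positivity
  have hlamlo : ∀ i, Real.exp (-(n i * t1) - ε * n i) ≤ lam i := by
    intro i
    obtain ⟨_, f2, _⟩ := hN (n i) (by have := hnN i; omega)
    have hp := hn00 i
    simp only [hlam]
    rw [le_div_iff₀ (by positivity)]
    have e1 : Real.exp (-(n i * t1) - ε * n i) * (n i + D) =
        Real.exp (-(n i * t1 + D)) * ((Real.exp D * n i + D * Real.exp D) * Real.exp (-(ε * n i))) := by
      have e3 : Real.exp (-(n i * t1) - ε * n i) = Real.exp (-(n i * t1 + D)) * Real.exp D *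
          Real.exp (-(ε * n i)) := by
        rw [← Real.exp_add, ← Real.exp_add]
        congr 1
        ring
      rw [e3]
      ring
    rw [e1]
    calc _ ≤ Real.exp (-(n i * t1 + D)) * 1 := by gcongr
      _ = _ := mul_one _
  -- the number of nodes
  have hQ : ∀ i, Real.exp (pv n i * (t0 - (2 * (t1 - t0) + 2 * ε))) ≤ QQ K i := by
    intro i
    induction i with
    | zero => simp [pv, QQ_zero]
    | succ i ih =>
      rw [QQ_succ]
      push_cast
      have h3 := hKlo i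
      calc Real.exp (pv n (i + 1) * (t0 - (2 * (t1 - t0) + 2 * ε))) ≤
            Real.exp (pv n i * (t0 - (2 * (t1 - t0) + 2 * ε))) *
            Real.exp (n i * t0 - pv n i * t1 - ε * n i) := by
            rw [← Real.exp_add]
            refine Real.exp_le_exp.2 ?_
            show (n i : ℝ) * _ ≤ _
            have h4 := hpv8 i
            have h5 := hpv0 i
            have h6 : (t1 - t0) * (8 * pv n i) ≤ (t1 - t0) * n i := mul_le_mul_of_nonneg_left h4 hτ.le
            have h7 : ε * (8 * pv n i) ≤ ε * n i := mul_le_mul_of_nonneg_left h4 hε.le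
            nlinarith [mul_nonneg hτ.le h5, mul_nonneg hε.le h5]
        _ ≤ QQ K i * K i := by gcongr
  -- the growth condition
  have hKl : ∀ i, Real.exp (-(n i * (t1 - t0)) - pv n i * t1 - 2 * ε * n i) ≤ K i * lam i := by
    intro i
    calc Real.exp (-(n i * (t1 - t0)) - pv n i * t1 - 2 * ε * n i) =
          Real.exp (n i * t0 - pv n i * t1 - ε * n i) * Real.exp (-(n i * t1) - ε * n i) := by
          rw [← Real.exp_add]
          congr 1
          ring
      _ ≤ _ := mul_le_mul (hKlo i) (hlamlo i) (Real.exp_pos _).le (Nat.cast_nonneg _)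
  have hKl0 : ∀ i, 0 < K i * lam i := fun i => (Real.exp_pos _).trans_le (hKl i)
  set C : ℝ := 2 + 2 / (K 0 * lam 0) ^ s with hCd
  have hC0' : 0 < 2 / ((K 0 : ℝ) * lam 0) ^ s := div_pos two_pos (Real.rpow_pos_of_pos (hKl0 0) s)
  have hg : ∀ i, 2 ≤ C * (K i * lam i) ^ s * QQ K i := by
    intro i
    have hp := Real.rpow_pos_of_pos (hKl0 i) s
    cases i with
    | zero =>
      rw [QQ_zero, Nat.cast_one, mul_one]
      calc (2 : ℝ) = 2 / (K 0 * lam 0) ^ s * (K 0 * lam 0) ^ s := by field_simp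
        _ ≤ _ := by
          refine mul_le_mul_of_nonneg_right ?_ hp.le
          rw [hCd]; linarith
    | succ i =>
      have h3 := hKl (i + 1)
      have h4 := hQ (i + 1)
      have h5 : 1 ≤ (K (i + 1) * lam (i + 1)) ^ s * QQ K (i + 1) := by
        calc (1 : ℝ) = Real.exp 0 := Real.exp_zero.symm
          _ ≤ Real.exp ((-(n (i + 1) * (t1 - t0)) - pv n (i + 1) * t1 - 2 * ε * n (i + 1)) * s +
              pv n (i + 1) * (t0 - (2 * (t1 - t0) + 2 * ε))) := by
            refine Real.exp_le_exp.2 ?_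
            have h6 : (n (i + 1) : ℝ) ≤ C1 * pv n (i + 1) := by
              show (n (i + 1) : ℝ) ≤ C1 * n i
              exact_mod_cast hn2 i
            have h7 := hpv0 (i + 1)
            set P := (pv n (i + 1) : ℝ) with hP
            have h8 : n (i + 1) * (t1 - t0) ≤ C1 * P * (t1 - t0) := mul_le_mul_of_nonneg_right h6 hτ.le
            have h9 : 2 * ε * n (i + 1) ≤ 2 * ε * (C1 * P) := mul_le_mul_of_nonneg_left h6 (by positivity)
            have h10 : s * (n (i + 1) * (t1 - t0) + P * t1 + 2 * ε * n (i + 1)) ≤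
                s * (C1 * P * (t1 - t0) + P * t1 + 2 * ε * (C1 * P)) :=
              mul_le_mul_of_nonneg_left (by linarith) hs.le
            have h11 : 0 ≤ P * (t0 - (2 * (t1 - t0) + 2 * ε) - s * (C1 * (t1 - t0) + t1 + 2 * ε * C1)) :=
              mul_nonneg h7 hbr
            nlinarith
          _ = Real.exp (-(n (i + 1) * (t1 - t0)) - pv n (i + 1) * t1 - 2 * ε * n (i + 1)) ^ s *
              Real.exp (pv n (i + 1) * (t0 - (2 * (t1 - t0) + 2 * ε))) := by
            rw [← Real.exp_mul, ← Real.exp_add]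
          _ ≤ _ := by gcongr
      have h6 : 2 ≤ C := by rw [hCd]; linarith
      rw [mul_assoc]
      nlinarith
  refine build (K := K) (lam := lam) (V := fun i l h => t0 ≤ l ∧ l ≤ h ∧ h ≤ t1 ∧ κ i ≤ (n i - D) * (h - l))
    (G := fun i => {t | (⌊Real.exp (y i t)⌋₊).Prime}) hK2 hlam0 ⟨le_rfl, h01.le, le_rfl, ?_⟩
    (fun i l h hv => ⟨hv.1, hv.2.1, hv.2.2.1⟩) ?_ hs hs1 (by positivity) hg
  · obtain ⟨_, _, _, _, _, f6⟩ := hN (n 0) (by have := hnN 0; omega)
    have h3 : κ 0 ≤ 1 := by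
      simp only [hκ]
      rw [Real.exp_le_one_iff]
      have := hpv0 0
      have : 0 ≤ pv n 0 * t1 := by positivity
      linarith
    have h4 : 1 / (t1 - t0) ≤ n 0 - D := by linarith
    rw [div_le_iff₀ hτ] at h4
    exact h3.trans h4
  · rintro i l h ⟨v1, v2, v3, v4⟩
    obtain ⟨_, _, f3, f4, _, f6⟩ := hN (n i) (by have := hnN i; omega)
    have hinv : 0 < 1 / (t1 - t0) := by positivity
    have hκ1 : κ i ≤ 1 := by
      simp only [hκ]
      rw [Real.exp_le_one_iff]
      have := hpv0 i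
      have : 0 ≤ pv n i * t1 := by positivity
      linarith
    have hκ8 : 8 * Real.exp (-(δ * (n i * t0 - D))) ≤ κ i := by
      have h3 : (8 : ℝ) ≤ Real.exp 3 := by
        have h4 : (2 : ℝ) ≤ Real.exp 1 := by linarith [Real.add_one_le_exp (1 : ℝ)]
        have h5 : Real.exp 3 = Real.exp 1 ^ 3 := by rw [← Real.exp_nat_mul]; norm_num
        rw [h5]
        calc (8 : ℝ) = 2 ^ 3 := by norm_num
          _ ≤ _ := by gcongr
      calc 8 * Real.exp (-(δ * (n i * t0 - D))) ≤ Real.exp 3 * Real.exp (-(δ * (n i * t0 - D))) := by gcongr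
        _ = Real.exp (3 - δ * (n i * t0 - D)) := by rw [← Real.exp_add]; congr 1
        _ ≤ _ := by
          refine Real.exp_le_exp.2 ?_
          have h5 := hpvt i
          nlinarith
    have f4' : (X₀ : ℝ) + 3 ≤ Real.exp (n i * t0 - D) := by
      have h := f4
      simp only [Function.comp] at h
      rwa [show t0 * (n i : ℝ) + -D = n i * t0 - D by ring] at h
    obtain ⟨lo', hi', g1, g2⟩ := step hH hδ hδ1 hη hD (hy i) (by linarith) (Real.exp_pos _) hκ1
      f4' hκ8 (Nat.floor_le (hA0 i)) v1 v2 v3 v4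
    refine ⟨lo', hi', fun k hk => ?_, g2⟩
    obtain ⟨c1, c2, c3, c4, c5⟩ := g1 k hk
    refine ⟨c1, c3, ⟨v1.trans c1, c2, c3.trans v3, ?_⟩, c5⟩
    show Real.exp (-((n i : ℝ) * t1 + D)) ≤ _
    have h3 : 3 * ((n i : ℝ) + D) ≤ n (i + 1) - D := by
      have h4 : 8 * (n i : ℝ) ≤ n (i + 1) := hpv8 (i + 1)
      linarith
    have h4 : 0 < 3 * ((n i : ℝ) + D) := by
      have := hn00 i
      positivity
    have h5 := c4
    rw [div_le_iff₀ h4] at h5
    have h6 : 0 ≤ hi' k - lo' k := by linarith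
    nlinarith

end Pool.Agent.Q43.LC
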