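import Mathlib
import Pool.Agent.Q43.LC.Seq

set_option autoImplicit false

/-!
# Lacunary sets of indices
-/

namespace Pool.Agent.Q43.LC

open Filter Topology Finset
open scoped ENNReal NNReal

/-- consecutive elements of `S` have ratio at least `C` -/
def Lac (C : ℕ) (S : Set ℕ) : Prop := ∀ m ∈ S, ∀ n ∈ S, m < n → C * m ≤ n

open Classical in
/-- the next index -/
noncomputable def nxt (C : ℕ) (S : Set ℕ) (a : ℕ) : ℕ :=
  if h : ∃ s, s ∈ S ∧ a < s ∧ s ≤ C ^ 2 * a then Nat.find h else C * a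

lemma nxt_spec {C : ℕ} (hC : 2 ≤ C) {S : Set ℕ} (hS : Lac C S) {a : ℕ} (_ : 1 ≤ a)
    (hI : ∀ s ∈ S, a < s → C * a ≤ s) :
    C * a ≤ nxt C S a ∧ nxt C S a ≤ C ^ 2 * a ∧ (∀ s ∈ S, nxt C S a < s → C * nxt C S a ≤ s) ∧
      ∀ s ∈ S, a < s → nxt C S a ≤ s := by
  classical
  unfold nxt
  split_ifs with h
  · obtain ⟨h1, h2, h3⟩ := Nat.find_spec h
    refine ⟨hI _ h1 h2, h3, fun s hs hlt => hS _ h1 s hs hlt, fun s hs hlt => ?_⟩
    by_contra hc
    push Not at hc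
    exact Nat.find_min h hc ⟨hs, hlt, by omega⟩
  · refine ⟨le_rfl, ?_, fun s hs hlt => ?_, fun s hs hlt => hI s hs hlt⟩
    · rw [pow_two, mul_assoc]
      calc C * a = 1 * (C * a) := (one_mul _).symm
        _ ≤ C * (C * a) := Nat.mul_le_mul_right _ (by omega)
    · by_contra hc
      push Not at hc
      refine h ⟨s, hs, ?_, ?_⟩
      · calc a = 1 * a := (one_mul _).symm
          _ ≤ C * a := Nat.mul_le_mul_right _ (by omega)
          _ < s := hlt
      · rw [pow_two, mul_assoc]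
        exact hc.le

/-- a lacunary set is contained in a sequence with bounded ratios -/
lemma exists_seq {C : ℕ} (hC : 2 ≤ C) {S : Set ℕ} (hS : Lac C S) {N : ℕ} (hN : 1 ≤ N) :
    ∃ n : ℕ → ℕ, N ≤ n 0 ∧ (∀ i, C * n i ≤ n (i + 1)) ∧ (∀ i, n (i + 1) ≤ C ^ 2 * n i) ∧
      ∀ s ∈ S, n 0 ≤ s → ∃ i, n i = s := by
  classical
  obtain ⟨a, haN, hI⟩ : ∃ a, N ≤ a ∧ ∀ s ∈ S, a < s → C * a ≤ s := by
    by_cases h : ∃ s ∈ S, N ≤ s
    · obtain ⟨s, hs, hNs⟩ := h
      exact ⟨s, hNs, fun r hr hlt => hS s hs r hr hlt⟩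
    · push Not at h
      exact ⟨N, le_rfl, fun s hs hlt => absurd (h s hs) (by omega)⟩
  set n : ℕ → ℕ := fun i => (nxt C S)^[i] a with hn
  have hsucc : ∀ i, n (i + 1) = nxt C S (n i) := fun i => Function.iterate_succ_apply' _ _ _
  have hinv : ∀ i, 1 ≤ n i ∧ ∀ s ∈ S, n i < s → C * n i ≤ s := by
    intro i
    induction i with
    | zero => exact ⟨hN.trans haN, hI⟩
    | succ i ih =>
      obtain ⟨h1, _, h3, _⟩ := nxt_spec hC hS ih.1 ih.2
      rw [hsucc]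
      refine ⟨?_, h3⟩
      have : 1 * 1 ≤ C * n i := Nat.mul_le_mul (by omega) ih.1
      omega
  have hsp := fun i => nxt_spec hC hS (hinv i).1 (hinv i).2
  have hgrow : ∀ i, n i < n (i + 1) := by
    intro i
    rw [hsucc]
    have h1 := (hsp i).1
    have h2 := (hinv i).1
    have : 2 * n i ≤ C * n i := Nat.mul_le_mul_right _ hC
    omega
  have hge : ∀ i, i ≤ n i := fun i => (strictMono_nat_of_lt_succ hgrow).le_apply
  refine ⟨n, haN, fun i => by rw [hsucc]; exact (hsp i).1, fun i => by rw [hsucc]; exact (hsp i).2.1,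
    fun s hs hs0 => ?_⟩
  have hex : ∃ i, s < n i := ⟨s + 1, by have := hge (s + 1); omega⟩
  set j := Nat.find hex with hj
  have hj1 : s < n j := Nat.find_spec hex
  have hj0 : j ≠ 0 := by
    intro h
    rw [h] at hj1
    omega
  obtain ⟨i, hi⟩ := Nat.exists_eq_succ_of_ne_zero hj0
  have hi1 : n i ≤ s := by
    by_contra hc
    have := Nat.find_min' hex (not_le.1 hc)
    omega
  refine ⟨i, ?_⟩
  by_contra hne
  have hlt : n i < s := lt_of_le_of_ne hi1 hne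
  have h5 := (hsp i).2.2.2 s hs hlt
  rw [← hsucc, show i + 1 = j from by omega] at h5
  omega

/-- **All indices of a lacunary set.** -/
theorem main : ∃ C : ℕ, 2 ≤ C ∧ ∀ (c0 : ℝ) (y y' : ℕ → ℝ → ℝ), 0 ≤ c0 →
    (∀ a0 a1 : ℝ, c0 < a0 → a0 < a1 → ∃ D : ℝ, 0 ≤ D ∧ ∀ᶠ m : ℕ in atTop, Lc a0 a1 D m (y m) (y' m)) →
    ∀ S : Set ℕ, Lac C S → ∀ b0 b1 : ℝ, c0 < b0 → b0 < b1 →
      1 ≤ dimH {t | b0 < t ∧ t < b1 ∧ ∃ M : ℕ, ∀ m ∈ S, M ≤ m → (⌊Real.exp (y m t)⌋₊).Prime} := by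
  obtain ⟨δ, η, hδ, hδ1, hη, X₀, _, hH⟩ := Pool.Agent.H295R3.D.hoheisel
  obtain ⟨C, hC⟩ := exists_nat_ge (4 / δ + 8)
  have h4δ : 0 < 4 / δ := by positivity
  have hC8 : 8 ≤ C := by
    have : (8 : ℝ) ≤ C := by linarith
    exact_mod_cast this
  refine ⟨C, by omega, fun c0 y y' hc0 hfam S hS b0 b1 hb0 hb1 => ?_⟩
  refine le_of_forall_lt fun c hc => ?_
  have hctop : c ≠ ⊤ := ne_top_of_lt hc
  have hcr : c.toReal < 1 := by
    have := (ENNReal.toReal_lt_toReal hctop ENNReal.one_ne_top).2 hc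
    simpa using this
  have hcr0 : 0 ≤ c.toReal := ENNReal.toReal_nonneg
  set s : ℝ := (c.toReal + 1) / 2 with hs
  have hs0 : 0 < s := by rw [hs]; linarith
  have hs1 : s < 1 := by rw [hs]; linarith
  have hcs : c < ENNReal.ofReal s := by
    rw [← ENNReal.ofReal_toReal hctop, ENNReal.ofReal_lt_ofReal_iff hs0, hs]
    linarith
  refine hcs.trans_le ?_
  set t0 := (b0 + b1) / 2 with ht0
  have ht00 : 0 < t0 := by rw [ht0]; linarith
  set C1 := C ^ 2 with hC1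
  have hC10 : (0 : ℝ) ≤ C1 := Nat.cast_nonneg _
  set σ : ℝ := min ((b1 - t0) / 2) (min (t0 / 8) ((1 - s) * t0 / (2 * (2 * C1 + 3)))) with hσ
  have hσ0 : 0 < σ := by
    refine lt_min (by rw [ht0]; linarith) (lt_min (by positivity) ?_)
    have : 0 < (1 - s) * t0 := mul_pos (by linarith) ht00
    positivity
  have hσ1 : σ ≤ (b1 - t0) / 2 := min_le_left _ _
  have hσ2 : σ ≤ t0 / 8 := (min_le_right _ _).trans (min_le_left _ _)
  have hσ3 : σ * (2 * (2 * C1 + 3)) ≤ (1 - s) * t0 := by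
    have : σ ≤ (1 - s) * t0 / (2 * (2 * C1 + 3)) := (min_le_right _ _).trans (min_le_right _ _)
    rwa [le_div_iff₀ (by positivity)] at this
  obtain ⟨D, hD, hev⟩ := hfam t0 (t0 + σ) (by rw [ht0]; linarith) (by linarith)
  obtain ⟨P, hP⟩ := eventually_atTop.1 hev
  obtain ⟨N, hN⟩ := seq hH hδ hδ1 hη (C0 := C) (by linarith) hC8 C1 (t0 := t0) (t1 := t0 + σ) (D := D)
    ht00 (by linarith) (by linarith) hD hs0 hs1.le hσ0 hσ2 (by
      have h1 : s * (C1 * σ) ≤ C1 * σ := by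
        have : 0 ≤ C1 * σ := by positivity
        nlinarith
      have h2 : s * σ ≤ σ := by nlinarith
      have e : t0 - (2 * (t0 + σ - t0) + 2 * σ) - s * (C1 * (t0 + σ - t0) + (t0 + σ) + 2 * σ * C1) =
        (1 - s) * t0 - 4 * σ - 3 * (s * (C1 * σ)) - s * σ := by ring
      rw [e]
      nlinarith)
  obtain ⟨n, hn0, hn1, hn2, hn3⟩ := exists_seq (C := C) (by omega) hS (N := N + P + 1) (by omega)
  have hnP : ∀ i, P ≤ n i := by
    intro i
    induction i with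
    | zero => omega
    | succ i ih =>
      have h1 : 1 * n i ≤ C * n i := Nat.mul_le_mul_right _ (by omega)
      have := hn1 i
      omega
  refine (hN n (fun i => y (n i)) (fun i => y' (n i)) (by omega) hn1 hn2
    (fun i => hP _ (hnP i))).trans (dimH_mono ?_)
  rintro t ⟨⟨ht1, ht2⟩, ht3⟩
  refine ⟨by linarith [show b0 < t0 by rw [ht0]; linarith], by linarith [show b0 < b1 from hb1], n 0,
    fun m hm hM => ?_⟩
  obtain ⟨i, rfl⟩ := hn3 m hm hM
  exact ht3 i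

end Pool.Agent.Q43.LC
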