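import Mathlib
import Pool.Agent.Q43.LC.Main

set_option autoImplicit false

/-!
# Lacunary sets of indices: exponential families
-/

namespace Pool.Agent.Q43.LC

open Filter Topology Finset
open scoped ENNReal NNReal

/-- small perturbations -/
def RB (c0 θ : ℝ) (R R' : ℕ → ℝ → ℝ) : Prop := ∀ a0 a1 : ℝ, c0 < a0 → a0 < a1 → ∃ B : ℝ, 0 ≤ B ∧
  ∀ᶠ m : ℕ in atTop, ∀ t ∈ Set.Icc a0 a1, HasDerivAt (R m) (R' m t) t ∧ |R m t| ≤ θ ∧ |R' m t| ≤ B

lemma RB.add {c0 θ1 θ2 : ℝ} {R R' Q Q' : ℕ → ℝ → ℝ} (h : RB c0 θ1 R R') (g : RB c0 θ2 Q Q') :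
    RB c0 (θ1 + θ2) (fun m t => R m t + Q m t) (fun m t => R' m t + Q' m t) := by
  intro a0 a1 h0 h1
  obtain ⟨B1, hB1, e1⟩ := h a0 a1 h0 h1
  obtain ⟨B2, hB2, e2⟩ := g a0 a1 h0 h1
  refine ⟨B1 + B2, by positivity, ?_⟩
  filter_upwards [e1, e2] with m g1 g2 t ht
  obtain ⟨a, b, c⟩ := g1 t ht
  obtain ⟨d, e, f⟩ := g2 t ht
  exact ⟨a.add d, (abs_add_le _ _).trans (add_le_add b e), (abs_add_le _ _).trans (add_le_add c f)⟩

/-- a decaying exponential -/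
lemma RB_exp {c0 m1 m0 θ K : ℝ} (hθ : 0 < θ) (hm1 : 0 < m1) (hm : m0 ≤ m1 * c0) {σ : ℕ → ℝ}
    (hσ : ∀ m, |σ m| ≤ K) :
    RB c0 θ (fun m t => σ m * Real.exp (-(m * (m1 * t - m0))))
      (fun m t => σ m * (Real.exp (-(m * (m1 * t - m0))) * (-(m * m1)))) := by
  intro a0 a1 h0 _
  have hK : 0 ≤ K := (abs_nonneg _).trans (hσ 0)
  set μ := m1 * a0 - m0 with hμ
  have hμ0 : 0 < μ := by
    have : m1 * c0 < m1 * a0 := mul_lt_mul_of_pos_left h0 hm1
    rw [hμ]; linarith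
  have hlin : Tendsto (fun p : ℕ => μ * (p : ℝ)) atTop atTop :=
    tendsto_natCast_atTop_atTop.const_mul_atTop hμ0
  have l0 := (Real.tendsto_pow_mul_exp_neg_atTop_nhds_zero 0).comp hlin
  have l1 := (Real.tendsto_pow_mul_exp_neg_atTop_nhds_zero 1).comp hlin
  have k0 := (l0.const_mul K).eventually_lt_const (show K * 0 < θ by simpa using hθ)
  have k1 := l1.eventually_lt_const (show (0 : ℝ) < 1 by norm_num)
  refine ⟨K * m1 / μ, by positivity, ?_⟩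
  filter_upwards [k0, k1] with m e0 e1 t ht
  simp only [Function.comp, pow_zero, one_mul, pow_one] at e0 e1
  have hm00 : (0 : ℝ) ≤ m := Nat.cast_nonneg m
  have hle : Real.exp (-(m * (m1 * t - m0))) ≤ Real.exp (-(μ * m)) := by
    refine Real.exp_le_exp.2 ?_
    have h2 : m1 * a0 ≤ m1 * t := mul_le_mul_of_nonneg_left ht.1 hm1.le
    have h3 : (m : ℝ) * μ ≤ m * (m1 * t - m0) := mul_le_mul_of_nonneg_left (by rw [hμ]; linarith) hm00
    linarith
  refine ⟨?_, ?_, ?_⟩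
  · have h2 : HasDerivAt (fun t : ℝ => -((m : ℝ) * (m1 * t - m0))) (-(m * m1)) t := by
      have h3 := (((hasDerivAt_id t).const_mul m1).sub_const m0).const_mul (m : ℝ)
      have h4 : HasDerivAt (fun t : ℝ => -((m : ℝ) * (m1 * t - m0))) (-(m * (m1 * 1))) t := h3.neg
      rwa [mul_one] at h4
    exact (h2.exp).const_mul (σ m)
  · rw [abs_mul, abs_of_pos (Real.exp_pos _)]
    calc |σ m| * Real.exp (-(m * (m1 * t - m0))) ≤ K * Real.exp (-(μ * m)) :=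
          mul_le_mul (hσ m) hle (Real.exp_pos _).le hK
      _ ≤ θ := e0.le
  · rw [abs_mul, abs_mul, abs_of_pos (Real.exp_pos _), abs_neg, abs_of_nonneg (by positivity : (0 : ℝ) ≤ m * m1)]
    have h3 : (m : ℝ) * Real.exp (-(μ * m)) ≤ 1 / μ := by
      rw [le_div_iff₀ hμ0]
      calc _ = μ * m * Real.exp (-(μ * m)) := by ring
        _ ≤ 1 := e1.le
    calc |σ m| * (Real.exp (-(m * (m1 * t - m0))) * (m * m1)) ≤
          K * (Real.exp (-(μ * m)) * (m * m1)) := by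
          refine mul_le_mul (hσ m) ?_ (by positivity) hK
          exact mul_le_mul_of_nonneg_right hle (by positivity)
      _ = K * m1 * (m * Real.exp (-(μ * m))) := by ring
      _ ≤ K * m1 * (1 / μ) := by gcongr
      _ = _ := by ring

/-- the exponential families -/
lemma lc_of {c0 : ℝ} {H H' : ℝ → ℝ} (hH : ∀ t, c0 < t → HasDerivAt H (H' t) t)
    (hH' : ContinuousOn H' (Set.Ioi c0)) {R R' : ℕ → ℝ → ℝ} (hR : RB c0 (1 / 2) R R') :
    ∀ a0 a1 : ℝ, c0 < a0 → a0 < a1 → ∃ D : ℝ, 0 ≤ D ∧ ∀ᶠ m : ℕ in atTop,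
      Lc a0 a1 D m (fun t => m * t + H t + Real.log (1 + R m t))
        (fun t => m + H' t + R' m t / (1 + R m t)) := by
  intro a0 a1 h0 h1
  obtain ⟨B, hB, hev⟩ := hR a0 a1 h0 h1
  have hsub : Set.Icc a0 a1 ⊆ Set.Ioi c0 := fun t ht => h0.trans_le ht.1
  have hc1 : ContinuousOn H (Set.Icc a0 a1) := fun t ht =>
    (hH t (hsub ht)).continuousAt.continuousWithinAt
  obtain ⟨D1, hD1⟩ := isCompact_Icc.exists_bound_of_continuousOn hc1
  obtain ⟨D2, hD2⟩ := isCompact_Icc.exists_bound_of_continuousOn (hH'.mono hsub)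
  have ha : a0 ∈ Set.Icc a0 a1 := ⟨le_rfl, h1.le⟩
  have hD10 : 0 ≤ D1 := (norm_nonneg _).trans (hD1 a0 ha)
  have hD20 : 0 ≤ D2 := (norm_nonneg _).trans (hD2 a0 ha)
  refine ⟨D1 + D2 + 2 * B + 1, by positivity, ?_⟩
  filter_upwards [hev] with m hm
  refine ⟨fun t ht => ?_, fun t ht => ?_, fun t ht => ?_⟩
  · obtain ⟨_, r1, _⟩ := hm t ht
    have h2 := hD1 t ht
    rw [Real.norm_eq_abs] at h2
    have h3 := abs_le.1 r1
    have h4 : |Real.log (1 + R m t)| ≤ 1 := by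
      rw [abs_le]
      constructor
      · rw [Real.le_log_iff_exp_le (by linarith)]
        have : Real.exp (-1) ≤ 1 / 2 := by
          rw [Real.exp_neg, inv_le_comm₀ (Real.exp_pos _) (by norm_num)]
          have := Real.add_one_le_exp (1 : ℝ)
          norm_num
          linarith
        linarith
      · have := Real.log_le_sub_one_of_pos (show 0 < 1 + R m t by linarith)
        linarith
    have e : (m * t + H t + Real.log (1 + R m t)) - m * t = H t + Real.log (1 + R m t) := by ring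
    rw [e]
    have := abs_add_le (H t) (Real.log (1 + R m t))
    linarith
  · obtain ⟨r0, r1, _⟩ := hm t ht
    have h3 := abs_le.1 r1
    have h4 := (r0.const_add 1).log (show (1 : ℝ) + R m t ≠ 0 by linarith)
    have h5 : HasDerivAt (fun t : ℝ => (m : ℝ) * t) m t := by
      simpa using (hasDerivAt_id t).const_mul (m : ℝ)
    exact (h5.add (hH t (hsub ht))).add h4
  · obtain ⟨_, r1, r2⟩ := hm t ht
    have h2 := hD2 t ht
    rw [Real.norm_eq_abs] at h2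
    have h3 := abs_le.1 r1
    have h4 : |R' m t / (1 + R m t)| ≤ 2 * B := by
      rw [abs_div, div_le_iff₀ (abs_pos.2 (by linarith))]
      have h5 : 1 / 2 ≤ |1 + R m t| := le_trans (by linarith) (le_abs_self _)
      nlinarith
    have e : (m + H' t + R' m t / (1 + R m t)) - m = H' t + R' m t / (1 + R m t) := by ring
    rw [e]
    have := abs_add_le (H' t) (R' m t / (1 + R m t))
    linarith

/-- families of curves, eventually controlled on compact intervals -/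
def LF (c0 : ℝ) (y : ℕ → ℝ → ℝ) : Prop := ∃ y' : ℕ → ℝ → ℝ,
  ∀ a0 a1 : ℝ, c0 < a0 → a0 < a1 → ∃ D : ℝ, 0 ≤ D ∧ ∀ᶠ m : ℕ in atTop, Lc a0 a1 D m (y m) (y' m)

lemma Lc.mono_D {a0 a1 D D' : ℝ} {m : ℕ} {y y' : ℝ → ℝ} (h : Lc a0 a1 D m y y') (hD : D ≤ D') :
    Lc a0 a1 D' m y y' :=
  ⟨fun t ht => (h.near t ht).trans hD, h.der, fun t ht => (h.slope t ht).trans hD⟩

open Classical in
lemma LF.ite {c0 : ℝ} {y z : ℕ → ℝ → ℝ} (hy : LF c0 y) (hz : LF c0 z) (S : Set ℕ) :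
    LF c0 (fun m => if m ∈ S then y m else z m) := by
  obtain ⟨y', h⟩ := hy
  obtain ⟨z', g⟩ := hz
  refine ⟨fun m => if m ∈ S then y' m else z' m, fun a0 a1 h0 h1 => ?_⟩
  obtain ⟨D1, hD1, e1⟩ := h a0 a1 h0 h1
  obtain ⟨D2, hD2, e2⟩ := g a0 a1 h0 h1
  refine ⟨D1 + D2, by positivity, ?_⟩
  filter_upwards [e1, e2] with m g1 g2
  by_cases hm : m ∈ S
  · simp only [if_pos hm]
    exact g1.mono_D (by linarith)
  · simp only [if_neg hm]
    exact g2.mono_D (by linarith)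

/-- **Two families, prescribed lacunary sets.** -/
theorem main2 : ∃ C : ℕ, 2 ≤ C ∧ ∀ (c0 : ℝ) (y z v w : ℕ → ℝ → ℝ), 0 ≤ c0 → LF c0 y → LF c0 z →
    (∀ t, c0 < t → ∀ᶠ m : ℕ in atTop, 0 < v m t ∧ Real.log (v m t) = y m t) →
    (∀ t, c0 < t → ∀ᶠ m : ℕ in atTop, 0 < w m t ∧ Real.log (w m t) = z m t) →
    ∀ S T : Set ℕ, Disjoint S T → Lac C (S ∪ T) → ∀ b0 b1 : ℝ, c0 < b0 → b0 < b1 →
      1 ≤ dimH {t | b0 < t ∧ t < b1 ∧ ∃ M : ℕ, (∀ m ∈ S, M ≤ m → (⌊v m t⌋₊).Prime) ∧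
        ∀ m ∈ T, M ≤ m → (⌊w m t⌋₊).Prime} := by
  classical
  obtain ⟨C, hC2, hC⟩ := main
  refine ⟨C, hC2, fun c0 y z v w hc0 hy hz hv hw S T hST hlac b0 b1 h0 h1 => ?_⟩
  obtain ⟨u', hu⟩ := hy.ite hz S
  refine (hC c0 _ u' hc0 hu (S ∪ T) hlac b0 b1 h0 h1).trans (dimH_mono ?_)
  rintro t ⟨t0, t1, M, hM⟩
  have htc : c0 < t := h0.trans t0
  obtain ⟨M1, hM1⟩ := eventually_atTop.1 (hv t htc)
  obtain ⟨M2, hM2⟩ := eventually_atTop.1 (hw t htc)
  refine ⟨t0, t1, M + M1 + M2, fun m hm hge => ?_, fun m hm hge => ?_⟩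
  · have h2 := hM m (Or.inl hm) (by omega)
    simp only [if_pos hm] at h2
    obtain ⟨p1, p2⟩ := hM1 m (by omega)
    rwa [← p2, Real.exp_log p1] at h2
  · have hmS : m ∉ S := fun h => Set.disjoint_left.1 hST h hm
    have h2 := hM m (Or.inr hm) (by omega)
    simp only [if_neg hmS] at h2
    obtain ⟨p1, p2⟩ := hM2 m (by omega)
    rwa [← p2, Real.exp_log p1] at h2

end Pool.Agent.Q43.LC
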