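import Mathlib
import Pool.Agent.Q43.LC.Fam

set_option autoImplicit false

/-!
# One index: the measure of the set where the integer part is prime
-/

namespace Pool.Agent.Q43.LC

open Filter Topology Finset MeasureTheory
open scoped ENNReal NNReal

/-- reciprocals of primes -/
lemma sum_inv {k0 k1 : ℕ} (hk0 : 1 ≤ k0) (P : Finset ℕ)
    (hP : ∀ r ∈ P, r.Prime ∧ (k0 : ℝ) ≤ Real.log r ∧ Real.log r < k1 + 1) :
    ∑ r ∈ P, 1 / (r : ℝ) ≤ (k1 + 1 - k0 : ℕ) * (4 / k0) := by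
  classical
  have hk00 : (0 : ℝ) < k0 := by exact_mod_cast hk0
  have hmap : ∀ r ∈ P, ⌊Real.log r⌋₊ ∈ Icc k0 k1 := by
    intro r hr
    obtain ⟨_, h2, h3⟩ := hP r hr
    rw [mem_Icc]
    have h0 : 0 ≤ Real.log r := hk00.le.trans h2
    constructor
    · exact Nat.le_floor h2
    · have : ⌊Real.log r⌋₊ < k1 + 1 := by
        rw [Nat.floor_lt h0]
        exact_mod_cast h3
      omega
  rw [← Finset.sum_fiberwise_of_maps_to hmap]
  have hfib : ∀ k ∈ Icc k0 k1, ∑ r ∈ P.filter (fun r : ℕ => ⌊Real.log r⌋₊ = k), 1 / (r : ℝ) ≤ 4 / k0 := by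
    intro k hk
    rw [mem_Icc] at hk
    have hk' : (k0 : ℝ) ≤ k := by exact_mod_cast hk.1
    have hkpos : (0 : ℝ) < k := by linarith
    have h1 : ∀ r ∈ P.filter (fun r : ℕ => ⌊Real.log r⌋₊ = k), 1 / (r : ℝ) ≤
        Real.log r * (Real.exp (-k) / k) := by
      intro r hr
      rw [mem_filter] at hr
      obtain ⟨g1, g2, _⟩ := hP r hr.1
      have g0 : 0 ≤ Real.log r := hk00.le.trans g2
      have g3 : (k : ℝ) ≤ Real.log r := by
        rw [← hr.2]
        exact Nat.floor_le g0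
      have hr0 : (0 : ℝ) < r := by exact_mod_cast g1.pos
      have g4 : Real.exp k ≤ r := by rwa [← Real.le_log_iff_exp_le hr0]
      have g5 : 1 / (r : ℝ) ≤ Real.exp (-k) := by
        rw [Real.exp_neg, one_div]
        exact inv_anti₀ (Real.exp_pos _) g4
      calc 1 / (r : ℝ) ≤ Real.exp (-k) := g5
        _ = k * (Real.exp (-k) / k) := by field_simp
        _ ≤ _ := by gcongr
    calc ∑ r ∈ P.filter (fun r : ℕ => ⌊Real.log r⌋₊ = k), 1 / (r : ℝ) ≤
          ∑ r ∈ P.filter (fun r : ℕ => ⌊Real.log r⌋₊ = k), Real.log r * (Real.exp (-k) / k) := Finset.sum_le_sum h1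
      _ = (∑ r ∈ P.filter (fun r : ℕ => ⌊Real.log r⌋₊ = k), Real.log r) * (Real.exp (-k) / k) := by
          rw [Finset.sum_mul]
      _ ≤ Chebyshev.theta (Real.exp (k + 1)) * (Real.exp (-k) / k) := by
          refine mul_le_mul_of_nonneg_right ?_ (by positivity)
          rw [Chebyshev.theta_eq_sum_Icc]
          refine Finset.sum_le_sum_of_subset_of_nonneg ?_ fun r _ _ => Real.log_natCast_nonneg r
          intro r hr
          rw [mem_filter] at hr
          obtain ⟨g1, g2, _⟩ := hP r hr.1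
          have g0 : 0 ≤ Real.log r := hk00.le.trans g2
          have hr0 : (0 : ℝ) < r := by exact_mod_cast g1.pos
          have g3 : Real.log r < k + 1 := by
            rw [← hr.2]
            exact Nat.lt_floor_add_one _
          rw [mem_filter, mem_Icc]
          refine ⟨⟨Nat.zero_le _, Nat.le_floor ?_⟩, g1⟩
          rw [Real.log_lt_iff_lt_exp hr0] at g3
          exact g3.le
      _ ≤ (Real.log 4 * Real.exp (k + 1)) * (Real.exp (-k) / k) := by
          refine mul_le_mul_of_nonneg_right ?_ (by positivity)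
          exact Chebyshev.theta_le_log4_mul_x (Real.exp_pos _).le
      _ = Real.log 4 * Real.exp 1 / k := by
          rw [Real.exp_add, Real.exp_neg]
          field_simp
      _ ≤ 4 / k0 := by
          have h4 : Real.log 4 * Real.exp 1 ≤ 4 := by
            have e : Real.log 4 = 2 * Real.log 2 := by
              rw [show (4 : ℝ) = 2 ^ 2 by norm_num, Real.log_pow]; norm_num
            have h5 := Real.log_two_lt_d9
            have h6 := Real.exp_one_lt_d9
            have h7 : 0 < Real.log 2 := Real.log_pos (by norm_num)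
            have h8 := Real.exp_pos 1
            rw [e]
            nlinarith
          exact div_le_div₀ (by norm_num) h4 hk00 hk'
  calc _ ≤ ∑ _k ∈ Icc k0 k1, (4 : ℝ) / k0 := Finset.sum_le_sum hfib
    _ = _ := by
      rw [Finset.sum_const, Nat.card_Icc, nsmul_eq_mul]

/-- **One index.** -/
lemma one {a0 a1 D : ℝ} (ha0 : 0 < a0) (h01 : a0 < a1) (hD : 0 ≤ D) : ∃ K : ℝ, 0 < K ∧
    ∀ᶠ m : ℕ in atTop, ∀ y y' : ℝ → ℝ, Lc a0 a1 D m y y' →
      volume {t ∈ Set.Icc a0 a1 | (⌊Real.exp (y t)⌋₊).Prime} ≤ ENNReal.ofReal (K / m) := by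
  have ha1 : 0 < a1 := ha0.trans h01
  refine ⟨64 * (a1 + 1) / a0, by positivity, ?_⟩
  have hlin : ∀ c : ℝ, 0 < c → Tendsto (fun n : ℕ => c * (n : ℝ)) atTop atTop := fun c hc =>
    tendsto_natCast_atTop_atTop.const_mul_atTop hc
  filter_upwards [(tendsto_natCast_atTop_atTop (R := ℝ)).eventually_ge_atTop (2 * D + 4),
    (hlin a0 ha0).eventually_ge_atTop (2 * D + 12)] with m h1 h2 y y' hy
  have hm0 : (0 : ℝ) < m := by linarith
  set Y0 := y a0 with hY0
  set Y1 := y a1 with hY1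
  have n0 := abs_le.1 (hy.near a0 ⟨le_rfl, h01.le⟩)
  have n1 := abs_le.1 (hy.near a1 ⟨h01.le, le_rfl⟩)
  have hlo : m * a0 - D ≤ Y0 := by linarith
  have hhi : Y1 ≤ m * a1 + D := by linarith
  set k0 := ⌊m * a0 - D - 1⌋₊ with hk0
  set k1 := ⌊m * a1 + D⌋₊ with hk1
  have hq : a0 * m / 2 ≤ m * a0 - D - 2 := by linarith
  have hk0r : (k0 : ℝ) ≤ m * a0 - D - 1 := Nat.floor_le (by linarith)
  have hk0l : m * a0 - D - 2 ≤ k0 := by
    have := Nat.lt_floor_add_one (m * a0 - D - 1)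
    linarith
  have hk01 : 1 ≤ k0 := by
    have : (1 : ℝ) ≤ k0 := by linarith
    exact_mod_cast this
  have hk1l : m * a1 + D < k1 + 1 := Nat.lt_floor_add_one _
  have hmono : ∀ s ∈ Set.Icc a0 a1, ∀ t ∈ Set.Icc a0 a1, s ≤ t → y s ≤ y t := by
    intro s hs t ht hst
    have h3 := (hy.mvt hs.1 hst ht.2).1
    have h4 : 0 ≤ (m - D) * (t - s) := mul_nonneg (by linarith) (by linarith)
    linarith
  set P := (Icc 2 ⌊Real.exp Y1⌋₊).filter (fun r : ℕ => r.Prime ∧ Real.exp Y0 - 1 < r) with hP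
  have hsub : {t ∈ Set.Icc a0 a1 | (⌊Real.exp (y t)⌋₊).Prime} ⊆
      ⋃ r ∈ P, {t ∈ Set.Icc a0 a1 | ⌊Real.exp (y t)⌋₊ = r} := by
    rintro t ⟨ht, hp⟩
    simp only [Set.mem_iUnion]
    refine ⟨⌊Real.exp (y t)⌋₊, ?_, ht, rfl⟩
    rw [hP, mem_filter, mem_Icc]
    refine ⟨⟨hp.two_le, Nat.floor_le_floor (Real.exp_le_exp.2 (hmono t ht a1 ⟨h01.le, le_rfl⟩ ht.2))⟩, hp, ?_⟩
    have h3 := Nat.lt_floor_add_one (Real.exp (y t))
    have h4 := Real.exp_le_exp.2 (hmono a0 ⟨le_rfl, h01.le⟩ t ht ht.1)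
    linarith
  have hPr : ∀ r ∈ P, r.Prime ∧ (k0 : ℝ) ≤ Real.log r ∧ Real.log r < k1 + 1 := by
    intro r hr
    rw [hP, mem_filter, mem_Icc] at hr
    obtain ⟨⟨_, g2⟩, g3, g4⟩ := hr
    have hr0 : (0 : ℝ) < r := by exact_mod_cast g3.pos
    refine ⟨g3, ?_, ?_⟩
    · rw [Real.le_log_iff_exp_le hr0]
      have h3 : Real.exp k0 ≤ Real.exp (Y0 - 1) := Real.exp_le_exp.2 (by linarith)
      have h4 : Real.exp (Y0 - 1) ≤ Real.exp Y0 - 1 := by
        have e : Real.exp Y0 = Real.exp (Y0 - 1) * Real.exp 1 := by rw [← Real.exp_add]; congr 1; ring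
        have h5 : (2 : ℝ) ≤ Real.exp 1 := by linarith [Real.add_one_le_exp (1 : ℝ)]
        have h6 : 1 ≤ Real.exp (Y0 - 1) := Real.one_le_exp (by linarith)
        rw [e]
        nlinarith
      linarith
    · have h3 : (r : ℝ) ≤ Real.exp Y1 := by
        have : (r : ℝ) ≤ ⌊Real.exp Y1⌋₊ := by exact_mod_cast g2
        exact this.trans (Nat.floor_le (Real.exp_pos _).le)
      have h4 := Real.log_le_log hr0 h3
      rw [Real.log_exp] at h4
      linarith
  have hvol : ∀ r ∈ P, volume {t ∈ Set.Icc a0 a1 | ⌊Real.exp (y t)⌋₊ = r} ≤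
      ENNReal.ofReal (2 / m * (1 / r)) := by
    intro r hr
    have hrp := (hPr r hr).1
    have hr0 : (0 : ℝ) < r := by exact_mod_cast hrp.pos
    refine (Real.volume_le_diam _).trans (Metric.ediam_le ?_)
    have key : ∀ s ∈ {t ∈ Set.Icc a0 a1 | ⌊Real.exp (y t)⌋₊ = r},
        ∀ t ∈ {t ∈ Set.Icc a0 a1 | ⌊Real.exp (y t)⌋₊ = r}, s ≤ t → t - s ≤ 2 / m * (1 / r) := by
      rintro s ⟨hs, hsr⟩ t ⟨ht, htr⟩ hst
      have h3 := (hy.mvt hs.1 hst ht.2).1
      have g1 : (r : ℝ) ≤ Real.exp (y s) := by rw [← hsr]; exact Nat.floor_le (Real.exp_pos _).le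
      have g2 : Real.exp (y t) < r + 1 := by rw [← htr]; exact Nat.lt_floor_add_one _
      have g3 : Real.exp (y t - y s) ≤ 1 + 1 / r := by
        rw [Real.exp_sub, div_le_iff₀ (Real.exp_pos _)]
        calc Real.exp (y t) ≤ r + 1 := g2.le
          _ = (1 + 1 / r) * r := by field_simp
          _ ≤ _ := by gcongr
      have g4 : y t - y s ≤ 1 / r := by
        have := Real.add_one_le_exp (y t - y s)
        linarith
      have g5 : m / 2 * (t - s) ≤ (m - D) * (t - s) := mul_le_mul_of_nonneg_right (by linarith) (by linarith)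
      have g6 : m / 2 * (t - s) ≤ 1 / r := by linarith
      calc t - s = 2 / m * (m / 2 * (t - s)) := by field_simp
        _ ≤ _ := by gcongr
    intro s hs t ht
    rw [edist_dist, Real.dist_eq]
    refine ENNReal.ofReal_le_ofReal ?_
    rcases le_total s t with h | h
    · rw [abs_sub_comm, abs_of_nonneg (by linarith)]
      exact key s hs t ht h
    · rw [abs_of_nonneg (by linarith)]
      exact key t ht s hs h
  calc volume {t ∈ Set.Icc a0 a1 | (⌊Real.exp (y t)⌋₊).Prime} ≤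
        volume (⋃ r ∈ P, {t ∈ Set.Icc a0 a1 | ⌊Real.exp (y t)⌋₊ = r}) := measure_mono hsub
    _ ≤ ∑ r ∈ P, volume {t ∈ Set.Icc a0 a1 | ⌊Real.exp (y t)⌋₊ = r} := measure_biUnion_finset_le _ _
    _ ≤ ∑ r ∈ P, ENNReal.ofReal (2 / m * (1 / r)) := Finset.sum_le_sum hvol
    _ = ENNReal.ofReal (2 / m * ∑ r ∈ P, 1 / (r : ℝ)) := by
        rw [← ENNReal.ofReal_sum_of_nonneg (fun r _ => by positivity), Finset.mul_sum]
    _ ≤ ENNReal.ofReal (64 * (a1 + 1) / a0 / m) := by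
        refine ENNReal.ofReal_le_ofReal ?_
        have h3 := sum_inv hk01 P hPr
        have h4 : ((k1 + 1 - k0 : ℕ) : ℝ) ≤ 4 * (a1 + 1) * m := by
          have h5 : ((k1 + 1 - k0 : ℕ) : ℝ) ≤ k1 + 1 := by
            have : k1 + 1 - k0 ≤ k1 + 1 := Nat.sub_le _ _
            exact_mod_cast this
          have h6 : (k1 : ℝ) ≤ m * a1 + D := Nat.floor_le (by positivity)
          have h7 : D ≤ m := by linarith
          have h8 : (1 : ℝ) ≤ m := by linarith
          nlinarith [mul_pos hm0 ha1]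
        have h5 : 4 / (k0 : ℝ) ≤ 8 / (a0 * m) := by
          rw [div_le_div_iff₀ (by exact_mod_cast hk01) (by positivity)]
          nlinarith
        calc 2 / (m : ℝ) * ∑ r ∈ P, 1 / (r : ℝ) ≤ 2 / m * ((k1 + 1 - k0 : ℕ) * (4 / k0)) := by gcongr
          _ ≤ 2 / m * (4 * (a1 + 1) * m * (8 / (a0 * m))) := by gcongr
          _ = 64 * (a1 + 1) / a0 / m := by field_simp; ring

/-- covering by compact windows -/
lemma windows {c0 : ℝ} {Q : ℝ → Prop} (h : ∀ a0 a1 : ℝ, c0 < a0 → a0 < a1 →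
    ∀ᵐ t : ℝ, t ∈ Set.Icc a0 a1 → Q t) : ∀ᵐ t : ℝ, c0 < t → Q t := by
  have h1 : ∀ᵐ t : ℝ, ∀ n : ℕ, t ∈ Set.Icc (c0 + 1 / ((n : ℝ) + 1)) (c0 + 1 / ((n : ℝ) + 1) + (n + 1)) → Q t := by
    rw [ae_all_iff]
    intro n
    refine h _ _ ?_ ?_
    · have : (0 : ℝ) < 1 / ((n : ℝ) + 1) := by positivity
      linarith
    · have : (0 : ℝ) ≤ n := Nat.cast_nonneg n
      linarith
  filter_upwards [h1] with t ht hc
  obtain ⟨n, hn⟩ := exists_nat_one_div_lt (show 0 < t - c0 by linarith)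
  obtain ⟨k, hk⟩ := exists_nat_ge (t - c0)
  refine ht (n + k) ⟨?_, ?_⟩
  · have h2 : 1 / (((n + k : ℕ) : ℝ) + 1) ≤ 1 / ((n : ℝ) + 1) := by
      apply one_div_le_one_div_of_le (by positivity)
      push_cast
      have : (0 : ℝ) ≤ k := Nat.cast_nonneg k
      linarith
    linarith
  · have h2 : (0 : ℝ) < 1 / (((n + k : ℕ) : ℝ) + 1) := by positivity
    have h3 : (0 : ℝ) ≤ n := Nat.cast_nonneg n
    push_cast at *
    linarith

/-- **Almost everywhere only finitely many prime values, if the sum of `1/m` is finite.** -/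
theorem ae_fin {c0 : ℝ} (hc0 : 0 ≤ c0) {y : ℕ → ℝ → ℝ} (hy : LF c0 y) {S : Set ℕ}
    (hs : Summable fun m : S => 1 / ((m : ℕ) : ℝ)) :
    ∀ᵐ t : ℝ, c0 < t → ∃ M : ℕ, ∀ m ∈ S, M ≤ m → ¬ (⌊Real.exp (y m t)⌋₊).Prime := by
  obtain ⟨y', hfam⟩ := hy
  refine windows fun a0 a1 h0 h01 => ?_
  obtain ⟨D, hD, hev⟩ := hfam a0 a1 h0 h01
  obtain ⟨K, hK, hone⟩ := one (hc0.trans_lt h0) h01 hD
  obtain ⟨M, hM⟩ := eventually_atTop.1 (hev.and hone)
  set T : Set ℕ := {m ∈ S | M ≤ m} with hT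
  have hTS : T ⊆ S := fun m hm => hm.1
  have hT' : Summable fun m : T => 1 / ((m : ℕ) : ℝ) := by
    have h1 := hs.comp_injective (Set.inclusion_injective hTS)
    have e : (fun m : T => 1 / ((m : ℕ) : ℝ)) =
        ((fun m : S => 1 / ((m : ℕ) : ℝ)) ∘ Set.inclusion hTS) := by
      funext x
      rfl
    rw [e]
    exact h1
  have htop : ∑' m : T, volume {t ∈ Set.Icc a0 a1 | (⌊Real.exp (y m t)⌋₊).Prime} ≠ ⊤ := by
    refine ne_top_of_le_ne_top ?_ (ENNReal.tsum_le_tsum fun m : T =>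
      (hM m.1 m.2.2).2 _ _ (hM m.1 m.2.2).1)
    have e : (fun m : T => K / ((m : ℕ) : ℝ)) = fun m : T => K * (1 / ((m : ℕ) : ℝ)) := by
      funext m
      ring
    have hsum : Summable fun m : T => K / ((m : ℕ) : ℝ) := by
      rw [e]
      exact hT'.mul_left K
    rw [← ENNReal.ofReal_tsum_of_nonneg (fun m : T => div_nonneg hK.le (Nat.cast_nonneg (m : ℕ))) hsum]
    exact ENNReal.ofReal_ne_top
  filter_upwards [ae_finite_setOfPred_mem htop] with t ht htI
  obtain ⟨B, hB⟩ := (ht.image (fun m : T => (m : ℕ))).bddAbove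
  refine ⟨M + B + 1, fun m hm hge hp => ?_⟩
  have := hB ⟨⟨m, hm, by omega⟩, ⟨htI, hp⟩, rfl⟩
  simp only at this
  omega

end Pool.Agent.Q43.LC
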