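import Mathlib
import Pool.Agent.Q43.LC.Fam

set_option autoImplicit false

/-!
# Lacunary sets of indices: Lucas sequences at real parameters
-/

namespace Pool.Agent.Q43.LC

open Filter Topology Finset
open scoped ENNReal NNReal

/-- the dimension of subsets of the line -/
lemma dimH_le_one (E : Set ℝ) : dimH E ≤ 1 := by
  calc dimH E ≤ dimH (Set.univ : Set ℝ) := dimH_mono (Set.subset_univ _)
    _ = 1 := by
      rw [Real.dimH_univ]

/-- change of the parameter -/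
lemma transfer {c0 x0 : ℝ} {g f : ℝ → ℝ} (hf : ContDiffOn ℝ 1 f (Set.Ioi x0)) (hg : ∀ t, c0 < t → x0 < g t)
    (hfg : ∀ t, c0 < t → f (g t) = t) {E F : Set ℝ} (hE : ∀ t ∈ E, c0 < t ∧ g t ∈ F) : dimH E ≤ dimH F := by
  have h1 : E ⊆ f '' (F ∩ Set.Ioi x0) := by
    intro t ht
    obtain ⟨h2, h3⟩ := hE t ht
    exact ⟨g t, ⟨h3, hg t h2⟩, hfg t h2⟩
  calc dimH E ≤ dimH (f '' (F ∩ Set.Ioi x0)) := dimH_mono h1
    _ ≤ dimH (F ∩ Set.Ioi x0) := hf.dimH_image_le (convex_Ioi x0) Set.inter_subset_right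
    _ ≤ dimH F := dimH_mono Set.inter_subset_left

/-- the sequence with the initial values `0, 1` -/
def FF (x : ℝ) : ℕ → ℝ
  | 0 => 0
  | 1 => 1
  | n + 2 => x * FF x (n + 1) + FF x n

/-- the sequence with the initial values `2, x` -/
def LL (x : ℝ) : ℕ → ℝ
  | 0 => 2
  | 1 => x
  | n + 2 => x * LL x (n + 1) + LL x n

lemma e_rec (t : ℝ) (n : ℕ) : Real.exp ((n + 2 : ℕ) * t) =
    (2 * Real.sinh t) * Real.exp ((n + 1 : ℕ) * t) + Real.exp (n * t) := by
  have e1 : Real.exp ((n + 2 : ℕ) * t) = Real.exp (n * t) * (Real.exp t * Real.exp t) := by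
    rw [← Real.exp_add, ← Real.exp_add]; congr 1; push_cast; ring
  have e2 : Real.exp ((n + 1 : ℕ) * t) = Real.exp (n * t) * Real.exp t := by
    rw [← Real.exp_add]; congr 1; push_cast; ring
  have e3 : Real.exp t * Real.exp (-t) = 1 := by rw [← Real.exp_add]; simp
  rw [e1, e2, Real.sinh_eq]
  linear_combination (Real.exp (n * t)) * e3

lemma e_rec' (t : ℝ) (n : ℕ) : (-1) ^ (n + 2) * Real.exp (-((n + 2 : ℕ) * t)) =
    (2 * Real.sinh t) * ((-1) ^ (n + 1) * Real.exp (-((n + 1 : ℕ) * t))) + (-1) ^ n * Real.exp (-(n * t)) := by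
  have e1 : Real.exp (-((n + 2 : ℕ) * t)) = Real.exp (-(n * t)) * (Real.exp (-t) * Real.exp (-t)) := by
    rw [← Real.exp_add, ← Real.exp_add]; congr 1; push_cast; ring
  have e2 : Real.exp (-((n + 1 : ℕ) * t)) = Real.exp (-(n * t)) * Real.exp (-t) := by
    rw [← Real.exp_add]; congr 1; push_cast; ring
  have e3 : Real.exp t * Real.exp (-t) = 1 := by rw [← Real.exp_add]; simp
  rw [e1, e2, Real.sinh_eq, pow_add, pow_add]
  linear_combination (Real.exp (-(n * t)) * (-1) ^ n) * e3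

lemma LL_closed (t : ℝ) (n : ℕ) : LL (2 * Real.sinh t) n =
    Real.exp (n * t) + (-1) ^ n * Real.exp (-(n * t)) := by
  induction n using Nat.twoStepInduction with
  | zero => simp [LL]; norm_num
  | one => simp [LL, Real.sinh_eq]; ring
  | more n h1 h2 =>
    show (2 * Real.sinh t) * LL (2 * Real.sinh t) (n + 1) + LL (2 * Real.sinh t) n = _
    rw [h1, h2, e_rec t n, e_rec' t n]
    ring

lemma FF_closed (t : ℝ) (n : ℕ) : 2 * Real.cosh t * FF (2 * Real.sinh t) n =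
    Real.exp (n * t) - (-1) ^ n * Real.exp (-(n * t)) := by
  induction n using Nat.twoStepInduction with
  | zero => simp [FF]
  | one => simp [FF, Real.cosh_eq]; ring
  | more n h1 h2 =>
    show 2 * Real.cosh t * ((2 * Real.sinh t) * FF (2 * Real.sinh t) (n + 1) + FF (2 * Real.sinh t) n) = _
    rw [e_rec t n, e_rec' t n]
    linear_combination (2 * Real.sinh t) * h2 + h1

/-- the phases `m t + H t + log (1 + σ m e^(-2 m t))` -/
noncomputable def yh (H : ℝ → ℝ) (σ : ℕ → ℝ) (m : ℕ) (t : ℝ) : ℝ :=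
  m * t + H t + Real.log (1 + σ m * Real.exp (-(m * (2 * t - 0))))

lemma LF_yh {H H' : ℝ → ℝ} (hH : ∀ t, (0 : ℝ) < t → HasDerivAt H (H' t) t)
    (hH' : ContinuousOn H' (Set.Ioi 0)) {σ : ℕ → ℝ} (hσ : ∀ m, |σ m| ≤ 1) : LF 0 (yh H σ) :=
  ⟨_, lc_of hH hH' (RB_exp (θ := 1 / 2) (m1 := 2) (m0 := 0) (by norm_num) two_pos (by norm_num) hσ)⟩

lemma sgn_le (m : ℕ) : |((-1 : ℝ)) ^ m| ≤ 1 := by rw [abs_pow]; simp

lemma sgn_le' (m : ℕ) : |(-(-1 : ℝ) ^ m)| ≤ 1 := by rw [abs_neg]; exact sgn_le m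

/-- values and phases -/
lemma phase {H : ℝ → ℝ} {σ : ℕ → ℝ} (hσ : ∀ m, |σ m| ≤ 1) {a : ℝ} {m : ℕ} (hm : 1 ≤ m) {t : ℝ} (ht : 0 < t)
    (ha : 0 < a) (hHa : H t = Real.log a) :
    0 < a * (Real.exp (m * t) + σ m * Real.exp (-(m * t))) ∧
      Real.log (a * (Real.exp (m * t) + σ m * Real.exp (-(m * t)))) = yh H σ m t := by
  have hm0 : (0 : ℝ) < m := by exact_mod_cast hm
  have h2 : Real.exp (-(m * (2 * t - 0))) < 1 := by
    rw [Real.exp_lt_one_iff]
    have : 0 < m * (2 * t - 0) := by rw [sub_zero]; positivity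
    linarith
  have h3 : 0 < 1 + σ m * Real.exp (-(m * (2 * t - 0))) := by
    have h4 := abs_le.1 (hσ m)
    have h5 := Real.exp_pos (-(m * (2 * t - 0)))
    nlinarith
  have e2 : Real.exp (m * t) + σ m * Real.exp (-(m * t)) =
      Real.exp (m * t) * (1 + σ m * Real.exp (-(m * (2 * t - 0)))) := by
    have : Real.exp (-(m * t)) = Real.exp (m * t) * Real.exp (-(m * (2 * t - 0))) := by
      rw [← Real.exp_add]; congr 1; ring
    rw [this]; ring
  rw [e2]
  refine ⟨by positivity, ?_⟩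
  unfold yh
  rw [Real.log_mul ha.ne' (by positivity), Real.log_mul (Real.exp_pos _).ne' h3.ne', Real.log_exp, hHa]
  ring

/-- the amplitudes in the parameter `t` -/
lemma ampl {A : ℝ → ℝ} (hA : ContDiffOn ℝ 1 A (Set.Ioi 0)) (hApos : ∀ x, 0 < x → 0 < A x) (c : ℝ)
    (hc : 0 < c) : ∃ H' : ℝ → ℝ,
      (∀ t, (0 : ℝ) < t → HasDerivAt (fun t => Real.log (A (c * Real.sinh t))) (H' t) t) ∧
      ContinuousOn H' (Set.Ioi 0) := by
  have hs : ∀ t : ℝ, 0 < t → 0 < c * Real.sinh t := fun t ht =>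
    mul_pos hc (Real.sinh_pos_iff.2 ht)
  have hd : DifferentiableOn ℝ A (Set.Ioi 0) := hA.differentiableOn (by norm_num)
  have hdc : ContinuousOn (deriv A) (Set.Ioi 0) := hA.continuousOn_deriv_of_isOpen isOpen_Ioi (by norm_num)
  have hmaps : Set.MapsTo (fun t => c * Real.sinh t) (Set.Ioi 0) (Set.Ioi 0) := fun t ht => hs t ht
  have hcs : ContinuousOn (fun t : ℝ => c * Real.sinh t) (Set.Ioi 0) := by fun_prop
  refine ⟨fun t => deriv A (c * Real.sinh t) * (c * Real.cosh t) / A (c * Real.sinh t), fun t ht => ?_, ?_⟩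
  · have h1 : HasDerivAt A (deriv A (c * Real.sinh t)) (c * Real.sinh t) :=
      (hd.differentiableAt (isOpen_Ioi.mem_nhds (hs t ht))).hasDerivAt
    have h2 : HasDerivAt (A ∘ fun t => c * Real.sinh t) (deriv A (c * Real.sinh t) * (c * Real.cosh t)) t :=
      HasDerivAt.comp (h₂ := A) t h1 ((Real.hasDerivAt_sinh t).const_mul c)
    exact h2.log (hApos _ (hs t ht)).ne'
  · refine ContinuousOn.div (ContinuousOn.mul (hdc.comp hcs hmaps) (by fun_prop))
      (hA.continuousOn.comp hcs hmaps) fun t ht => (hApos _ (hs t ht)).ne'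

/-- continuously differentiable logarithm -/
def LogC1 (α : ℝ → ℝ) : Prop := (∀ t, 0 < t → 0 < α t) ∧ ∃ H' : ℝ → ℝ,
  (∀ t, (0 : ℝ) < t → HasDerivAt (fun t => Real.log (α t)) (H' t) t) ∧ ContinuousOn H' (Set.Ioi 0)

lemma logC1_of {A : ℝ → ℝ} (hA : ContDiffOn ℝ 1 A (Set.Ioi 0)) (hApos : ∀ x, 0 < x → 0 < A x) {c : ℝ}
    (hc : 0 < c) : LogC1 (fun t => A (c * Real.sinh t)) :=
  ⟨fun t ht => hApos _ (mul_pos hc (Real.sinh_pos_iff.2 ht)), ampl hA hApos c hc⟩

lemma logC1_div {α : ℝ → ℝ} (h : LogC1 α) : LogC1 (fun t => α t / (2 * Real.cosh t)) := by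
  obtain ⟨h1, H', h2, h3⟩ := h
  have hc : ∀ t : ℝ, 0 < 2 * Real.cosh t := fun t => by have := Real.cosh_pos t; positivity
  refine ⟨fun t ht => div_pos (h1 t ht) (hc t), fun t => H' t - 2 * Real.sinh t / (2 * Real.cosh t),
    fun t ht => ?_, ?_⟩
  · have h4 := (h2 t ht).sub (((Real.hasDerivAt_cosh t).const_mul 2).log (hc t).ne')
    refine h4.congr_of_eventuallyEq ?_
    filter_upwards [Ioi_mem_nhds ht] with s hs
    exact Real.log_div (h1 s hs).ne' (hc s).ne'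
  · exact h3.sub (ContinuousOn.div (by fun_prop) (by fun_prop) fun t _ => (hc t).ne')

lemma logC1_mul {α : ℝ → ℝ} (h : LogC1 α) {c : ℝ} (hc : 0 < c) : LogC1 (fun t => α t * c) := by
  obtain ⟨h1, H', h2, h3⟩ := h
  refine ⟨fun t ht => mul_pos (h1 t ht) hc, H', fun t ht => ?_, h3⟩
  have h4 := (h2 t ht).add_const (Real.log c)
  refine h4.congr_of_eventuallyEq ?_
  filter_upwards [Ioi_mem_nhds ht] with s hs
  exact Real.log_mul (h1 s hs).ne' hc.ne'

/-- **Lucas sequences, in the parameter `t`.** -/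
theorem hyp_t : ∃ C : ℕ, 2 ≤ C ∧ ∀ α β : ℝ → ℝ, LogC1 α → LogC1 β → ∀ S T : Set ℕ, Disjoint S T →
    Lac C (S ∪ T) → ∀ b0 b1 : ℝ, 0 < b0 → b0 < b1 →
      1 ≤ dimH {t | b0 < t ∧ t < b1 ∧ ∃ M : ℕ,
        (∀ m ∈ S, M ≤ m → (⌊α t * FF (2 * Real.sinh t) m⌋₊).Prime) ∧
        ∀ m ∈ T, M ≤ m → (⌊β t * LL (2 * Real.sinh t) m⌋₊).Prime} := by
  obtain ⟨C, hC2, hC⟩ := main2
  refine ⟨C, hC2, fun α β hα hβ S T hST hlac b0 b1 h0 h1 => ?_⟩
  obtain ⟨a1, H1, a2, a3⟩ := logC1_div hα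
  obtain ⟨b1', H2, b2, b3⟩ := hβ
  refine hC 0 (yh (fun t => Real.log (α t / (2 * Real.cosh t))) fun m => -(-1) ^ m)
    (yh (fun t => Real.log (β t)) fun m => (-1) ^ m) (fun m t => α t * FF (2 * Real.sinh t) m)
    (fun m t => β t * LL (2 * Real.sinh t) m) le_rfl (LF_yh a2 a3 sgn_le') (LF_yh b2 b3 sgn_le)
    (fun t ht => ?_) (fun t ht => ?_) S T hST hlac b0 b1 h0 h1
  · filter_upwards [eventually_ge_atTop 1] with m hm
    have h2 := phase (σ := fun m => -(-1) ^ m) sgn_le' hm ht (a1 t ht)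
      (H := fun t => Real.log (α t / (2 * Real.cosh t))) rfl
    have hc : 2 * Real.cosh t ≠ 0 := by have := Real.cosh_pos t; positivity
    have e : α t / (2 * Real.cosh t) * (Real.exp (m * t) + -(-1) ^ m * Real.exp (-(m * t))) =
        α t * FF (2 * Real.sinh t) m := by
      have h3 := FF_closed t m
      have h4 : Real.exp (m * t) + -(-1) ^ m * Real.exp (-(m * t)) =
          2 * Real.cosh t * FF (2 * Real.sinh t) m := by rw [h3]; ring
      rw [h4]
      field_simp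
    simp only [e] at h2
    exact h2
  · filter_upwards [eventually_ge_atTop 1] with m hm
    have h2 := phase (σ := fun m => (-1) ^ m) sgn_le hm ht (b1' t ht) (H := fun t => Real.log (β t)) rfl
    simp only [← LL_closed] at h2
    exact h2

end Pool.Agent.Q43.LC
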