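import Mathlib
import Pool.Agent.Q43.LC.Hyp
import Pool.Agent.Q43.LC.One

set_option autoImplicit false

/-!
# Lucas sequences at real parameters: almost every parameter, and the parameter `x`
-/

namespace Pool.Agent.Q43.LC

open Filter Topology Finset MeasureTheory
open scoped ENNReal NNReal

/-- change of the parameter, almost everywhere -/
lemma ae_transfer {c0 x0 : ℝ} {g : ℝ → ℝ} (hg : DifferentiableOn ℝ g (Set.Ioi c0))
    (hsurj : ∀ x, x0 < x → ∃ t, c0 < t ∧ g t = x) {Q : ℝ → Prop} (h : ∀ᵐ t : ℝ, c0 < t → Q (g t)) :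
    ∀ᵐ x : ℝ, x0 < x → Q x := by
  rw [ae_iff] at h ⊢
  have h1 := addHaar_image_eq_zero_of_differentiableOn_of_addHaar_eq_zero volume
    (f := g) (s := {t | ¬(c0 < t → Q (g t))}) (hg.mono (by
      intro t ht
      have ht' : ¬(c0 < t → Q (g t)) := ht
      push Not at ht'
      exact ht'.1)) h
  refine measure_mono_null ?_ h1
  intro x hx
  have hx' : ¬(x0 < x → Q x) := hx
  push Not at hx'
  obtain ⟨t, ht, rfl⟩ := hsurj x hx'.1
  refine ⟨t, ?_, rfl⟩
  show ¬(c0 < t → Q (g t))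
  push Not
  exact ⟨ht, hx'.2⟩

/-- the values for an almost everywhere statement -/
lemma ae_val {c0 : ℝ} (hc0 : 0 ≤ c0) {y v : ℕ → ℝ → ℝ} (hy : LF c0 y)
    (hv : ∀ t, c0 < t → ∀ᶠ m : ℕ in atTop, 0 < v m t ∧ Real.log (v m t) = y m t) {S : Set ℕ}
    (hs : Summable fun m : S => 1 / ((m : ℕ) : ℝ)) :
    ∀ᵐ t : ℝ, c0 < t → ∃ M : ℕ, ∀ m ∈ S, M ≤ m → ¬ (⌊v m t⌋₊).Prime := by
  filter_upwards [ae_fin hc0 hy hs] with t ht htc
  obtain ⟨M, hM⟩ := ht htc
  obtain ⟨M1, hM1⟩ := eventually_atTop.1 (hv t htc)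
  refine ⟨M + M1, fun m hm hge => ?_⟩
  obtain ⟨p1, p2⟩ := hM1 m (by omega)
  have h2 := hM m hm (by omega)
  rwa [← p2, Real.exp_log p1] at h2

/-- the phases of the first kind -/
lemma val_F {α : ℝ → ℝ} (hα : LogC1 α) : ∀ t, (0 : ℝ) < t → ∀ᶠ m : ℕ in atTop,
    0 < α t * FF (2 * Real.sinh t) m ∧ Real.log (α t * FF (2 * Real.sinh t) m) =
      yh (fun t => Real.log (α t / (2 * Real.cosh t))) (fun m => -(-1) ^ m) m t := by
  intro t ht
  obtain ⟨a1, _, _, _⟩ := logC1_div hα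
  filter_upwards [eventually_ge_atTop 1] with m hm
  have h2 := phase (σ := fun m => -(-1) ^ m) sgn_le' hm ht (a1 t ht)
    (H := fun t => Real.log (α t / (2 * Real.cosh t))) rfl
  have hc : 2 * Real.cosh t ≠ 0 := by have := Real.cosh_pos t; positivity
  have e : α t / (2 * Real.cosh t) * (Real.exp (m * t) + -(-1) ^ m * Real.exp (-(m * t))) =
      α t * FF (2 * Real.sinh t) m := by
    have h3 := FF_closed t m
    have h4 : Real.exp (m * t) + -(-1) ^ m * Real.exp (-(m * t)) =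
        2 * Real.cosh t * FF (2 * Real.sinh t) m := by rw [h3]; ring
    rw [h4]
    field_simp
  simp only [e] at h2
  exact h2

/-- the phases of the second kind -/
lemma val_L {β : ℝ → ℝ} (hβ : LogC1 β) : ∀ t, (0 : ℝ) < t → ∀ᶠ m : ℕ in atTop,
    0 < β t * LL (2 * Real.sinh t) m ∧ Real.log (β t * LL (2 * Real.sinh t) m) =
      yh (fun t => Real.log (β t)) (fun m => (-1) ^ m) m t := by
  intro t ht
  filter_upwards [eventually_ge_atTop 1] with m hm
  have h2 := phase (σ := fun m => (-1) ^ m) sgn_le hm ht (hβ.1 t ht) (H := fun t => Real.log (β t)) rfl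
  simp only [← LL_closed] at h2
  exact h2

/-- **Almost every parameter.** -/
theorem hyp_ae {α β : ℝ → ℝ} (hα : LogC1 α) (hβ : LogC1 β) {S : Set ℕ}
    (hs : Summable fun m : S => 1 / ((m : ℕ) : ℝ)) :
    ∀ᵐ t : ℝ, 0 < t → ∃ M : ℕ, ∀ m ∈ S, M ≤ m → ¬ (⌊α t * FF (2 * Real.sinh t) m⌋₊).Prime ∧
      ¬ (⌊β t * LL (2 * Real.sinh t) m⌋₊).Prime := by
  obtain ⟨_, H1, a2, a3⟩ := logC1_div hα
  obtain ⟨_, H2, b2, b3⟩ := id hβ
  filter_upwards [ae_val le_rfl (LF_yh a2 a3 sgn_le') (val_F hα) hs,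
    ae_val le_rfl (LF_yh b2 b3 sgn_le) (val_L hβ) hs] with t h1 h2 ht
  obtain ⟨M1, g1⟩ := h1 ht
  obtain ⟨M2, g2⟩ := h2 ht
  exact ⟨M1 + M2, fun m hm hge => ⟨g1 m hm (by omega), g2 m hm (by omega)⟩⟩

/-- the parameter `x = c sinh t`, almost everywhere -/
lemma ae_sinh {c : ℝ} (hc : 0 < c) {Q : ℝ → Prop} (h : ∀ᵐ t : ℝ, 0 < t → Q (c * Real.sinh t)) :
    ∀ᵐ x : ℝ, 0 < x → Q x := by
  refine ae_transfer (c0 := 0) (g := fun t => c * Real.sinh t) (by fun_prop) (fun x hx => ?_) h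
  refine ⟨Real.arsinh (x / c), Real.arsinh_pos_iff.2 (by positivity), ?_⟩
  show c * Real.sinh (Real.arsinh (x / c)) = x
  rw [Real.sinh_arsinh]
  field_simp

/-- the parameter `x = c sinh t`, dimension -/
lemma dim_sinh {c : ℝ} (hc : 0 < c) {a b : ℝ} (ha : 0 ≤ a) (hab : a < b) {Q : ℝ → Prop}
    (h : ∀ b0 b1 : ℝ, 0 < b0 → b0 < b1 → 1 ≤ dimH {t | b0 < t ∧ t < b1 ∧ Q (c * Real.sinh t)}) :
    dimH {x : ℝ | a < x ∧ x < b ∧ Q x} = 1 := by
  refine le_antisymm (dimH_le_one _) ?_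
  have hm : 0 < (a + b) / 2 / c := div_pos (by linarith) hc
  have h0 : 0 < Real.arsinh ((a + b) / 2 / c) := Real.arsinh_pos_iff.2 hm
  have h1 : Real.arsinh ((a + b) / 2 / c) < Real.arsinh (b / c) := by
    rw [Real.arsinh_lt_arsinh]
    apply div_lt_div_of_pos_right _ hc
    linarith
  refine (h _ _ h0 h1).trans ?_
  refine transfer (c0 := 0) (x0 := 0) (g := fun t => c * Real.sinh t)
    (f := fun x => Real.arsinh (x / c)) ?_ ?_ ?_ ?_
  · exact ((contDiff_id.div_const c).arsinh).contDiffOn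
  · intro t ht
    exact mul_pos hc (Real.sinh_pos_iff.2 ht)
  · intro t _
    show Real.arsinh (c * Real.sinh t / c) = t
    rw [mul_div_cancel_left₀ _ hc.ne', Real.arsinh_sinh]
  · rintro t ⟨t0, t1, hQ⟩
    refine ⟨h0.trans t0, ?_, ?_, hQ⟩
    · have h2 := Real.sinh_lt_sinh.2 t0
      rw [Real.sinh_arsinh, div_lt_iff₀ hc] at h2
      show a < c * Real.sinh t
      linarith
    · have h2 := Real.sinh_lt_sinh.2 t1
      rw [Real.sinh_arsinh, lt_div_iff₀ hc] at h2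
      show c * Real.sinh t < b
      linarith

end Pool.Agent.Q43.LC
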