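import Mathlib
import Pool.Agent.Q43.LC.HypAe

set_option autoImplicit false

/-!
# The numbers `8 T_m(x) ^ 2 + 1`
-/

namespace Pool.Agent.Q43.LC

open Filter Topology Finset MeasureTheory
open scoped ENNReal NNReal

/-- the Chebyshev polynomials at a real point -/
def TT (x : ℝ) : ℕ → ℝ
  | 0 => 1
  | 1 => x
  | n + 2 => 2 * x * TT x (n + 1) - TT x n

lemma TT_cosh (u : ℝ) (n : ℕ) : TT (Real.cosh u) n = Real.cosh (n * u) := by
  induction n using Nat.twoStepInduction with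
  | zero => simp [TT]
  | one => simp [TT]
  | more n h1 h2 =>
    show 2 * Real.cosh u * TT (Real.cosh u) (n + 1) - TT (Real.cosh u) n = _
    rw [h1, h2]
    have e1 : ((n + 2 : ℕ) : ℝ) * u = (n + 1 : ℕ) * u + u := by push_cast; ring
    have e2 : ((n : ℕ) : ℝ) * u = (n + 1 : ℕ) * u - u := by push_cast; ring
    rw [e1, e2, Real.cosh_add, Real.cosh_sub]
    ring

/-- the phases -/
noncomputable def cy (H : ℝ → ℝ) (m : ℕ) (t : ℝ) : ℝ :=
  m * t + H t + Real.log (1 + (5 / 2 * Real.exp (-(m * (1 * t - 0))) + 1 * Real.exp (-(m * (2 * t - 0)))))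

lemma LF_c {H H' : ℝ → ℝ} (hH : ∀ t, (0 : ℝ) < t → HasDerivAt H (H' t) t)
    (hH' : ContinuousOn H' (Set.Ioi 0)) : LF 0 (cy H) := by
  have h1 := RB_exp (c0 := 0) (θ := 1 / 4) (K := 5 / 2) (m1 := 1) (m0 := 0) (by norm_num) one_pos (by norm_num)
    (σ := fun _ => 5 / 2) fun m => by rw [abs_of_pos (by norm_num)]
  have h2 := RB_exp (c0 := 0) (θ := 1 / 4) (K := 1) (m1 := 2) (m0 := 0) (by norm_num) two_pos (by norm_num)
    (σ := fun _ => 1) fun m => by simp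
  have h3 := h1.add h2
  rw [show (1 / 4 + 1 / 4 : ℝ) = 1 / 2 by norm_num] at h3
  exact ⟨_, lc_of hH hH' h3⟩

lemma val_c {α : ℝ → ℝ} (hα : ∀ t, 0 < t → 0 < α t) (t : ℝ) (ht : 0 < t) (m : ℕ) :
    0 < α t * (8 * TT (Real.cosh (t / 2)) m ^ 2 + 1) ∧
      Real.log (α t * (8 * TT (Real.cosh (t / 2)) m ^ 2 + 1)) = cy (fun t => Real.log (2 * α t)) m t := by
  have ha := hα t ht
  refine ⟨by positivity, ?_⟩
  have e1 : 8 * TT (Real.cosh (t / 2)) m ^ 2 + 1 = 2 * (Real.exp (m * t) *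
      (1 + (5 / 2 * Real.exp (-(m * (1 * t - 0))) + 1 * Real.exp (-(m * (2 * t - 0)))))) := by
    rw [TT_cosh, Real.cosh_eq]
    set z := Real.exp (m * (t / 2)) with hz
    have hz0 : 0 < z := Real.exp_pos _
    have f1 : Real.exp (-(m * (t / 2))) = z⁻¹ := by rw [Real.exp_neg]
    have f2 : Real.exp (m * t) = z ^ 2 := by
      rw [hz, ← Real.exp_nat_mul]; congr 1; push_cast; ring
    have f3 : Real.exp (-(m * (1 * t - 0))) = (z ^ 2)⁻¹ := by
      rw [← f2, ← Real.exp_neg]; congr 1; ring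
    have f4 : Real.exp (-(m * (2 * t - 0))) = (z ^ 2)⁻¹ * (z ^ 2)⁻¹ := by
      rw [← f3, ← Real.exp_add]; congr 1; ring
    rw [f1, f2, f3, f4]
    field_simp
    ring
  rw [e1, ← mul_assoc, mul_comm (α t) 2, Real.log_mul (show 2 * α t ≠ 0 by positivity) (by positivity),
    Real.log_mul (Real.exp_pos (m * t)).ne' (by positivity), Real.log_exp]
  unfold cy
  ring

/-- the parameter `x = cosh (t / 2)`, dimension -/
lemma dim_cosh {a b : ℝ} (ha : 1 ≤ a) (hab : a < b) {Q : ℝ → Prop}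
    (h : ∀ b0 b1 : ℝ, 0 < b0 → b0 < b1 → 1 ≤ dimH {t | b0 < t ∧ t < b1 ∧ Q (Real.cosh (t / 2))}) :
    dimH {x : ℝ | a < x ∧ x < b ∧ Q x} = 1 := by
  refine le_antisymm (dimH_le_one _) ?_
  have hm : 1 < (a + b) / 2 := by linarith
  have h0 : 0 < 2 * Real.arcosh ((a + b) / 2) := mul_pos two_pos (Real.arcosh_pos hm)
  have h1 : 2 * Real.arcosh ((a + b) / 2) < 2 * Real.arcosh b := by
    have := (Real.arcosh_lt_arcosh (by linarith : 0 < (a + b) / 2) (by linarith : 0 < b)).2 (by linarith)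
    linarith
  have hmono : ∀ s t : ℝ, 0 ≤ s → s < t → Real.cosh s < Real.cosh t := fun s t hs hst =>
    Real.cosh_strictMonoOn hs (hs.trans hst.le) hst
  refine (h _ _ h0 h1).trans ?_
  refine transfer (c0 := 0) (x0 := 1) (g := fun t => Real.cosh (t / 2))
    (f := fun x => 2 * Real.arcosh x) ?_ ?_ ?_ ?_
  · exact contDiffOn_const.mul Real.contDiffOn_arcosh
  · intro t ht
    exact Real.one_lt_cosh.2 (by positivity)
  · intro t ht
    show 2 * Real.arcosh (Real.cosh (t / 2)) = t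
    rw [Real.arcosh_cosh (by positivity)]
    ring
  · rintro t ⟨t0, t1, hQ⟩
    have ht0 : 0 < t := h0.trans t0
    refine ⟨ht0, ?_, ?_, hQ⟩
    · have h2 := hmono (Real.arcosh ((a + b) / 2)) (t / 2) (by linarith) (by linarith)
      rw [Real.cosh_arcosh hm.le] at h2
      show a < Real.cosh (t / 2)
      linarith
    · have h2 := hmono (t / 2) (Real.arcosh b) (by linarith) (by linarith)
      rwa [Real.cosh_arcosh (by linarith)] at h2

lemma ae_cosh {Q : ℝ → Prop} (h : ∀ᵐ t : ℝ, 0 < t → Q (Real.cosh (t / 2))) : ∀ᵐ x : ℝ, 1 < x → Q x := by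
  refine ae_transfer (c0 := 0) (g := fun t => Real.cosh (t / 2)) (by fun_prop) (fun x hx => ?_) h
  refine ⟨2 * Real.arcosh x, mul_pos two_pos (Real.arcosh_pos hx), ?_⟩
  show Real.cosh (2 * Real.arcosh x / 2) = x
  rw [mul_div_cancel_left₀ _ (two_ne_zero), Real.cosh_arcosh hx.le]

/-- **The numbers `8 T_m(x) ^ 2 + 1`: dimension.** -/
theorem c_dim : ∃ C : ℕ, 2 ≤ C ∧ ∀ S : Set ℕ, Lac C S → ∀ b0 b1 : ℝ, 0 < b0 → b0 < b1 →
      1 ≤ dimH {t | b0 < t ∧ t < b1 ∧ ∃ M : ℕ, ∀ m ∈ S, M ≤ m →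
        (⌊8 * TT (Real.cosh (t / 2)) m ^ 2 + 1⌋₊).Prime} := by
  obtain ⟨C, hC2, hC⟩ := main2
  refine ⟨C, hC2, fun S hS b0 b1 h0 h1 => ?_⟩
  have hL : LF 0 (cy (fun _ => Real.log (2 * 1))) :=
    LF_c (H' := fun _ => 0) (fun t _ => hasDerivAt_const t _) continuousOn_const
  have hv := fun t (ht : (0 : ℝ) < t) => Eventually.of_forall (f := atTop) fun m : ℕ =>
    val_c (α := fun _ => 1) (fun _ _ => one_pos) t ht m
  refine (hC 0 _ _ _ _ le_rfl hL hL hv hv S ∅ (Set.disjoint_empty _)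
    (by rwa [Set.union_empty]) b0 b1 h0 h1).trans (dimH_mono ?_)
  rintro t ⟨t0, t1, M, h2, _⟩
  refine ⟨t0, t1, M, fun m hm hge => ?_⟩
  have := h2 m hm hge
  simpa using this

/-- **The numbers `8 T_m(x) ^ 2 + 1`: almost everywhere.** -/
theorem c_ae {S : Set ℕ} (hs : Summable fun m : S => 1 / ((m : ℕ) : ℝ)) :
    ∀ᵐ t : ℝ, 0 < t → ∃ M : ℕ, ∀ m ∈ S, M ≤ m → ¬ (⌊8 * TT (Real.cosh (t / 2)) m ^ 2 + 1⌋₊).Prime := by
  have hL : LF 0 (cy (fun _ => Real.log (2 * 1))) :=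
    LF_c (H' := fun _ => 0) (fun t _ => hasDerivAt_const t _) continuousOn_const
  have hv := fun t (ht : (0 : ℝ) < t) => Eventually.of_forall (f := atTop) fun m : ℕ =>
    val_c (α := fun _ => 1) (fun _ _ => one_pos) t ht m
  filter_upwards [ae_val le_rfl hL hv hs] with t ht h0
  obtain ⟨M, hM⟩ := ht h0
  refine ⟨M, fun m hm hge => ?_⟩
  have := hM m hm hge
  simpa using this

end Pool.Agent.Q43.LC
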