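import Mathlib
import Pool.Agent.Q43.LC.HypAe

set_option autoImplicit false

/-!
# Fixed bases: the numbers `⌊β b ^ m⌋ + c` for a variable amplitude `β`
-/

namespace Pool.Agent.Q43.LC

open Filter Topology Finset MeasureTheory
open scoped ENNReal NNReal

/-- **The children of an interval**, `y t = t + L`. -/
theorem stepA {δ η : ℝ} {X₀ : ℕ} (hH : ∀ X Y : ℕ, X₀ ≤ X → (X : ℝ) ^ (1 - δ) ≤ Y → Y ≤ X →
    η * Y / Real.log X ≤ (((Ioc X (X + Y)).filter Nat.Prime).card : ℝ)) (hδ : 0 < δ) (hδ1 : δ < 1)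
    (hη : 0 < η) {t0 t1 L : ℝ} {K c : ℕ} {κ : ℝ} (hκ0 : 0 < κ) (hκ1 : κ ≤ 1)
    (hbig : (X₀ : ℝ) + c + 3 ≤ Real.exp (t0 + L)) (hκ : 8 * Real.exp (-(δ * (t0 + L))) ≤ κ)
    (hK : (K : ℝ) ≤ η * κ * Real.exp (t0 + L) / (4 * (t1 + L + 1)))
    {l h : ℝ} (hl : t0 ≤ l) (hlh : l ≤ h) (hh : h ≤ t1) (hlen : κ ≤ h - l) :
    ∃ lo' hi' : ℕ → ℝ, (∀ k < K, l ≤ lo' k ∧ lo' k ≤ hi' k ∧ hi' k ≤ h ∧
      Real.exp (-(t1 + L)) / 3 ≤ hi' k - lo' k ∧
      ∀ t ∈ Set.Icc (lo' k) (hi' k), (⌊Real.exp (t + L)⌋₊ + c).Prime) ∧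
      ∀ k k', k < k' → k' < K → hi' k + ((k' : ℝ) - k) * Real.exp (-(t1 + L)) ≤ lo' k' := by
  set E := Real.exp (l + L) with hE
  have hE0 : 0 < E := Real.exp_pos _
  have hElo : Real.exp (t0 + L) ≤ E := Real.exp_le_exp.2 (by linarith)
  have hE3 : (X₀ : ℝ) + c + 3 ≤ E := hbig.trans hElo
  have hX00 : (0 : ℝ) ≤ X₀ := Nat.cast_nonneg _
  have hc0 : (0 : ℝ) ≤ c := Nat.cast_nonneg _
  have hE3' : 3 ≤ E := by linarith
  have hκE : 8 * E ^ (1 - δ) ≤ κ * E := by
    have h1 : 8 * Real.exp (-(δ * (l + L))) ≤ κ := by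
      refine le_trans ?_ hκ
      have h2 : δ * (t0 + L) ≤ δ * (l + L) := mul_le_mul_of_nonneg_left (by linarith) hδ.le
      have := Real.exp_le_exp.2 (neg_le_neg h2)
      linarith
    have h2 : E ^ (1 - δ) = Real.exp (-(δ * (l + L))) * E := by
      rw [hE, ← Real.exp_mul, ← Real.exp_add]
      congr 1
      ring
    rw [h2]
    calc 8 * (Real.exp (-(δ * (l + L))) * E) = (8 * Real.exp (-(δ * (l + L)))) * E := by ring
      _ ≤ κ * E := by gcongr
  have hE1 : 1 ≤ E ^ (1 - δ) := Real.one_le_rpow (by linarith) (by linarith)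
  have hκE8 : 8 ≤ κ * E := by linarith
  set X := ⌈E⌉₊ + c with hX
  have hX1 : E + c ≤ X := by
    rw [hX]
    push_cast
    linarith [Nat.le_ceil E]
  have hX2 : (X : ℝ) < E + 1 + c := by
    rw [hX]
    push_cast
    linarith [Nat.ceil_lt_add_one hE0.le]
  set Y := ⌊κ * E / 2⌋₊ with hY
  have hY1 : (Y : ℝ) ≤ κ * E / 2 := Nat.floor_le (by positivity)
  have hY2 : κ * E / 2 < Y + 1 := Nat.lt_floor_add_one _
  have hYX : Y ≤ X := by
    have : (Y : ℝ) ≤ X := by nlinarith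
    exact_mod_cast this
  have hXE : (X : ℝ) ≤ 2 * E := by linarith
  have hY4 : κ * E / 4 ≤ Y := by linarith
  have hpow : (X : ℝ) ^ (1 - δ) ≤ Y := by
    have h1 : (X : ℝ) ^ (1 - δ) ≤ (2 * E) ^ (1 - δ) :=
      Real.rpow_le_rpow (Nat.cast_nonneg _) hXE (by linarith)
    have h2 : (2 * E) ^ (1 - δ) ≤ 2 * E ^ (1 - δ) := by
      rw [Real.mul_rpow (by norm_num) hE0.le]
      have h3 : (2 : ℝ) ^ (1 - δ) ≤ 2 := by
        calc (2 : ℝ) ^ (1 - δ) ≤ 2 ^ (1 : ℝ) := Real.rpow_le_rpow_of_exponent_le (by norm_num) (by linarith)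
          _ = 2 := Real.rpow_one _
      gcongr
    linarith
  have hlogX : Real.log X ≤ t1 + L + 1 := by
    have h1 : Real.log X ≤ Real.log (2 * E) := Real.log_le_log (by linarith) hXE
    rw [Real.log_mul (by norm_num) hE0.ne', hE, Real.log_exp] at h1
    have h3 : Real.log 2 ≤ 1 := by
      have := Real.log_two_lt_d9
      linarith
    linarith
  have hlogX0 : 0 < Real.log X := Real.log_pos (by linarith)
  have hKY : (K : ℝ) ≤ η * Y / Real.log X := by
    refine hK.trans ?_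
    have hden : 0 < t1 + L + 1 := hlogX0.trans_le hlogX
    calc η * κ * Real.exp (t0 + L) / (4 * (t1 + L + 1)) ≤
          η * κ * E / (4 * (t1 + L + 1)) := by gcongr
      _ = η * (κ * E / 4) / (t1 + L + 1) := by field_simp
      _ ≤ η * Y / (t1 + L + 1) := by gcongr
      _ ≤ η * Y / Real.log X := by gcongr
  have hX0X : X₀ ≤ X := by
    have : (X₀ : ℝ) ≤ X := by linarith
    exact_mod_cast this
  obtain ⟨r, hr1, hr2⟩ := many hH hX0X hpow hYX hKY
  have hr3 : ∀ k < K, (r k).Prime ∧ 2 < r k := by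
    intro k hk
    obtain ⟨g1, g2, _⟩ := hr1 k hk
    refine ⟨g1, ?_⟩
    have : (3 : ℝ) ≤ X := by linarith
    have : 3 ≤ X := by exact_mod_cast this
    omega
  have hbd : ∀ k < K, E ≤ (r k : ℝ) - c ∧ ((r k : ℝ) - c + 1 / 2) ≤ E * (1 + κ) := by
    intro k hk
    obtain ⟨_, g2, g3⟩ := hr1 k hk
    have g2' : (X : ℝ) < r k := by exact_mod_cast g2
    have g3' : (r k : ℝ) ≤ X + Y := by exact_mod_cast g3
    constructor
    · linarith
    · have e : E * (1 + κ) = E + κ * E := by ring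
      rw [e]
      linarith
  have hend : E * (1 + κ) ≤ Real.exp (h + L) := by
    calc E * (1 + κ) ≤ E * Real.exp κ := by
          gcongr
          linarith [Real.add_one_le_exp κ]
      _ = Real.exp (l + L + κ) := by rw [hE, ← Real.exp_add]
      _ ≤ _ := Real.exp_le_exp.2 (by linarith)
  have hup : Real.exp (h + L) ≤ Real.exp (t1 + L) := Real.exp_le_exp.2 (by linarith)
  -- lengths
  have hlen2 : ∀ a b : ℝ, 0 < a → a ≤ b → b ≤ Real.exp (t1 + L) →
      (b - a) * Real.exp (-(t1 + L)) ≤ (Real.log b - L) - (Real.log a - L) := by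
    intro a b ha hab hb
    have hb0 : 0 < b := ha.trans_le hab
    have h3 : (b - a) / b ≤ Real.log b - Real.log a := by
      have h4 := Real.log_le_sub_one_of_pos (show 0 < a / b by positivity)
      rw [Real.log_div ha.ne' hb0.ne'] at h4
      have h5 : (b - a) / b = 1 - a / b := by field_simp
      linarith
    have h4 : (b - a) * Real.exp (-(t1 + L)) ≤ (b - a) / b := by
      rw [Real.exp_neg, div_eq_mul_inv]
      have : (Real.exp (t1 + L))⁻¹ ≤ b⁻¹ := by gcongr
      exact mul_le_mul_of_nonneg_left this (by linarith)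
    linarith
  refine ⟨fun k => Real.log ((r k : ℝ) - c) - L, fun k => Real.log ((r k : ℝ) - c + 1 / 2) - L,
    fun k hk => ?_, fun k k' hkk hk' => ?_⟩
  · obtain ⟨b1, b2⟩ := hbd k hk
    have hpos : 0 < (r k : ℝ) - c := hE0.trans_le b1
    have hL := hlen2 ((r k : ℝ) - c) ((r k : ℝ) - c + 1 / 2) hpos (by linarith)
      (b2.trans (hend.trans hup))
    have hex : 0 < Real.exp (-(t1 + L)) := Real.exp_pos _
    refine ⟨?_, ?_, ?_, ?_, fun t ht => ?_⟩
    · have h1 : l + L ≤ Real.log ((r k : ℝ) - c) := by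
        rw [Real.le_log_iff_exp_le hpos]
        exact b1
      show l ≤ Real.log ((r k : ℝ) - c) - L
      linarith
    · have h1 := Real.log_le_log hpos (show (r k : ℝ) - c ≤ (r k : ℝ) - c + 1 / 2 by linarith)
      show Real.log ((r k : ℝ) - c) - L ≤ Real.log ((r k : ℝ) - c + 1 / 2) - L
      linarith
    · have h1 : Real.log ((r k : ℝ) - c + 1 / 2) ≤ h + L := by
        rw [Real.log_le_iff_le_exp (by linarith)]
        exact b2.trans hend
      show Real.log ((r k : ℝ) - c + 1 / 2) - L ≤ h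
      linarith
    · refine le_trans ?_ hL
      linarith
    · obtain ⟨g1, g2⟩ := ht
      have e1 : (r k : ℝ) - c ≤ Real.exp (t + L) := by
        rw [← Real.log_le_iff_le_exp hpos]
        linarith
      have e2 : Real.exp (t + L) ≤ (r k : ℝ) - c + 1 / 2 := by
        rw [← Real.le_log_iff_exp_le (by linarith)]
        linarith
      have hcr : c ≤ r k := by
        have : (c : ℝ) ≤ r k := by linarith
        exact_mod_cast this
      have e3 : ⌊Real.exp (t + L)⌋₊ = r k - c := by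
        rw [Nat.floor_eq_iff (Real.exp_pos _).le, Nat.cast_sub hcr]
        exact ⟨e1, by linarith⟩
      rw [e3, Nat.sub_add_cancel hcr]
      exact (hr3 k hk).1
  · have hkK : k < K := hkk.trans hk'
    obtain ⟨b1, b2⟩ := hbd k hkK
    obtain ⟨j, rfl⟩ := Nat.exists_eq_add_of_lt hkk
    obtain ⟨b3, b4⟩ := hbd _ hk'
    have hdt := dist_two hr3 hr2 k (j + 1) (by omega)
    have hdt' : (r k : ℝ) + 2 * (j + 1) ≤ r (k + j + 1) := by
      have : k + (j + 1) = k + j + 1 := by ring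
      rw [this] at hdt
      exact_mod_cast hdt
    have hj0 : (0 : ℝ) ≤ j := Nat.cast_nonneg j
    have hL := hlen2 ((r k : ℝ) - c + 1 / 2) ((r (k + j + 1) : ℝ) - c) (by linarith) (by linarith)
      (by linarith)
    have hex : 0 < Real.exp (-(t1 + L)) := Real.exp_pos _
    have e : (((k + j + 1 : ℕ) : ℝ) - k) = j + 1 := by push_cast; ring
    rw [e]
    have h1 : ((j : ℝ) + 1) * Real.exp (-(t1 + L)) ≤
        ((r (k + j + 1) : ℝ) - c - ((r k : ℝ) - c + 1 / 2)) * Real.exp (-(t1 + L)) := by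
      refine mul_le_mul_of_nonneg_right ?_ hex.le
      linarith
    show Real.log ((r k : ℝ) - c + 1 / 2) - L + ((j : ℝ) + 1) * Real.exp (-(t1 + L)) ≤
      Real.log ((r (k + j + 1) : ℝ) - c) - L
    linarith

/-- the preceding size -/
def pL (L : ℕ → ℝ) : ℕ → ℝ
  | 0 => 0
  | i + 1 => L i

/-- **Primes at all indices of a sequence**, variable amplitude. -/
theorem seqA {δ η : ℝ} {X₀ : ℕ} (hH : ∀ X Y : ℕ, X₀ ≤ X → (X : ℝ) ^ (1 - δ) ≤ Y → Y ≤ X →
    η * Y / Real.log X ≤ (((Ioc X (X + Y)).filter Nat.Prime).card : ℝ)) (hδ : 0 < δ) (hδ1 : δ < 1)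
    (hη : 0 < η) {C0 : ℝ} (hC0 : 4 / δ ≤ C0) (h8 : 8 ≤ C0) {C1 : ℝ} (hC1 : 0 ≤ C1) {t0 t1 : ℝ}
    (h01 : t0 < t1) (c : ℕ) {s ε : ℝ} (hs : 0 < s) (hs1 : s ≤ 1) (hε : 0 < ε)
    (hε8 : ε ≤ 1 / 8) (hbr : 2 * ε * (1 + C1) ≤ 1 - s) :
    ∃ N : ℝ, 0 < N ∧ ∀ (L : ℕ → ℝ), N ≤ L 0 → (∀ i, C0 * L i ≤ L (i + 1)) →
      (∀ i, L (i + 1) ≤ C1 * L i) →
      ENNReal.ofReal s ≤ dimH {t ∈ Set.Icc t0 t1 | ∀ i, (⌊Real.exp (t + L i)⌋₊ + c).Prime} := by
  have hτ : 0 < t1 - t0 := by linarith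
  set κ' : ℝ := min 1 (t1 - t0) * Real.exp (-|t1|) / 3 with hκ'
  have hmin : 0 < min 1 (t1 - t0) := lt_min one_pos hτ
  have hκ'0 : 0 < κ' := by rw [hκ']; positivity
  have he1 : Real.exp (-|t1|) ≤ 1 := Real.exp_le_one_iff.2 (by linarith [abs_nonneg t1])
  have hκ'1 : κ' ≤ 1 := by
    have : min 1 (t1 - t0) ≤ 1 := min_le_left _ _
    rw [hκ']
    nlinarith [Real.exp_pos (-|t1|)]
  have hκ't : κ' ≤ t1 - t0 := by
    have : min 1 (t1 - t0) ≤ t1 - t0 := min_le_right _ _
    rw [hκ']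
    nlinarith [Real.exp_pos (-|t1|)]
  have hκ'e : κ' ≤ Real.exp (-t1) / 3 := by
    have h1 : min 1 (t1 - t0) ≤ 1 := min_le_left _ _
    have h2 : Real.exp (-|t1|) ≤ Real.exp (-t1) := Real.exp_le_exp.2 (by linarith [le_abs_self t1])
    rw [hκ']
    nlinarith [Real.exp_pos (-|t1|)]
  -- the conditions on large sizes
  have hsmall : ∀ A B : ℝ, ∀ᶠ x : ℝ in atTop, (A * x + B) * Real.exp (-(ε * x)) ≤ 1 := by
    intro A B
    have hlin : Tendsto (fun x : ℝ => ε * x) atTop atTop := tendsto_id.const_mul_atTop hε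
    have l0 := (Real.tendsto_pow_mul_exp_neg_atTop_nhds_zero 0).comp hlin
    have l1 := (Real.tendsto_pow_mul_exp_neg_atTop_nhds_zero 1).comp hlin
    have l2 : Tendsto (fun x : ℝ => (A * x + B) * Real.exp (-(ε * x))) atTop (𝓝 0) := by
      have := (l1.const_mul (A / ε)).add (l0.const_mul B)
      simp only [mul_zero, add_zero] at this
      refine this.congr fun n => ?_
      simp only [Function.comp, pow_one, pow_zero, one_mul]
      field_simp
    exact (l2.eventually_lt_const one_pos).mono fun n hn => hn.le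
  have g1 := hsmall (8 / (η * κ' * Real.exp t0)) (8 * (|t1| + 1) / (η * κ' * Real.exp t0))
  have g2 := hsmall 0 (Real.exp t1)
  have g3 : ∀ᶠ x : ℝ in atTop, 3 - Real.log κ' - δ * t0 ≤ δ / 2 * x :=
    (tendsto_id.const_mul_atTop (show 0 < δ / 2 by positivity)).eventually_ge_atTop _
  have g4 : ∀ᶠ x : ℝ in atTop, (X₀ : ℝ) + c + 3 ≤ Real.exp (t0 + x) :=
    (Real.tendsto_exp_atTop.comp (tendsto_atTop_add_const_left _ t0 tendsto_id)).eventually_ge_atTop _
  obtain ⟨N, hN⟩ := eventually_atTop.1 (g1.and (g2.and (g3.and (g4.and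
    (eventually_ge_atTop (2 * |t1| + 8))))))
  refine ⟨max N 1, by positivity, fun L hL0 hL1 hL2 => ?_⟩
  have hC00 : 0 < C0 := by linarith
  have hLN : ∀ i, max N 1 ≤ L i := by
    intro i
    induction i with
    | zero => exact hL0
    | succ i ih =>
      have h2 : 0 < L i := by
        have : (1 : ℝ) ≤ L i := (le_max_right _ _).trans ih
        linarith
      have := hL1 i
      nlinarith
  have hLN' : ∀ i, N ≤ L i := fun i => (le_max_left _ _).trans (hLN i)
  have hLpos : ∀ i, 0 < L i := fun i => by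
    have : (1 : ℝ) ≤ L i := (le_max_right _ _).trans (hLN i)
    linarith
  have hpv0 : ∀ i, 0 ≤ pL L i := by
    intro i
    cases i with
    | zero => exact le_rfl
    | succ i => exact (hLpos i).le
  have hpv : ∀ i, C0 * pL L i ≤ L i := by
    intro i
    cases i with
    | zero =>
      show C0 * 0 ≤ L 0
      rw [mul_zero]
      exact (hLpos 0).le
    | succ i => exact hL1 i
  have hpv8 : ∀ i, 8 * pL L i ≤ L i := fun i =>
    (mul_le_mul_of_nonneg_right h8 (hpv0 i)).trans (hpv i)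
  have hpvδ : ∀ i, pL L i ≤ δ / 4 * L i := by
    intro i
    have h3 : 4 / δ * pL L i ≤ L i := (mul_le_mul_of_nonneg_right hC0 (hpv0 i)).trans (hpv i)
    have : pL L i = δ / 4 * (4 / δ * pL L i) := by field_simp
    rw [this]
    gcongr
  set κ : ℕ → ℝ := fun i => κ' * Real.exp (-(pL L i)) with hκ
  set A : ℕ → ℝ := fun i => η * κ i * Real.exp (t0 + L i) / (4 * (t1 + L i + 1)) with hA
  set K : ℕ → ℕ := fun i => ⌊A i⌋₊ with hK
  set lam : ℕ → ℝ := fun i => Real.exp (-(t1 + L i)) with hlam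
  have hden : ∀ i, 0 < t1 + L i + 1 ∧ t1 + L i + 1 ≤ L i + (|t1| + 1) := fun i => by
    obtain ⟨_, _, _, _, f5⟩ := hN (L i) (hLN' i)
    have h1 := neg_abs_le t1
    have h2 := le_abs_self t1
    have h3 := abs_nonneg t1
    constructor <;> linarith
  have hA0 : ∀ i, 0 ≤ A i := fun i => by
    have := (hden i).1
    simp only [hA, hκ]
    positivity
  have hA2 : ∀ i, 2 * Real.exp (L i - pL L i - ε * L i) ≤ A i := by
    intro i
    obtain ⟨f1, _⟩ := hN (L i) (hLN' i)
    obtain ⟨hd, hd2⟩ := hden i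
    simp only [hA, hκ]
    rw [le_div_iff₀ (by positivity)]
    set G := η * κ' * Real.exp t0 with hG
    have hG0 : 0 < G := by positivity
    have e1 : η * (κ' * Real.exp (-(pL L i))) * Real.exp (t0 + L i) = G * Real.exp (L i - pL L i) := by
      have : Real.exp (L i - pL L i) = Real.exp (-(pL L i)) * Real.exp (L i) := by
        rw [← Real.exp_add]; congr 1; ring
      rw [this, Real.exp_add, hG]
      ring
    have e3 : Real.exp (L i - pL L i - ε * L i) = Real.exp (L i - pL L i) * Real.exp (-(ε * L i)) := by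
      rw [← Real.exp_add]
      congr 1
    rw [e1, e3]
    have h5 : 0 < Real.exp (L i - pL L i) := Real.exp_pos _
    have h6 : 0 < Real.exp (-(ε * L i)) := Real.exp_pos _
    calc 2 * (Real.exp (L i - pL L i) * Real.exp (-(ε * L i))) * (4 * (t1 + L i + 1)) ≤
          2 * (Real.exp (L i - pL L i) * Real.exp (-(ε * L i))) * (4 * (L i + (|t1| + 1))) := by gcongr
      _ = Real.exp (L i - pL L i) * (G * ((8 / G * L i + 8 * (|t1| + 1) / G) *
            Real.exp (-(ε * L i)))) := by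
          field_simp
          ring
      _ ≤ Real.exp (L i - pL L i) * (G * 1) := by gcongr
      _ = _ := by ring
  have hbig : ∀ i, 2 ≤ Real.exp (L i - pL L i - ε * L i) := by
    intro i
    obtain ⟨_, _, _, _, f5⟩ := hN (L i) (hLN' i)
    have h3 := hpv8 i
    have h4 : ε * L i ≤ L i / 8 := by
      have := hLpos i
      nlinarith
    have h6 := abs_nonneg t1
    have h5 : 2 ≤ L i - pL L i - ε * L i := by linarith
    calc (2 : ℝ) ≤ 2 + 1 := by norm_num
      _ ≤ Real.exp 2 := Real.add_one_le_exp 2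
      _ ≤ _ := Real.exp_le_exp.2 h5
  have hKlo : ∀ i, Real.exp (L i - pL L i - ε * L i) ≤ K i := by
    intro i
    have h3 := hA2 i
    have h4 := hbig i
    have h5 := Nat.lt_floor_add_one (A i)
    have h6 : A i < (K i : ℝ) + 1 := h5
    linarith
  have hK2 : ∀ i, 2 ≤ K i := by
    intro i
    have := (hbig i).trans (hKlo i)
    exact_mod_cast this
  have hlam0 : ∀ i, 0 < lam i := fun i => Real.exp_pos _
  have hlamlo : ∀ i, Real.exp (-(L i) - ε * L i) ≤ lam i := by
    intro i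
    obtain ⟨_, f2, _⟩ := hN (L i) (hLN' i)
    simp only [hlam]
    have e3 : Real.exp (-(L i) - ε * L i) = Real.exp (-(t1 + L i)) * ((0 * L i + Real.exp t1) *
        Real.exp (-(ε * L i))) := by
      rw [zero_mul, zero_add, ← Real.exp_add, ← Real.exp_add]
      congr 1
      ring
    rw [e3]
    calc _ ≤ Real.exp (-(t1 + L i)) * 1 := by gcongr
      _ = _ := mul_one _
  have hQ : ∀ i, Real.exp (pL L i * (1 - 2 * ε)) ≤ QQ K i := by
    intro i
    induction i with
    | zero => simp [pL, QQ_zero]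
    | succ i ih =>
      rw [QQ_succ]
      push_cast
      have h3 := hKlo i
      calc Real.exp (pL L (i + 1) * (1 - 2 * ε)) ≤
            Real.exp (pL L i * (1 - 2 * ε)) * Real.exp (L i - pL L i - ε * L i) := by
            rw [← Real.exp_add]
            refine Real.exp_le_exp.2 ?_
            show L i * _ ≤ _
            have h4 := hpv8 i
            have h5 := hpv0 i
            nlinarith [mul_nonneg hε.le h5, mul_nonneg hε.le (hLpos i).le]
        _ ≤ QQ K i * K i := by gcongr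
  have hKl : ∀ i, Real.exp (-(pL L i) - 2 * ε * L i) ≤ K i * lam i := by
    intro i
    calc Real.exp (-(pL L i) - 2 * ε * L i) =
          Real.exp (L i - pL L i - ε * L i) * Real.exp (-(L i) - ε * L i) := by
          rw [← Real.exp_add]
          congr 1
          ring
      _ ≤ _ := mul_le_mul (hKlo i) (hlamlo i) (Real.exp_pos _).le (Nat.cast_nonneg _)
  have hKl0 : ∀ i, 0 < K i * lam i := fun i => (Real.exp_pos _).trans_le (hKl i)
  set C : ℝ := 2 + 2 / (K 0 * lam 0) ^ s with hCd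
  have hC0' : 0 < 2 / ((K 0 : ℝ) * lam 0) ^ s := div_pos two_pos (Real.rpow_pos_of_pos (hKl0 0) s)
  have hg : ∀ i, 2 ≤ C * (K i * lam i) ^ s * QQ K i := by
    intro i
    have hp := Real.rpow_pos_of_pos (hKl0 i) s
    cases i with
    | zero =>
      rw [QQ_zero, Nat.cast_one, mul_one]
      calc (2 : ℝ) = 2 / (K 0 * lam 0) ^ s * (K 0 * lam 0) ^ s := by field_simp
        _ ≤ _ := by
          refine mul_le_mul_of_nonneg_right ?_ hp.le
          rw [hCd]; linarith
    | succ i =>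
      have h3 := hKl (i + 1)
      have h4 := hQ (i + 1)
      have h5 : 1 ≤ (K (i + 1) * lam (i + 1)) ^ s * QQ K (i + 1) := by
        calc (1 : ℝ) = Real.exp 0 := Real.exp_zero.symm
          _ ≤ Real.exp ((-(pL L (i + 1)) - 2 * ε * L (i + 1)) * s + pL L (i + 1) * (1 - 2 * ε)) := by
            refine Real.exp_le_exp.2 ?_
            have h6 : L (i + 1) ≤ C1 * pL L (i + 1) := hL2 i
            have h7 := hpv0 (i + 1)
            set P := pL L (i + 1) with hP
            have h9 : 2 * ε * L (i + 1) ≤ 2 * ε * (C1 * P) := mul_le_mul_of_nonneg_left h6 (by positivity)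
            have h10 : s * (P + 2 * ε * L (i + 1)) ≤ s * (P + 2 * ε * (C1 * P)) :=
              mul_le_mul_of_nonneg_left (by linarith) hs.le
            have h12 : s * (2 * ε * (C1 * P)) ≤ 2 * ε * (C1 * P) := by
              have : 0 ≤ 2 * ε * (C1 * P) := by positivity
              nlinarith
            have h11 : 0 ≤ P * ((1 - s) - 2 * ε * (1 + C1)) := mul_nonneg h7 (by linarith)
            nlinarith
          _ = Real.exp (-(pL L (i + 1)) - 2 * ε * L (i + 1)) ^ s *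
              Real.exp (pL L (i + 1) * (1 - 2 * ε)) := by
            rw [← Real.exp_mul, ← Real.exp_add]
          _ ≤ _ := by gcongr
      have h6 : 2 ≤ C := by rw [hCd]; linarith
      rw [mul_assoc]
      nlinarith
  refine build (K := K) (lam := lam) (V := fun i l h => t0 ≤ l ∧ l ≤ h ∧ h ≤ t1 ∧ κ i ≤ h - l)
    (G := fun i => {t | (⌊Real.exp (t + L i)⌋₊ + c).Prime}) hK2 hlam0 ⟨le_rfl, h01.le, le_rfl, ?_⟩
    (fun i l h hv => ⟨hv.1, hv.2.1, hv.2.2.1⟩) ?_ hs hs1 (by positivity) hg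
  · show κ' * Real.exp (-(0 : ℝ)) ≤ t1 - t0
    rw [neg_zero, Real.exp_zero, mul_one]
    exact hκ't
  · rintro i l h ⟨v1, v2, v3, v4⟩
    obtain ⟨_, _, f3, f4, _⟩ := hN (L i) (hLN' i)
    have hκi1 : κ i ≤ 1 := by
      have h1 : Real.exp (-(pL L i)) ≤ 1 := Real.exp_le_one_iff.2 (by linarith [hpv0 i])
      simp only [hκ]
      nlinarith [Real.exp_pos (-(pL L i))]
    have hκi0 : 0 < κ i := by simp only [hκ]; positivity
    have hκ8 : 8 * Real.exp (-(δ * (t0 + L i))) ≤ κ i := by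
      have h3 : (8 : ℝ) ≤ Real.exp 3 := by
        have h4 : (2 : ℝ) ≤ Real.exp 1 := by linarith [Real.add_one_le_exp (1 : ℝ)]
        have h5 : Real.exp 3 = Real.exp 1 ^ 3 := by rw [← Real.exp_nat_mul]; norm_num
        rw [h5]
        calc (8 : ℝ) = 2 ^ 3 := by norm_num
          _ ≤ _ := by gcongr
      calc 8 * Real.exp (-(δ * (t0 + L i))) ≤ Real.exp 3 * Real.exp (-(δ * (t0 + L i))) := by gcongr
        _ = Real.exp (3 - δ * (t0 + L i)) := by rw [← Real.exp_add]; congr 1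
        _ ≤ Real.exp (Real.log κ' - pL L i) := by
          refine Real.exp_le_exp.2 ?_
          have h5 := hpvδ i
          have h6 := hLpos i
          nlinarith
        _ = κ i := by
          rw [sub_eq_add_neg, Real.exp_add, Real.exp_log hκ'0]
    obtain ⟨lo', hi', g1, g2⟩ := stepA hH hδ hδ1 hη (c := c) hκi0 hκi1 f4 hκ8
      (Nat.floor_le (hA0 i)) v1 v2 v3 v4
    refine ⟨lo', hi', fun k hk => ?_, g2⟩
    obtain ⟨c1, c2, c3, c4, c5⟩ := g1 k hk
    refine ⟨c1, c3, ⟨v1.trans c1, c2, c3.trans v3, ?_⟩, c5⟩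
    show κ' * Real.exp (-(L i)) ≤ _
    refine le_trans ?_ c4
    have e : Real.exp (-(t1 + L i)) / 3 = Real.exp (-t1) / 3 * Real.exp (-(L i)) := by
      rw [show -(t1 + L i) = -t1 + -(L i) by ring, Real.exp_add]
      ring
    rw [e]
    gcongr

/-- **All exponents of a lacunary set**, fixed base, variable amplitude. -/
theorem amp : ∃ C : ℕ, 2 ≤ C ∧ ∀ (b : ℝ) (c : ℕ), 1 < b → ∀ S : Set ℕ, Lac C S →
    ∀ b0 b1 : ℝ, b0 < b1 →
      1 ≤ dimH {t | b0 < t ∧ t < b1 ∧ ∃ M : ℕ, ∀ m ∈ S, M ≤ m →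
        (⌊Real.exp t * b ^ m⌋₊ + c).Prime} := by
  obtain ⟨δ, η, hδ, hδ1, hη, X₀, _, hH⟩ := Pool.Agent.H295R3.D.hoheisel
  obtain ⟨C, hC⟩ := exists_nat_ge (4 / δ + 8)
  have h4δ : 0 < 4 / δ := by positivity
  have hC8 : 8 ≤ C := by
    have : (8 : ℝ) ≤ C := by linarith
    exact_mod_cast this
  refine ⟨C, by omega, fun b c hb S hS b0 b1 hb01 => ?_⟩
  refine le_of_forall_lt fun c' hc => ?_
  have hctop : c' ≠ ⊤ := ne_top_of_lt hc
  have hcr : c'.toReal < 1 := by
    have := (ENNReal.toReal_lt_toReal hctop ENNReal.one_ne_top).2 hc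
    simpa using this
  have hcr0 : 0 ≤ c'.toReal := ENNReal.toReal_nonneg
  set s : ℝ := (c'.toReal + 1) / 2 with hs
  have hs0 : 0 < s := by rw [hs]; linarith
  have hs1 : s < 1 := by rw [hs]; linarith
  have hcs : c' < ENNReal.ofReal s := by
    rw [← ENNReal.ofReal_toReal hctop, ENNReal.ofReal_lt_ofReal_iff hs0, hs]
    linarith
  refine hcs.trans_le ?_
  have hlb : 0 < Real.log b := Real.log_pos hb
  set C1 : ℝ := (C : ℝ) ^ 2 with hC1
  have hC10 : 0 ≤ C1 := by positivity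
  set ε : ℝ := min (1 / 8) ((1 - s) / (2 * (1 + C1))) with hε
  have hε0 : 0 < ε := lt_min (by norm_num) (div_pos (by linarith) (by positivity))
  have hε8 : ε ≤ 1 / 8 := min_le_left _ _
  have hε1 : 2 * ε * (1 + C1) ≤ 1 - s := by
    have : ε ≤ (1 - s) / (2 * (1 + C1)) := min_le_right _ _
    rw [le_div_iff₀ (by positivity)] at this
    linarith
  set t0 := b0 + (b1 - b0) / 3 with ht0
  set t1 := b0 + 2 * ((b1 - b0) / 3) with ht1
  obtain ⟨N, hN0, hN⟩ := seqA hH hδ hδ1 hη (C0 := C) (by linarith) (by exact_mod_cast hC8) hC10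
    (t0 := t0) (t1 := t1) (by rw [ht0, ht1]; linarith) c hs0 hs1.le hε0 hε8 hε1
  obtain ⟨N', hN'⟩ := exists_nat_ge (N / Real.log b)
  obtain ⟨n, hn0, hn1, hn2, hn3⟩ := exists_seq (C := C) (by omega) hS (N := N' + 1) (by omega)
  refine (hN (fun i => n i * Real.log b) ?_ (fun i => ?_) (fun i => ?_)).trans (dimH_mono ?_)
  · have h1 : (N' : ℝ) ≤ n 0 := by exact_mod_cast (by omega : N' ≤ n 0)
    rw [div_le_iff₀ hlb] at hN'
    exact hN'.trans (mul_le_mul_of_nonneg_right h1 hlb.le)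
  · have h1 : (C : ℝ) * n i ≤ n (i + 1) := by exact_mod_cast hn1 i
    calc (C : ℝ) * (n i * Real.log b) = (C * n i) * Real.log b := by ring
      _ ≤ _ := mul_le_mul_of_nonneg_right h1 hlb.le
  · have h1 : (n (i + 1) : ℝ) ≤ C1 * n i := by
      rw [hC1]
      exact_mod_cast hn2 i
    calc (n (i + 1) : ℝ) * Real.log b ≤ (C1 * n i) * Real.log b := mul_le_mul_of_nonneg_right h1 hlb.le
      _ = _ := by ring
  · rintro t ⟨⟨h1, h2⟩, h3⟩
    refine ⟨by linarith, by linarith, n 0, fun m hm hM => ?_⟩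
    obtain ⟨i, rfl⟩ := hn3 m hm hM
    have h4 := h3 i
    rw [Real.exp_add, Real.exp_nat_mul, Real.exp_log (by linarith)] at h4
    exact h4

end Pool.Agent.Q43.LC
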