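import Mathlib
import Pool.Agent.Q43.LC.HypAe

set_option autoImplicit false

/-!
# The numbers `(x ^ m - b ^ m) / (x - b)`
-/

namespace Pool.Agent.Q43.LC

open Filter Topology Finset MeasureTheory
open scoped ENNReal NNReal

/-- bounded perturbations -/
def HB (c0 : ℝ) (R R' : ℕ → ℝ → ℝ) : Prop := ∀ a0 a1 : ℝ, c0 < a0 → a0 < a1 → ∃ B : ℝ, 0 ≤ B ∧
  ∀ᶠ m : ℕ in atTop, ∀ t ∈ Set.Icc a0 a1, HasDerivAt (R m) (R' m t) t ∧ |R m t| ≤ B ∧ |R' m t| ≤ B

/-- the exponential families, the bounded part may depend on the index -/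
lemma lc_of' {c0 : ℝ} {H H' R R' : ℕ → ℝ → ℝ} (hH : HB c0 H H') (hR : RB c0 (1 / 2) R R') :
    LF c0 (fun m t => m * t + H m t + Real.log (1 + R m t)) := by
  refine ⟨fun m t => m + H' m t + R' m t / (1 + R m t), fun a0 a1 h0 h1 => ?_⟩
  obtain ⟨B, hB, hev⟩ := hR a0 a1 h0 h1
  obtain ⟨D1, hD1, hev2⟩ := hH a0 a1 h0 h1
  refine ⟨D1 + 2 * B + 1, by positivity, ?_⟩
  filter_upwards [hev, hev2] with m hm hm2
  refine ⟨fun t ht => ?_, fun t ht => ?_, fun t ht => ?_⟩
  · obtain ⟨_, r1, _⟩ := hm t ht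
    obtain ⟨_, s1, _⟩ := hm2 t ht
    have h3 := abs_le.1 r1
    have h4 : |Real.log (1 + R m t)| ≤ 1 := by
      rw [abs_le]
      constructor
      · rw [Real.le_log_iff_exp_le (by linarith)]
        have : Real.exp (-1) ≤ 1 / 2 := by
          rw [Real.exp_neg, inv_le_comm₀ (Real.exp_pos _) (by norm_num)]
          have := Real.add_one_le_exp (1 : ℝ)
          norm_num
          linarith
        linarith
      · have := Real.log_le_sub_one_of_pos (show 0 < 1 + R m t by linarith)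
        linarith
    have e : (m * t + H m t + Real.log (1 + R m t)) - m * t = H m t + Real.log (1 + R m t) := by ring
    rw [e]
    have := abs_add_le (H m t) (Real.log (1 + R m t))
    linarith
  · obtain ⟨r0, r1, _⟩ := hm t ht
    obtain ⟨s0, _, _⟩ := hm2 t ht
    have h3 := abs_le.1 r1
    have h4 := (r0.const_add 1).log (show (1 : ℝ) + R m t ≠ 0 by linarith)
    have h5 : HasDerivAt (fun t : ℝ => (m : ℝ) * t) m t := by
      simpa using (hasDerivAt_id t).const_mul (m : ℝ)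
    exact (h5.add s0).add h4
  · obtain ⟨_, r1, r2⟩ := hm t ht
    obtain ⟨_, _, s2⟩ := hm2 t ht
    have h3 := abs_le.1 r1
    have h4 : |R' m t / (1 + R m t)| ≤ 2 * B := by
      rw [abs_div, div_le_iff₀ (abs_pos.2 (by linarith))]
      have h5 : 1 / 2 ≤ |1 + R m t| := le_trans (by linarith) (le_abs_self _)
      nlinarith
    have e : (m + H' m t + R' m t / (1 + R m t)) - m = H' m t + R' m t / (1 + R m t) := by ring
    rw [e]
    have := abs_add_le (H' m t) (R' m t / (1 + R m t))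
    linarith

lemma HB.add {c0 : ℝ} {R R' Q Q' : ℕ → ℝ → ℝ} (h : HB c0 R R') (g : HB c0 Q Q') :
    HB c0 (fun m t => R m t + Q m t) (fun m t => R' m t + Q' m t) := by
  intro a0 a1 h0 h1
  obtain ⟨B1, hB1, e1⟩ := h a0 a1 h0 h1
  obtain ⟨B2, hB2, e2⟩ := g a0 a1 h0 h1
  refine ⟨B1 + B2, by positivity, ?_⟩
  filter_upwards [e1, e2] with m g1 g2 t ht
  obtain ⟨a, b, c⟩ := g1 t ht
  obtain ⟨d, e, f⟩ := g2 t ht
  exact ⟨a.add d, (abs_add_le _ _).trans (add_le_add b e), (abs_add_le _ _).trans (add_le_add c f)⟩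

lemma HB_const {c0 : ℝ} {H H' : ℝ → ℝ} (hH : ∀ t, c0 < t → HasDerivAt H (H' t) t)
    (hH' : ContinuousOn H' (Set.Ioi c0)) : HB c0 (fun _ => H) (fun _ => H') := by
  intro a0 a1 h0 h1
  have hsub : Set.Icc a0 a1 ⊆ Set.Ioi c0 := fun t ht => h0.trans_le ht.1
  have hc1 : ContinuousOn H (Set.Icc a0 a1) := fun t ht =>
    (hH t (hsub ht)).continuousAt.continuousWithinAt
  obtain ⟨D1, hD1⟩ := isCompact_Icc.exists_bound_of_continuousOn hc1
  obtain ⟨D2, hD2⟩ := isCompact_Icc.exists_bound_of_continuousOn (hH'.mono hsub)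
  have ha : a0 ∈ Set.Icc a0 a1 := ⟨le_rfl, h1.le⟩
  have hD10 : 0 ≤ D1 := (norm_nonneg _).trans (hD1 a0 ha)
  have hD20 : 0 ≤ D2 := (norm_nonneg _).trans (hD2 a0 ha)
  refine ⟨D1 + D2, by positivity, Eventually.of_forall fun m t ht => ⟨hH t (hsub ht), ?_, ?_⟩⟩
  · exact ((Real.norm_eq_abs _).symm.le.trans (hD1 t ht)).trans (by linarith)
  · exact ((Real.norm_eq_abs _).symm.le.trans (hD2 t ht)).trans (by linarith)

/-- the denominators -/
lemma HB_den {β c0 : ℝ} (hβ : 1 ≤ β) (hc0 : Real.log β ≤ c0) {b : ℕ → ℝ} (hb : ∀ m, |b m| ≤ β) :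
    HB c0 (fun m t => -Real.log (Real.exp t - b m)) (fun m t => -(Real.exp t / (Real.exp t - b m))) := by
  intro a0 a1 h0 h1
  have hβ0 : 0 < β := by linarith
  set γ := Real.exp a0 - β with hγ
  have hγ0 : 0 < γ := by
    have : Real.exp (Real.log β) < Real.exp a0 := Real.exp_lt_exp.2 (hc0.trans_lt h0)
    rw [Real.exp_log hβ0] at this
    rw [hγ]; linarith
  set Γ := Real.exp a1 + β with hΓ
  have hΓ0 : 0 < Γ := by positivity
  have hγΓ : γ ≤ Γ := by
    have := Real.exp_le_exp.2 h1.le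
    rw [hγ, hΓ]; linarith
  refine ⟨|Real.log γ| + |Real.log Γ| + Real.exp a1 / γ, by positivity,
    Eventually.of_forall fun m t ht => ?_⟩
  have hbm := abs_le.1 (hb m)
  have e1 := Real.exp_le_exp.2 ht.1
  have e2 := Real.exp_le_exp.2 ht.2
  have g1 : γ ≤ Real.exp t - b m := by rw [hγ]; linarith [hbm.2]
  have g2 : Real.exp t - b m ≤ Γ := by rw [hΓ]; linarith [hbm.1]
  have g0 : 0 < Real.exp t - b m := hγ0.trans_le g1
  have hq : 0 ≤ Real.exp a1 / γ := by positivity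
  refine ⟨?_, ?_, ?_⟩
  · exact (((Real.hasDerivAt_exp t).sub_const (b m)).log g0.ne').neg
  · rw [abs_neg, abs_le]
    have l1 := Real.log_le_log hγ0 g1
    have l2 := Real.log_le_log g0 g2
    have l3 := neg_abs_le (Real.log γ)
    have l4 := le_abs_self (Real.log Γ)
    have l5 := abs_nonneg (Real.log γ)
    have l6 := abs_nonneg (Real.log Γ)
    constructor <;> linarith
  · rw [abs_neg, abs_of_pos (by positivity)]
    have : Real.exp t / (Real.exp t - b m) ≤ Real.exp a1 / γ := div_le_div₀ (Real.exp_pos _).le e2 hγ0 g1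
    have l5 := abs_nonneg (Real.log γ)
    have l6 := abs_nonneg (Real.log Γ)
    linarith

/-- the quotients `(x ^ m - b ^ m) / (x - b)`, `x = exp t` -/
noncomputable def qv (b : ℕ → ℝ) (m : ℕ) (t : ℝ) : ℝ :=
  (Real.exp t ^ m - b m ^ m) / (Real.exp t - b m)

/-- their phases -/
noncomputable def qy (H : ℝ → ℝ) (b : ℕ → ℝ) (β : ℝ) (m : ℕ) (t : ℝ) : ℝ :=
  m * t + (H t + -Real.log (Real.exp t - b m)) +
    Real.log (1 + -(b m / β) ^ m * Real.exp (-(m * (1 * t - Real.log β))))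

lemma LF_q {β c0 : ℝ} (hβ : 1 ≤ β) (hc0 : Real.log β ≤ c0) {b : ℕ → ℝ} (hb : ∀ m, |b m| ≤ β)
    {H H' : ℝ → ℝ} (hH : ∀ t, c0 < t → HasDerivAt H (H' t) t) (hH' : ContinuousOn H' (Set.Ioi c0)) :
    LF c0 (qy H b β) := by
  have hβ0 : 0 < β := by linarith
  refine lc_of' (H := fun m t => H t + -Real.log (Real.exp t - b m))
    (R := fun m t => -(b m / β) ^ m * Real.exp (-(m * (1 * t - Real.log β))))
    ((HB_const hH hH').add (HB_den hβ hc0 hb))
    (RB_exp (θ := 1 / 2) (K := 1) (m1 := 1) (m0 := Real.log β) (by norm_num) one_pos (by rwa [one_mul])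
      (σ := fun m => -(b m / β) ^ m) fun m => ?_)
  rw [abs_neg, abs_pow, abs_div, abs_of_pos hβ0]
  exact pow_le_one₀ (by positivity) ((div_le_one hβ0).2 (hb m))

lemma val_q {β c0 : ℝ} (hβ : 1 ≤ β) (hc0 : Real.log β ≤ c0) {b : ℕ → ℝ} (hb : ∀ m, |b m| ≤ β)
    {α : ℝ → ℝ} (hα : ∀ t, c0 < t → 0 < α t) : ∀ t, c0 < t → ∀ᶠ m : ℕ in atTop,
      0 < α t * qv b m t ∧ Real.log (α t * qv b m t) = qy (fun t => Real.log (α t)) b β m t := by
  intro t ht
  have hβ0 : 0 < β := by linarith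
  filter_upwards [eventually_ge_atTop 1] with m hm
  have hm0 : (0 : ℝ) < m := by exact_mod_cast hm
  have hbm := hb m
  have hβt : β < Real.exp t := by
    have : Real.exp (Real.log β) < Real.exp t := Real.exp_lt_exp.2 (hc0.trans_lt ht)
    rwa [Real.exp_log hβ0] at this
  have g0 : 0 < Real.exp t - b m := by linarith [(abs_le.1 hbm).2]
  have he : Real.exp (-(m * (1 * t - Real.log β))) = (β / Real.exp t) ^ m := by
    have e1 : -(m * (1 * t - Real.log β)) = m * (Real.log β - t) := by ring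
    rw [e1, Real.exp_nat_mul, Real.exp_sub, Real.exp_log hβ0]
  have e2 : Real.exp t ^ m - b m ^ m = Real.exp t ^ m * (1 + -(b m / β) ^ m * (β / Real.exp t) ^ m) := by
    have e3 : (b m / β) ^ m * (β / Real.exp t) ^ m = b m ^ m / Real.exp t ^ m := by
      rw [← mul_pow, ← div_pow]
      congr 1
      field_simp
    rw [neg_mul, e3]
    field_simp
    ring
  have hlt : (β / Real.exp t) ^ m < 1 := by
    apply pow_lt_one₀ (by positivity) _ (by omega)
    rw [div_lt_one (Real.exp_pos _)]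
    exact hβt
  have hle : |(b m / β) ^ m| ≤ 1 := by
    rw [abs_pow, abs_div, abs_of_pos hβ0]
    exact pow_le_one₀ (by positivity) ((div_le_one hβ0).2 hbm)
  have h3 : 0 < 1 + -(b m / β) ^ m * (β / Real.exp t) ^ m := by
    have h4 := abs_le.1 hle
    have h5 : 0 < (β / Real.exp t) ^ m := by positivity
    nlinarith
  have ha := hα t ht
  have hq : 0 < qv b m t := by
    unfold qv
    rw [e2]
    positivity
  refine ⟨mul_pos ha hq, ?_⟩
  rw [Real.log_mul ha.ne' hq.ne']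
  unfold qv qy
  rw [e2, Real.log_div (by positivity) g0.ne', Real.log_mul (by positivity) h3.ne', Real.log_pow,
    Real.log_exp, he]
  ring

/-- **The numbers `(x ^ m - b ^ m) / (x - b)`.** -/
theorem q_dim : ∃ C : ℕ, 2 ≤ C ∧ ∀ β : ℝ, 1 ≤ β → ∀ b : ℕ → ℝ, (∀ m, |b m| ≤ β) →
    ∀ S : Set ℕ, Lac C S → ∀ b0 b1 : ℝ, Real.log β < b0 → b0 < b1 →
      1 ≤ dimH {t | b0 < t ∧ t < b1 ∧ ∃ M : ℕ, ∀ m ∈ S, M ≤ m → (⌊qv b m t⌋₊).Prime} := by
  obtain ⟨C, hC2, hC⟩ := main2
  refine ⟨C, hC2, fun β hβ b hb S hS b0 b1 h0 h1 => ?_⟩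
  have hL : LF (Real.log β) (qy (fun _ => Real.log 1) b β) :=
    LF_q hβ le_rfl hb (H' := fun _ => 0) (fun t _ => hasDerivAt_const t _) continuousOn_const
  have hv := val_q hβ (le_refl (Real.log β)) hb (α := fun _ => 1) (fun _ _ => one_pos)
  refine (hC (Real.log β) _ _ _ _ (Real.log_nonneg hβ) hL hL hv hv S ∅ (Set.disjoint_empty _)
    (by rwa [Set.union_empty]) b0 b1 h0 h1).trans (dimH_mono ?_)
  rintro t ⟨t0, t1, M, h2, _⟩
  refine ⟨t0, t1, M, fun m hm hge => ?_⟩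
  have := h2 m hm hge
  simpa using this

/-- almost everywhere -/
theorem q_ae {β : ℝ} (hβ : 1 ≤ β) {b : ℕ → ℝ} (hb : ∀ m, |b m| ≤ β) {S : Set ℕ}
    (hs : Summable fun m : S => 1 / ((m : ℕ) : ℝ)) :
    ∀ᵐ t : ℝ, Real.log β < t → ∃ M : ℕ, ∀ m ∈ S, M ≤ m → ¬ (⌊qv b m t⌋₊).Prime := by
  have hL : LF (Real.log β) (qy (fun _ => Real.log 1) b β) :=
    LF_q hβ le_rfl hb (H' := fun _ => 0) (fun t _ => hasDerivAt_const t _) continuousOn_const
  have hv := val_q hβ (le_refl (Real.log β)) hb (α := fun _ => 1) (fun _ _ => one_pos)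
  filter_upwards [ae_val (Real.log_nonneg hβ) hL hv hs] with t ht h0
  obtain ⟨M, hM⟩ := ht h0
  refine ⟨M, fun m hm hge => ?_⟩
  have := hM m hm hge
  simpa using this

/-- the parameter `x = exp t`, dimension -/
lemma dim_exp {β a b : ℝ} (hβ : 1 ≤ β) (ha : β ≤ a) (hab : a < b) {Q : ℝ → Prop}
    (h : ∀ b0 b1 : ℝ, Real.log β < b0 → b0 < b1 → 1 ≤ dimH {t | b0 < t ∧ t < b1 ∧ Q (Real.exp t)}) :
    dimH {x : ℝ | a < x ∧ x < b ∧ Q x} = 1 := by
  refine le_antisymm (dimH_le_one _) ?_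
  have hβ0 : 0 < β := by linarith
  have hm : β < (a + b) / 2 := by linarith
  have h0 : Real.log β < Real.log ((a + b) / 2) := Real.log_lt_log hβ0 hm
  have h1 : Real.log ((a + b) / 2) < Real.log b := Real.log_lt_log (by linarith) (by linarith)
  refine (h _ _ h0 h1).trans ?_
  refine transfer (c0 := Real.log β) (x0 := β) (g := Real.exp) (f := Real.log) ?_ ?_ ?_ ?_
  · exact Real.contDiffOn_log.mono fun x hx => by
      have : β < x := hx
      simp only [Set.mem_compl_iff, Set.mem_singleton_iff]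
      linarith
  · intro t ht
    have : Real.exp (Real.log β) < Real.exp t := Real.exp_lt_exp.2 ht
    rwa [Real.exp_log hβ0] at this
  · intro t _
    exact Real.log_exp t
  · rintro t ⟨t0, t1, hQ⟩
    refine ⟨h0.trans t0, ?_, ?_, hQ⟩
    · have h2 := Real.exp_lt_exp.2 t0
      rw [Real.exp_log (by linarith)] at h2
      linarith
    · have h2 := Real.exp_lt_exp.2 t1
      rwa [Real.exp_log (by linarith)] at h2

lemma ae_exp {β : ℝ} (hβ : 1 ≤ β) {Q : ℝ → Prop} (h : ∀ᵐ t : ℝ, Real.log β < t → Q (Real.exp t)) :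
    ∀ᵐ x : ℝ, β < x → Q x := by
  refine ae_transfer (c0 := Real.log β) (g := Real.exp) (by fun_prop) (fun x hx => ?_) h
  exact ⟨Real.log x, Real.log_lt_log (by linarith) hx, Real.exp_log (by linarith)⟩

end Pool.Agent.Q43.LC
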