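import Mathlib
import Pool.Agent.Q43.LC.Amp
import Pool.Agent.Q43.LC.Pairs

set_option autoImplicit false

/-!
# Fixed base, variable amplitude: positive amplitudes, almost all amplitudes
-/

namespace Pool.Agent.Q43.LC

open Filter Topology Finset MeasureTheory
open scoped ENNReal NNReal

/-- the amplitude `exp t`, dimension -/
lemma dim_amp {a b : ℝ} (ha : 0 < a) (hab : a < b) {Q : ℝ → Prop}
    (h : ∀ b0 b1 : ℝ, b0 < b1 → 1 ≤ dimH {t | b0 < t ∧ t < b1 ∧ Q (Real.exp t)}) :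
    dimH {x : ℝ | a < x ∧ x < b ∧ Q x} = 1 := by
  refine le_antisymm (dimH_le_one _) ?_
  have h1 : Real.log a < Real.log b := Real.log_lt_log ha hab
  refine (h _ _ h1).trans ?_
  refine transfer (c0 := Real.log (a / 2)) (x0 := a / 2) (g := Real.exp) (f := Real.log) ?_ ?_ ?_ ?_
  · exact Real.contDiffOn_log.mono fun x hx => by
      have : a / 2 < x := hx
      simp only [Set.mem_compl_iff, Set.mem_singleton_iff]
      linarith
  · intro t ht
    have : Real.exp (Real.log (a / 2)) < Real.exp t := Real.exp_lt_exp.2 ht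
    rwa [Real.exp_log (by linarith)] at this
  · intro t _
    exact Real.log_exp t
  · rintro t ⟨t0, t1, hQ⟩
    have h0 : Real.log (a / 2) < Real.log a := Real.log_lt_log (by linarith) (by linarith)
    refine ⟨h0.trans t0, ?_, ?_, hQ⟩
    · have h2 := Real.exp_lt_exp.2 t0
      rwa [Real.exp_log (by linarith)] at h2
    · have h2 := Real.exp_lt_exp.2 t1
      rwa [Real.exp_log (by linarith)] at h2

lemma ae_amp {Q : ℝ → Prop} (h : ∀ᵐ t : ℝ, Q (Real.exp t)) : ∀ᵐ x : ℝ, 0 < x → Q x := by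
  have h1 : ∀ᵐ x : ℝ, ∀ n : ℕ, Real.exp (-(n : ℝ)) < x → Q x := by
    rw [ae_all_iff]
    intro n
    refine ae_transfer (c0 := -(n : ℝ)) (g := Real.exp) (by fun_prop) (fun x hx => ?_)
      (h.mono fun t ht _ => ht)
    have hx0 : 0 < x := (Real.exp_pos _).trans hx
    refine ⟨Real.log x, ?_, Real.exp_log hx0⟩
    rwa [Real.lt_log_iff_exp_lt hx0]
  filter_upwards [h1] with x hx hx0
  obtain ⟨n, hn⟩ := exists_nat_gt (-Real.log x)
  refine hx n ?_
  rw [← Real.lt_log_iff_exp_lt hx0]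
  linarith

/-- **One exponent**: the amplitudes in a window with a prime value. -/
lemma oneA {t0 t1 : ℝ} (h01 : t0 < t1) (c : ℕ) : ∃ K : ℝ, 0 < K ∧
    ∀ᶠ L : ℝ in atTop, volume {t ∈ Set.Icc t0 t1 | (⌊Real.exp (t + L)⌋₊ + c).Prime} ≤
      ENNReal.ofReal (K / L) := by
  refine ⟨16 * (t1 - t0 + 6), by linarith, ?_⟩
  filter_upwards [eventually_ge_atTop (2 * |t0| + 8 + 2 * |t1|), (Real.tendsto_exp_atTop.comp
    (tendsto_atTop_add_const_left _ t0 tendsto_id)).eventually_ge_atTop (2 * (c : ℝ) + 4)] with L h1 h2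
  have h2' : 2 * (c : ℝ) + 4 ≤ Real.exp (t0 + L) := h2
  have e0 := neg_abs_le t0
  have e1 := le_abs_self t0
  have e2 := neg_abs_le t1
  have e3 := le_abs_self t1
  have e4 := abs_nonneg t0
  have e5 := abs_nonneg t1
  have hL0 : 0 < L := by linarith
  set k0 := ⌊t0 + L - 1⌋₊ with hk0
  set k1 := ⌊t1 + L + 1⌋₊ with hk1
  have hk0r : (k0 : ℝ) ≤ t0 + L - 1 := Nat.floor_le (by linarith)
  have hk0l : t0 + L - 2 ≤ k0 := by
    have := Nat.lt_floor_add_one (t0 + L - 1)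
    linarith
  have hk0L : L / 2 ≤ k0 := by linarith
  have hk01 : 1 ≤ k0 := by
    have : (1 : ℝ) ≤ k0 := by linarith
    exact_mod_cast this
  have hk1l : t1 + L + 1 < k1 + 1 := Nat.lt_floor_add_one _
  set P := (Icc 2 (⌊Real.exp (t1 + L)⌋₊ + c)).filter (fun r : ℕ => r.Prime ∧
    Real.exp (t0 + L) - 1 + c < r) with hP
  have hsub : {t ∈ Set.Icc t0 t1 | (⌊Real.exp (t + L)⌋₊ + c).Prime} ⊆
      ⋃ r ∈ P, {t ∈ Set.Icc t0 t1 | ⌊Real.exp (t + L)⌋₊ + c = r} := by
    rintro t ⟨ht, hp⟩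
    simp only [Set.mem_iUnion]
    refine ⟨⌊Real.exp (t + L)⌋₊ + c, ?_, ht, rfl⟩
    rw [hP, mem_filter, mem_Icc]
    have h5 : ⌊Real.exp (t + L)⌋₊ ≤ ⌊Real.exp (t1 + L)⌋₊ :=
      Nat.floor_le_floor (Real.exp_le_exp.2 (by linarith [ht.2]))
    refine ⟨⟨hp.two_le, by omega⟩, hp, ?_⟩
    have h3 := Nat.lt_floor_add_one (Real.exp (t + L))
    have h4 := Real.exp_le_exp.2 (show t0 + L ≤ t + L by linarith [ht.1])
    push_cast
    linarith
  have hcr : ∀ r ∈ P, (r : ℝ) / 2 ≤ (r : ℝ) - c := by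
    intro r hr
    rw [hP, mem_filter, mem_Icc] at hr
    obtain ⟨⟨_, _⟩, _, g4⟩ := hr
    have : (0 : ℝ) ≤ c := Nat.cast_nonneg c
    linarith
  have hPr : ∀ r ∈ P, r.Prime ∧ (k0 : ℝ) ≤ Real.log r ∧ Real.log r < k1 + 1 := by
    intro r hr
    rw [hP, mem_filter, mem_Icc] at hr
    obtain ⟨⟨_, g2⟩, g3, g4⟩ := hr
    have hr0 : (0 : ℝ) < r := by exact_mod_cast g3.pos
    have hc0 : (0 : ℝ) ≤ c := Nat.cast_nonneg c
    refine ⟨g3, ?_, ?_⟩
    · rw [Real.le_log_iff_exp_le hr0]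
      have h3 : Real.exp k0 ≤ Real.exp (t0 + L - 1) := Real.exp_le_exp.2 hk0r
      have h4 : Real.exp (t0 + L - 1) ≤ Real.exp (t0 + L) - 1 := by
        have e : Real.exp (t0 + L) = Real.exp (t0 + L - 1) * Real.exp 1 := by
          rw [← Real.exp_add]; congr 1; ring
        have h5 : (2 : ℝ) ≤ Real.exp 1 := by linarith [Real.add_one_le_exp (1 : ℝ)]
        have h6 : 1 ≤ Real.exp (t0 + L - 1) := Real.one_le_exp (by linarith)
        rw [e]
        nlinarith
      linarith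
    · have h3 : (r : ℝ) ≤ Real.exp (t1 + L) + c := by
        have : (r : ℝ) ≤ (⌊Real.exp (t1 + L)⌋₊ + c : ℕ) := by exact_mod_cast g2
        refine this.trans ?_
        push_cast
        linarith [Nat.floor_le (Real.exp_pos (t1 + L)).le]
      have h6 : Real.exp (t0 + L) ≤ Real.exp (t1 + L) := Real.exp_le_exp.2 (by linarith)
      have h7 : (r : ℝ) ≤ Real.exp (t1 + L + 1) := by
        rw [Real.exp_add (t1 + L) 1]
        have h5 : (2 : ℝ) ≤ Real.exp 1 := by linarith [Real.add_one_le_exp (1 : ℝ)]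
        have h8 := Real.exp_pos (t1 + L)
        nlinarith
      have h4 := Real.log_le_log hr0 h7
      rw [Real.log_exp] at h4
      linarith
  have hvol : ∀ r ∈ P, volume {t ∈ Set.Icc t0 t1 | ⌊Real.exp (t + L)⌋₊ + c = r} ≤
      ENNReal.ofReal (2 * (1 / r)) := by
    intro r hr
    have hrp := (hPr r hr).1
    have hr0 : (0 : ℝ) < r := by exact_mod_cast hrp.pos
    have hrc := hcr r hr
    have hrc0 : (0 : ℝ) < (r : ℝ) - c := by linarith
    refine (Real.volume_le_diam _).trans (Metric.ediam_le ?_)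
    have key : ∀ s ∈ {t ∈ Set.Icc t0 t1 | ⌊Real.exp (t + L)⌋₊ + c = r},
        ∀ t ∈ {t ∈ Set.Icc t0 t1 | ⌊Real.exp (t + L)⌋₊ + c = r}, s ≤ t → t - s ≤ 2 * (1 / r) := by
      rintro s ⟨hs, hsr⟩ t ⟨ht, htr⟩ hst
      have f1 : ((⌊Real.exp (s + L)⌋₊ : ℕ) : ℝ) = r - c := by
        rw [← hsr]; push_cast; ring
      have f2 : ((⌊Real.exp (t + L)⌋₊ : ℕ) : ℝ) = r - c := by
        rw [← htr]; push_cast; ring
      have g1 : (r : ℝ) - c ≤ Real.exp (s + L) := by rw [← f1]; exact Nat.floor_le (Real.exp_pos _).le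
      have g2 : Real.exp (t + L) < (r - c) + 1 := by rw [← f2]; exact Nat.lt_floor_add_one _
      have g3 : Real.exp (t - s) ≤ 1 + 1 / (r - c) := by
        rw [show t - s = (t + L) - (s + L) by ring, Real.exp_sub, div_le_iff₀ (Real.exp_pos _)]
        calc Real.exp (t + L) ≤ (r - c) + 1 := g2.le
          _ = (1 + 1 / (r - c)) * (r - c) := by field_simp
          _ ≤ _ := by gcongr
      have g4 : t - s ≤ 1 / (r - c) := by
        have := Real.add_one_le_exp (t - s)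
        linarith
      refine g4.trans ?_
      calc 1 / ((r : ℝ) - c) ≤ 1 / (r / 2) := one_div_le_one_div_of_le (by positivity) hrc
        _ = _ := by field_simp
    intro s hs t ht
    rw [edist_dist, Real.dist_eq]
    refine ENNReal.ofReal_le_ofReal ?_
    rcases le_total s t with h | h
    · rw [abs_sub_comm, abs_of_nonneg (by linarith)]
      exact key s hs t ht h
    · rw [abs_of_nonneg (by linarith)]
      exact key t ht s hs h
  calc volume {t ∈ Set.Icc t0 t1 | (⌊Real.exp (t + L)⌋₊ + c).Prime} ≤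
        volume (⋃ r ∈ P, {t ∈ Set.Icc t0 t1 | ⌊Real.exp (t + L)⌋₊ + c = r}) := measure_mono hsub
    _ ≤ ∑ r ∈ P, volume {t ∈ Set.Icc t0 t1 | ⌊Real.exp (t + L)⌋₊ + c = r} :=
        measure_biUnion_finset_le _ _
    _ ≤ ∑ r ∈ P, ENNReal.ofReal (2 * (1 / r)) := Finset.sum_le_sum hvol
    _ = ENNReal.ofReal (2 * ∑ r ∈ P, 1 / (r : ℝ)) := by
        rw [← ENNReal.ofReal_sum_of_nonneg (fun r _ => by positivity), Finset.mul_sum]
    _ ≤ ENNReal.ofReal (16 * (t1 - t0 + 6) / L) := by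
        refine ENNReal.ofReal_le_ofReal ?_
        have h3 := sum_inv hk01 P hPr
        have h6 : (k1 : ℝ) ≤ t1 + L + 1 := Nat.floor_le (by linarith)
        have h4 : ((k1 + 1 - k0 : ℕ) : ℝ) ≤ t1 - t0 + 6 := by
          have h7 : ((k1 + 1 - k0 : ℕ) : ℝ) ≤ max ((k1 : ℝ) + 1 - k0) 0 := by
            rcases le_total k0 (k1 + 1) with h | h
            · rw [Nat.cast_sub h]
              push_cast
              exact le_max_left _ _
            · rw [Nat.sub_eq_zero_of_le h, Nat.cast_zero]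
              exact le_max_right _ _
          refine h7.trans (max_le ?_ ?_) <;> linarith
        have h5 : 4 / (k0 : ℝ) ≤ 8 / L := by
          rw [div_le_div_iff₀ (by exact_mod_cast hk01) (by positivity)]
          nlinarith
        calc 2 * ∑ r ∈ P, 1 / (r : ℝ) ≤ 2 * ((k1 + 1 - k0 : ℕ) * (4 / k0)) := by gcongr
          _ ≤ 2 * ((t1 - t0 + 6) * (8 / L)) := by
              have : (0 : ℝ) ≤ t1 - t0 + 6 := by linarith
              gcongr
          _ = _ := by ring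

/-- **Almost all amplitudes**: only finitely many prime values if `∑ 1/m` converges. -/
theorem ampAe {b : ℝ} (hb : 1 < b) (c : ℕ) {S : Set ℕ} (hs : Summable fun m : S => 1 / ((m : ℕ) : ℝ)) :
    ∀ᵐ β : ℝ, 0 < β → ∃ M : ℕ, ∀ m ∈ S, M ≤ m → ¬ (⌊β * b ^ m⌋₊ + c).Prime := by
  have hlb : 0 < Real.log b := Real.log_pos hb
  refine ae_amp ?_
  have h1 : ∀ᵐ t : ℝ, ∀ n : ℕ, t ∈ Set.Icc (-(n : ℝ)) ((n : ℝ) + 1) →
      ∃ M : ℕ, ∀ m ∈ S, M ≤ m → ¬ (⌊Real.exp t * b ^ m⌋₊ + c).Prime := by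
    rw [ae_all_iff]
    intro n
    have hn : (0 : ℝ) ≤ n := Nat.cast_nonneg n
    obtain ⟨K, hK, hone⟩ := oneA (show -(n : ℝ) < (n : ℝ) + 1 by linarith) c
    have hone' : ∀ᶠ m : ℕ in atTop, volume {t ∈ Set.Icc (-(n : ℝ)) ((n : ℝ) + 1) |
        (⌊Real.exp (t + m * Real.log b)⌋₊ + c).Prime} ≤ ENNReal.ofReal (K / (m * Real.log b)) :=
      (tendsto_natCast_atTop_atTop.atTop_mul_const hlb).eventually hone
    obtain ⟨M, hM⟩ := eventually_atTop.1 hone'
    set T : Set ℕ := {m ∈ S | M ≤ m} with hT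
    have hTS : T ⊆ S := fun m hm => hm.1
    have hT' : Summable fun m : T => 1 / ((m : ℕ) : ℝ) := by
      have h1 := hs.comp_injective (Set.inclusion_injective hTS)
      have e : (fun m : T => 1 / ((m : ℕ) : ℝ)) =
          ((fun m : S => 1 / ((m : ℕ) : ℝ)) ∘ Set.inclusion hTS) := by
        funext x
        rfl
      rw [e]
      exact h1
    have htop : ∑' m : T, volume {t ∈ Set.Icc (-(n : ℝ)) ((n : ℝ) + 1) |
        (⌊Real.exp (t + (m : ℕ) * Real.log b)⌋₊ + c).Prime} ≠ ⊤ := by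
      refine ne_top_of_le_ne_top ?_ (ENNReal.tsum_le_tsum fun m : T => hM m.1 m.2.2)
      have e : (fun m : T => K / (((m : ℕ) : ℝ) * Real.log b)) =
          fun m : T => K / Real.log b * (1 / ((m : ℕ) : ℝ)) := by
        funext m
        rw [div_mul_div_comm, mul_one, mul_comm (Real.log b)]
      have hsum : Summable fun m : T => K / (((m : ℕ) : ℝ) * Real.log b) := by
        rw [e]
        exact hT'.mul_left _
      rw [← ENNReal.ofReal_tsum_of_nonneg (fun m : T => by positivity) hsum]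
      exact ENNReal.ofReal_ne_top
    filter_upwards [ae_finite_setOfPred_mem htop] with t ht htI
    obtain ⟨B, hB⟩ := (ht.image (fun m : T => (m : ℕ))).bddAbove
    refine ⟨M + B + 1, fun m hm hge hp => ?_⟩
    rw [← Real.exp_log (show 0 < b by linarith), ← Real.exp_nat_mul, ← Real.exp_add] at hp
    have := hB ⟨⟨m, hm, by omega⟩, ⟨htI, hp⟩, rfl⟩
    simp only at this
    omega
  filter_upwards [h1] with t ht
  obtain ⟨n, hn⟩ := exists_nat_ge |t|
  have h2 := neg_abs_le t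
  have h3 := le_abs_self t
  exact ht n ⟨by linarith, by linarith⟩

/-- **Fixed base, variable amplitude.** -/
theorem ampB : ∃ C : ℕ, 2 ≤ C ∧ ∀ (b : ℝ) (c : ℕ), 1 < b → ∀ S : Set ℕ, Lac C S →
    ∀ s t : ℝ, 0 < s → s < t →
      dimH {β : ℝ | s < β ∧ β < t ∧ ∃ M : ℕ, ∀ m ∈ S, M ≤ m → (⌊β * b ^ m⌋₊ + c).Prime} = 1 := by
  obtain ⟨C, hC, h⟩ := amp
  exact ⟨C, hC, fun b c hb S hS s t hs hst => dim_amp hs hst fun b0 b1 hb01 => h b c hb S hS b0 b1 hb01⟩

end Pool.Agent.Q43.LC
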